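import Pool.Agent.H70.CG.Stm

/-!
# From the correlation gap to contention resolution
-/

namespace Pool.Agent.H70.CG.CRS

open Finset

theorem ex_sum {E ι : Type} [Fintype E] [DecidableEq E] (q : E → ℝ) (s : Finset ι)
    (f : ι → Finset E → ℝ) : ex q (fun S => ∑ i ∈ s, f i S) = ∑ i ∈ s, ex q (f i) := by
  unfold ex
  rw [Finset.sum_comm]
  exact Finset.sum_congr rfl fun S _ => Finset.mul_sum _ _ _

theorem ex_mul {E : Type} [Fintype E] [DecidableEq E] (q : E → ℝ) (a : ℝ)
    (f : Finset E → ℝ) : ex q (fun S => a * f S) = a * ex q f := by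
  unfold ex
  rw [Finset.mul_sum]
  exact Finset.sum_congr rfl fun S _ => by ring

theorem crs : S_CRS := by
  intro E _ _ Mat c q hM0 hq0 hq1 hH
  classical
  let D : Set (Finset E → Finset E) := {g | ∀ S, g S ⊆ S ∧ Mat (g S)}
  let y : (Finset E → Finset E) → E → ℝ := fun g e => ex q (fun S => if e ∈ g S then 1 else 0)
  have hfin : (y '' D).Finite := (Set.toFinite D).image y
  by_cases hdis : Disjoint (convexHull ℝ (y '' D)) (Set.Ici fun e => c * q e)
  · exfalso
    obtain ⟨l, u, v, h1, h2, h3⟩ := geometric_hahn_banach_compact_closed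
      (convex_convexHull ℝ (y '' D)) (hfin.isCompact_convexHull ℝ)
      (convex_Ici (𝕜 := ℝ) (fun e => c * q e)) isClosed_Ici hdis
    let w : E → ℝ := fun e => l (fun j => if e = j then 1 else 0)
    have hl : ∀ x : E → ℝ, l x = ∑ e, x e * w e := fun x =>
      LinearMap.pi_apply_eq_sum_univ (l : (E → ℝ) →ₗ[ℝ] ℝ) x
    have hw0 : ∀ e, 0 ≤ w e := by
      intro e
      by_contra hneg
      rw [not_le] at hneg
      have h4 := h3 (fun e => c * q e) (Set.mem_Ici.2 le_rfl)
      set t : ℝ := (l (fun e => c * q e) - v) / (-w e) with ht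
      have ht0 : 0 ≤ t := div_nonneg (by linarith) (by linarith)
      have h5 := h3 ((fun e => c * q e) + t • fun j => if e = j then 1 else 0)
        (Set.mem_Ici.2 fun j => by
          show c * q j ≤ c * q j + t * (if e = j then 1 else 0)
          have : 0 ≤ t * (if e = j then (1 : ℝ) else 0) := by
            split_ifs
            · linarith
            · linarith
          linarith)
      rw [map_add, map_smul, smul_eq_mul] at h5
      have h6 : t * w e = -(l (fun e => c * q e) - v) := by
        have hne : w e ≠ 0 := hneg.ne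
        rw [ht, div_mul_eq_mul_div, mul_div_assoc, div_neg, div_self hne, mul_neg, mul_one]
      have h7 : t * l (fun j => if e = j then 1 else 0) = t * w e := rfl
      rw [h7, h6] at h5
      linarith
    obtain ⟨g, hg1, hg2⟩ := hH w hw0
    have h4 := h1 (y g) (subset_convexHull ℝ _ ⟨g, hg1, rfl⟩)
    have h5 := h3 (fun e => c * q e) (Set.mem_Ici.2 le_rfl)
    have h6 : l (fun e => c * q e) = c * ∑ e, q e * w e := by
      rw [hl, Finset.mul_sum]
      exact Finset.sum_congr rfl fun e _ => by ring
    have h7 : l (y g) = ex q (fun S => ∑ e ∈ g S, w e) := by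
      rw [hl]
      have h8 : ∀ e, y g e * w e = ex q (fun S => if e ∈ g S then w e else 0) := by
        intro e
        show ex q (fun S => if e ∈ g S then 1 else 0) * w e = _
        rw [mul_comm, ← ex_mul]
        congr 1
        funext S
        split_ifs <;> simp
      rw [Finset.sum_congr rfl fun e _ => h8 e, ← ex_sum]
      congr 1
      funext S
      rw [Finset.sum_ite_mem, Finset.univ_inter]
    linarith
  · rw [Set.not_disjoint_iff] at hdis
    obtain ⟨x, hx1, hx2⟩ := hdis
    rw [mem_convexHull_iff_exists_fintype] at hx1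
    obtain ⟨ι, _, w, z, hw0, hw1, hz, hx⟩ := hx1
    choose g hg hgz using hz
    refine ⟨fun S M => ∑ i, if g i S = M then w i else 0, fun S M => ?_, fun S => ?_,
      fun S M h => ?_, fun e => ?_⟩
    · refine Finset.sum_nonneg fun i _ => ?_
      split_ifs
      · exact hw0 i
      · exact le_rfl
    · rw [Finset.sum_comm]
      simp only [Finset.sum_ite_eq, Finset.mem_univ, if_true]
      exact hw1
    · obtain ⟨i, -, hi⟩ := Finset.exists_ne_zero_of_sum_ne_zero h
      have h1 : g i S = M := by
        by_contra h2
        rw [if_neg h2] at hi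
        exact hi rfl
      rw [← h1]
      exact hg i S
    · have h1 : c * q e ≤ x e := hx2 e
      refine h1.trans (le_of_eq ?_)
      rw [← hx, Finset.sum_apply]
      have h2 : ∀ i, (w i • z i) e = ex q (fun S => if e ∈ g i S then w i else 0) := by
        intro i
        rw [← hgz i]
        show w i * ex q (fun S => if e ∈ g i S then 1 else 0) = _
        rw [← ex_mul]
        congr 1
        funext S
        split_ifs <;> simp
      rw [Finset.sum_congr rfl fun i _ => h2 i, ← ex_sum]
      congr 1
      funext S
      show _ = ∑ M, if e ∈ M then ∑ i, (if g i S = M then w i else 0) else 0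
      have h3 : ∀ M : Finset E, (if e ∈ M then ∑ i, (if g i S = M then w i else 0) else 0) =
          ∑ i, if g i S = M then (if e ∈ M then w i else 0) else 0 := by
        intro M
        by_cases h : e ∈ M
        · simp only [if_pos h]
        · simp only [if_neg h, ite_self, Finset.sum_const_zero]
      rw [Finset.sum_congr rfl fun M _ => h3 M, Finset.sum_comm]
      refine Finset.sum_congr rfl fun i _ => ?_
      rw [Finset.sum_ite_eq]
      simp only [Finset.mem_univ, if_true]

end Pool.Agent.H70.CG.CRS
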