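import Pool.Agent.H70.CG.Stm

/-!
# Exchange property of the column sets of matchings
-/

namespace Pool.Agent.H70.CG.EXCH

open Finset Pool.Agent.H70.CG

variable {U V : Type} [DecidableEq U] [DecidableEq V]

theorem isMat_mono {M M' : Finset (U × V)} (h : IsMat M) (hs : M' ⊆ M) : IsMat M' :=
  fun e he e' he' h2 => h e (hs he) e' (hs he') h2

theorem isMat_insert {M : Finset (U × V)} {r : U} {k : V} (h : IsMat M)
    (hr : ∀ e ∈ M, e.1 ≠ r) (hk : k ∉ M.image Prod.snd) : IsMat (insert (r, k) M) := by
  have hk' : ∀ e ∈ M, e.2 ≠ k := fun e he hek => hk (mem_image.2 ⟨e, he, hek⟩)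
  intro e he e' he' h2
  rw [mem_insert] at he he'
  rcases he with rfl | he
  · rcases he' with rfl | he'
    · rfl
    · rcases h2 with h2 | h2
      · exact absurd h2.symm (hr e' he')
      · exact absurd h2.symm (hk' e' he')
  · rcases he' with rfl | he'
    · rcases h2 with h2 | h2
      · exact absurd h2 (hr e he)
      · exact absurd h2 (hk' e he)
    · exact h e he e' he' h2

theorem image_erase {M : Finset (U × V)} {r : U} {k : V} (h : IsMat M) (hm : (r, k) ∈ M) :
    (M.erase (r, k)).image Prod.snd = (M.image Prod.snd).erase k := by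
  ext x
  simp only [mem_image, mem_erase]
  constructor
  · rintro ⟨e, ⟨hne, he⟩, rfl⟩
    exact ⟨fun hek => hne (h e he (r, k) hm (Or.inr hek)), e, he, rfl⟩
  · rintro ⟨hx, e, he, rfl⟩
    exact ⟨e, ⟨fun hek => hx (by rw [hek]), he⟩, rfl⟩

theorem row_erase {M : Finset (U × V)} {r : U} {k : V} (h : IsMat M) (hm : (r, k) ∈ M) :
    ∀ e ∈ M.erase (r, k), e.1 ≠ r := by
  intro e he her
  rw [mem_erase] at he
  exact he.1 (h e he.2 (r, k) hm (Or.inl her))

theorem wsum_insert (w : U → V → ℝ) {M : Finset (U × V)} {r : U} {k : V} (h : (r, k) ∉ M) :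
    wsum w (insert (r, k) M) = w r k + wsum w M := by
  unfold wsum
  rw [sum_insert h]

theorem wsum_erase (w : U → V → ℝ) {M : Finset (U × V)} {r : U} {k : V} (h : (r, k) ∈ M) :
    wsum w M = w r k + wsum w (M.erase (r, k)) := by
  rw [← wsum_insert w (notMem_erase _ _), insert_erase h]

theorem key (n : ℕ) : ∀ A B : Finset (U × V), A.card + B.card = n →
  IsMat A → IsMat B → ∀ i ∈ B.image Prod.snd, i ∉ A.image Prod.snd →
  ∃ A' B' : Finset (U × V), IsMat A' ∧ IsMat B' ∧ A' ⊆ A ∪ B ∧ B' ⊆ A ∪ B ∧
    (∀ w : U → V → ℝ, wsum w A' + wsum w B' = wsum w A + wsum w B) ∧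
    ((A'.image Prod.snd = insert i (A.image Prod.snd) ∧
        B'.image Prod.snd = (B.image Prod.snd).erase i) ∨
     ∃ j ∈ A.image Prod.snd, j ∉ B.image Prod.snd ∧
        A'.image Prod.snd = insert i ((A.image Prod.snd).erase j) ∧
        B'.image Prod.snd = insert j ((B.image Prod.snd).erase i)) := by
  induction n using Nat.strong_induction_on with
  | _ n ih =>
  intro A B hn hA hB i hiB hiA
  obtain ⟨⟨r, i'⟩, hri, rfl⟩ := mem_image.1 hiB
  simp only at hiA hiB ⊢
  have hri' : (r, i') ∉ A := fun h => hiA (mem_image.2 ⟨_, h, rfl⟩)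
  by_cases hrA : ∀ e ∈ A, e.1 ≠ r
  · refine ⟨insert (r, i') A, B.erase (r, i'), isMat_insert hA hrA hiA,
      isMat_mono hB (erase_subset _ _), ?_, ?_, ?_, Or.inl ⟨?_, ?_⟩⟩
    · exact insert_subset (mem_union_right _ hri) subset_union_left
    · exact (erase_subset _ _).trans subset_union_right
    · intro w
      rw [wsum_insert w hri', wsum_erase w hri]; ring
    · rw [image_insert]
    · exact image_erase hB hri
  · push Not at hrA
    obtain ⟨⟨r', k⟩, hk, hr⟩ := hrA
    simp only at hr
    subst hr
    have hki : k ≠ i' := fun h => hri' (h ▸ hk)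
    have hkA : k ∈ A.image Prod.snd := mem_image.2 ⟨_, hk, rfl⟩
    have hri0 : (r', i') ∉ A.erase (r', k) := fun h => hri' (mem_of_mem_erase h)
    have hrkB : (r', k) ∉ B := fun h => hki (by
      have := hB _ h _ hri (Or.inl rfl)
      exact congrArg Prod.snd this)
    by_cases hkB : k ∈ B.image Prod.snd
    · have hcA := image_erase hA hk
      have hcB := image_erase hB hri
      have hrowA := row_erase hA hk
      have hrowB := row_erase hB hri
      have hrow : ∀ e ∈ A.erase (r', k) ∪ B.erase (r', i'), e.1 ≠ r' := by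
        intro e he
        rcases mem_union.1 he with he | he
        · exact hrowA e he
        · exact hrowB e he
      obtain ⟨A0, B0, hA0, hB0, hsA, hsB, hw, hc⟩ := ih
        ((A.erase (r', k)).card + (B.erase (r', i')).card) (by
          have h1 := card_erase_lt_of_mem hk
          have h2 := card_erase_lt_of_mem hri
          omega) (A.erase (r', k)) (B.erase (r', i')) rfl (isMat_mono hA (erase_subset _ _))
        (isMat_mono hB (erase_subset _ _)) k (by rw [hcB]; exact mem_erase.2 ⟨hki, hkB⟩)
        (by rw [hcA]; exact notMem_erase _ _)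
      have hiA0 : i' ∉ A0.image Prod.snd := by
        rcases hc with ⟨h1, -⟩ | ⟨j, hj, -, h1, -⟩
        · rw [h1, hcA, insert_erase hkA]; exact hiA
        · rw [h1, hcA, mem_insert, mem_erase, mem_erase]
          push Not
          exact ⟨hki.symm, fun _ _ => hiA⟩
      have hkB0 : k ∉ B0.image Prod.snd := by
        rcases hc with ⟨-, h1⟩ | ⟨j, hj, -, -, h1⟩
        · rw [h1]; exact notMem_erase _ _
        · rw [hcA] at hj
          rw [h1, mem_insert, mem_erase]
          push Not
          exact ⟨(ne_of_mem_erase hj).symm, fun h => absurd rfl h⟩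
      have hrA0 : ∀ e ∈ A0, e.1 ≠ r' := fun e he => hrow e (hsA he)
      have hrB0 : ∀ e ∈ B0, e.1 ≠ r' := fun e he => hrow e (hsB he)
      have hsub : A.erase (r', k) ∪ B.erase (r', i') ⊆ A ∪ B :=
        union_subset_union (erase_subset _ _) (erase_subset _ _)
      refine ⟨insert (r', i') A0, insert (r', k) B0, isMat_insert hA0 hrA0 hiA0,
        isMat_insert hB0 hrB0 hkB0, ?_, ?_, ?_, ?_⟩
      · exact insert_subset (mem_union_right _ hri) (hsA.trans hsub)
      · exact insert_subset (mem_union_left _ hk) (hsB.trans hsub)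
      · intro w
        rw [wsum_insert w (fun h => hrA0 _ h rfl), wsum_insert w (fun h => hrB0 _ h rfl),
          wsum_erase w hk, wsum_erase w hri]
        linarith [hw w]
      · rcases hc with ⟨h1, h2⟩ | ⟨j, hj, hj', h1, h2⟩
        · left
          refine ⟨?_, ?_⟩
          · rw [image_insert, h1, hcA, insert_erase hkA]
          · rw [image_insert, h2, insert_erase (by rw [hcB]; exact mem_erase.2 ⟨hki, hkB⟩), hcB]
        · right
          rw [hcA] at hj
          rw [hcB] at hj'
          obtain ⟨hjk, hjA⟩ := mem_erase.1 hj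
          have hji : j ≠ i' := fun h => hiA (h ▸ hjA)
          refine ⟨j, hjA, fun h => hj' (mem_erase.2 ⟨hji, h⟩), ?_, ?_⟩
          · rw [image_insert, h1, hcA, erase_right_comm, insert_erase (mem_erase.2 ⟨hjk.symm, hkA⟩)]
          · rw [image_insert, h2, hcB, Finset.insert_comm, insert_erase (mem_erase.2 ⟨hki, hkB⟩)]
    · refine ⟨insert (r', i') (A.erase (r', k)), insert (r', k) (B.erase (r', i')),
        isMat_insert (isMat_mono hA (erase_subset _ _)) (row_erase hA hk) ?_,
        isMat_insert (isMat_mono hB (erase_subset _ _)) (row_erase hB hri) ?_, ?_, ?_, ?_,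
        Or.inr ⟨k, hkA, hkB, ?_, ?_⟩⟩
      · rw [image_erase hA hk]; exact fun h => hiA (mem_of_mem_erase h)
      · rw [image_erase hB hri]; exact fun h => hkB (mem_of_mem_erase h)
      · exact insert_subset (mem_union_right _ hri) ((erase_subset _ _).trans subset_union_left)
      · exact insert_subset (mem_union_left _ hk) ((erase_subset _ _).trans subset_union_right)
      · intro w
        rw [wsum_insert w hri0, wsum_insert w (fun h => hrkB (mem_of_mem_erase h)),
          wsum_erase w hk, wsum_erase w hri]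
        ring
      · rw [image_insert, image_erase hA hk]
      · rw [image_insert, image_erase hB hri]

theorem exch : S_EXCH := by
  intro _ _ _ _ A B hA hB i hi hi'
  exact key _ A B rfl hA hB i hi hi'

end Pool.Agent.H70.CG.EXCH
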