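import Pool.Agent.H70.CG.Stm

/-!
Insertion of a row and decomposition of the excess.
-/

set_option autoImplicit false

namespace Pool.Agent.H70.CG.INS

open Finset Pool.Agent.H70.CG

section
variable {U V : Type} [DecidableEq U] [DecidableEq V]

omit [DecidableEq V] in
theorem mem_delR {G : Finset (U × V)} {u : U} {e : U × V} : e ∈ delR G u ↔ e ∈ G ∧ e.1 ≠ u := by
  simp [delR]

omit [DecidableEq U] in
theorem mem_delC {G : Finset (U × V)} {v : V} {e : U × V} : e ∈ delC G v ↔ e ∈ G ∧ e.2 ≠ v := by
  simp [delC]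

theorem delR_delC (G : Finset (U × V)) (u : U) (v : V) :
    delR (delC G v) u = delC (delR G u) v := by
  ext e
  rw [mem_delR, mem_delC, mem_delC, mem_delR]
  tauto

omit [DecidableEq V] in
theorem delR_sub (G : Finset (U × V)) (u : U) : delR G u ⊆ G := filter_subset _ _

omit [DecidableEq U] in
theorem delC_sub (G : Finset (U × V)) (v : V) : delC G v ⊆ G := filter_subset _ _

/-- Adding an edge. -/
theorem nu_add (w : U → V → ℝ) {G : Finset (U × V)} {u : U} {v : V} (h : (u, v) ∈ G) :
    w u v + nu w (delR (delC G v) u) ≤ nu w G := by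
  obtain ⟨M, h1, h2, h3⟩ := exists_nu w (delR (delC G v) u)
  have hM : ∀ e ∈ M, e ∈ G ∧ e.2 ≠ v ∧ e.1 ≠ u := by
    intro e he
    have h4 := mem_delR.1 (h1 he)
    have h5 := mem_delC.1 h4.1
    exact ⟨h5.1, h5.2, h4.2⟩
  have hnot : (u, v) ∉ M := fun h' => (hM _ h').2.2 rfl
  have hw : wsum w (insert (u, v) M) = w u v + wsum w M := by
    unfold wsum
    rw [sum_insert hnot]
  rw [← h3, ← hw]
  refine nu_ge w ?_ ?_
  · intro e he e' he' heq
    rw [mem_insert] at he he'
    rcases he with rfl | he <;> rcases he' with rfl | he'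
    · rfl
    · exfalso
      rcases heq with heq | heq
      · exact (hM _ he').2.2 heq.symm
      · exact (hM _ he').2.1 heq.symm
    · exfalso
      rcases heq with heq | heq
      · exact (hM _ he).2.2 heq
      · exact (hM _ he).2.1 heq
    · exact h2 e he e' he' heq
  · intro e he
    rw [mem_insert] at he
    rcases he with rfl | he
    · exact h
    · exact (hM e he).1

/-- Removing an edge. -/
theorem wsum_le (w : U → V → ℝ) {G M : Finset (U × V)} (hMG : M ⊆ G) (hM : IsMat M) {u : U} {v : V}
    (h : (u, v) ∈ M) : wsum w M ≤ w u v + nu w (delR (delC G v) u) := by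
  have h1 : wsum w M = w u v + wsum w (M.erase (u, v)) := by
    unfold wsum
    rw [← add_sum_erase M _ h]
  rw [h1]
  have h2 : wsum w (M.erase (u, v)) ≤ nu w (delR (delC G v) u) := by
    refine nu_ge w ?_ ?_
    · intro e he e' he' heq
      exact hM e (mem_of_mem_erase he) e' (mem_of_mem_erase he') heq
    · intro e he
      rw [mem_erase] at he
      rw [mem_delR, mem_delC]
      refine ⟨⟨hMG he.2, fun h' => he.1 ?_⟩, fun h' => he.1 ?_⟩
      · exact hM e he.2 (u, v) h (Or.inr h')
      · exact hM e he.2 (u, v) h (Or.inl h')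
  linarith

omit [DecidableEq V] in
theorem nu_le_of_row (w : U → V → ℝ) {G M : Finset (U × V)} (hMG : M ⊆ G) (hM : IsMat M) {u : U}
    (h : ∀ v, (u, v) ∉ M) : wsum w M ≤ nu w (delR G u) := by
  refine nu_ge w hM fun e he => ?_
  rw [mem_delR]
  refine ⟨hMG he, ?_⟩
  rintro rfl
  exact h e.2 he

omit [DecidableEq U] in
theorem nu_le_of_col (w : U → V → ℝ) {G M : Finset (U × V)} (hMG : M ⊆ G) (hM : IsMat M) {v : V}
    (h : ∀ u, (u, v) ∉ M) : wsum w M ≤ nu w (delC G v) := by
  refine nu_ge w hM fun e he => ?_
  rw [mem_delC]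
  refine ⟨hMG he, ?_⟩
  rintro rfl
  exact h e.1 he

variable [Fintype V]

theorem mem_nbr {G : Finset (U × V)} {u : U} {v : V} : v ∈ nbr G u ↔ (u, v) ∈ G := by
  simp [nbr]

theorem pmax_le {T : V → ℝ} {S : Finset V} {c : ℝ} (h0 : 0 ≤ c) (h : ∀ v ∈ S, T v ≤ c) :
    pmax T S ≤ c := by
  unfold pmax
  exact (Finset.fold_max_le c).2 ⟨h0, h⟩

theorem pmax_nonneg (T : V → ℝ) (S : Finset V) : 0 ≤ pmax T S := by
  unfold pmax
  exact (Finset.le_fold_max 0).2 (Or.inl (le_refl _))

theorem le_pmax {T : V → ℝ} {S : Finset V} {v : V} (h : v ∈ S) : T v ≤ pmax T S := by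
  unfold pmax
  exact (Finset.le_fold_max (T v)).2 (Or.inr ⟨v, h, le_refl _⟩)

end

end Pool.Agent.H70.CG.INS

namespace Pool.Agent.H70.CG.INS

open Finset Pool.Agent.H70.CG

theorem ins : S_INS := by
  intro U V _ _ _ w G u
  apply le_antisymm
  · obtain ⟨M, h1, h2, h3⟩ := exists_nu w G
    by_cases h : ∃ v, (u, v) ∈ M
    · obtain ⟨v, hv⟩ := h
      have h4 := wsum_le w h1 h2 hv
      rw [h3, delR_delC] at h4
      have h5 : mu w G u ≤ (fun v => w u v - pi' w (delR G u) v) v := by
        show nu w G - nu w (delR G u) ≤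
          w u v - (nu w (delR G u) - nu w (delC (delR G u) v))
        linarith
      exact h5.trans (le_pmax (T := fun v => w u v - pi' w (delR G u) v)
        (mem_nbr.2 (h1 hv)))
    · push Not at h
      have h4 := nu_le_of_row w h1 h2 h
      rw [h3] at h4
      refine le_trans ?_ (pmax_nonneg _ _)
      unfold mu
      linarith
  · refine pmax_le ?_ ?_
    · unfold mu
      have := nu_mono w (delR_sub G u)
      linarith
    · intro v hv
      have h4 := nu_add w (mem_nbr.1 hv)
      rw [delR_delC] at h4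
      show w u v - (nu w (delR G u) - nu w (delC (delR G u) v)) ≤
        nu w G - nu w (delR G u)
      linarith

theorem ins2 : S_INS2 := by
  intro U V _ _ _ w G u v
  rw [ins U V w (delC G v) u, delR_delC]
  have h1 : nbr (delC G v) u = (nbr G u).erase v := by
    ext x
    rw [mem_nbr, mem_delC, mem_erase, mem_nbr]
    exact and_comm
  rw [h1]
  congr 1
  funext v'
  unfold pi' sg
  ring

theorem dec : S_DEC := by
  intro U V _ _ _ _ w G
  obtain ⟨M, h1, h2, h3⟩ := exists_nu w G
  have hedge : ∀ e ∈ M, nu w G = w e.1 e.2 + nu w (delR (delC G e.2) e.1) := by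
    intro e he
    apply le_antisymm
    · have h4 := wsum_le w h1 h2 (u := e.1) (v := e.2) he
      rwa [h3] at h4
    · exact nu_add w (u := e.1) (v := e.2) (h1 he)
  have hmu : ∑ u, mu w G u = ∑ e ∈ M, mu w G e.1 := by
    rw [← sum_fiberwise M (fun e => e.1) (fun e => mu w G e.1)]
    refine sum_congr rfl fun u _ => ?_
    by_cases h : ∃ v, (u, v) ∈ M
    · obtain ⟨v, hv⟩ := h
      have h4 : M.filter (fun e => e.1 = u) = {(u, v)} := by
        ext e
        rw [mem_filter, mem_singleton]
        constructor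
        · rintro ⟨h5, h6⟩
          exact h2 e h5 (u, v) hv (Or.inl h6)
        · rintro rfl
          exact ⟨hv, rfl⟩
      rw [h4, sum_singleton]
    · push Not at h
      have h4 : M.filter (fun e => e.1 = u) = ∅ := by
        rw [filter_eq_empty_iff]
        intro e he h5
        exact h e.2 (h5 ▸ he)
      rw [h4, sum_empty]
      have h5 := nu_le_of_row w h1 h2 h
      rw [h3] at h5
      have h6 := nu_mono w (delR_sub G u)
      unfold mu
      linarith
  have hpi : ∑ v, pi' w G v = ∑ e ∈ M, pi' w G e.2 := by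
    rw [← sum_fiberwise M (fun e => e.2) (fun e => pi' w G e.2)]
    refine sum_congr rfl fun v _ => ?_
    by_cases h : ∃ u, (u, v) ∈ M
    · obtain ⟨u, hu⟩ := h
      have h4 : M.filter (fun e => e.2 = v) = {(u, v)} := by
        ext e
        rw [mem_filter, mem_singleton]
        constructor
        · rintro ⟨h5, h6⟩
          exact h2 e h5 (u, v) hu (Or.inr h6)
        · rintro rfl
          exact ⟨hu, rfl⟩
      rw [h4, sum_singleton]
    · push Not at h
      have h4 : M.filter (fun e => e.2 = v) = ∅ := by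
        rw [filter_eq_empty_iff]
        intro e he h5
        exact h e.1 (h5 ▸ he)
      rw [h4, sum_empty]
      have h5 := nu_le_of_col w h1 h2 h
      rw [h3] at h5
      have h6 := nu_mono w (delC_sub G v)
      unfold pi'
      linarith
  refine ⟨fun u => ∑ e ∈ M.filter (fun e => e.1 = u), (mu w G e.1 - mu w (delC G e.2) e.1),
    ?_, ?_⟩
  · rw [sum_fiberwise M (fun e => e.1) (fun e => mu w G e.1 - mu w (delC G e.2) e.1)]
    unfold XG
    rw [hmu, hpi, ← h3]
    unfold wsum
    rw [← sum_add_distrib, ← sum_sub_distrib]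
    refine sum_congr rfl fun e he => ?_
    have h4 := hedge e he
    unfold mu pi'
    linarith
  · intro u
    by_cases h : ∃ v, (u, v) ∈ M
    · obtain ⟨v, hv⟩ := h
      have h4 : M.filter (fun e => e.1 = u) = {(u, v)} := by
        ext e
        rw [mem_filter, mem_singleton]
        constructor
        · rintro ⟨h5, h6⟩
          exact h2 e h5 (u, v) hv (Or.inl h6)
        · rintro rfl
          exact ⟨hv, rfl⟩
      refine Or.inr ⟨v, h1 hv, ?_, ?_⟩
      · have h5 := hedge (u, v) hv
        rw [delR_delC] at h5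
        show nu w G - nu w (delR G u) = w u v - (nu w (delR G u) - nu w (delC (delR G u) v))
        have h6 : nu w G = w u v + nu w (delC (delR G u) v) := h5
        linarith
      · dsimp only
        rw [h4, sum_singleton]
    · left
      push Not at h
      have h4 : M.filter (fun e => e.1 = u) = ∅ := by
        rw [filter_eq_empty_iff]
        intro e he h5
        exact h e.2 (h5 ▸ he)
      dsimp only
      rw [h4, sum_empty]

end Pool.Agent.H70.CG.INS
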