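import Pool.Agent.H70.CG.Stm

/-!
Resampling of a row, monotonicity, transposition.
-/

set_option autoImplicit false

namespace Pool.Agent.H70.CG.RES

open Finset Pool.Agent.H70.CG

section gen
variable {E : Type} [Fintype E] [DecidableEq E]

theorem wt_eq (q : E → ℝ) (S : Finset E) : wt q S = ∏ e, if e ∈ S then q e else 1 - q e := by
  unfold wt
  rw [prod_ite]
  congr 1
  · refine prod_congr ?_ fun _ _ => rfl
    ext e; simp
  · refine prod_congr ?_ fun _ _ => rfl
    ext e; simp

theorem wt_sum (q : E → ℝ) : ∑ S : Finset E, wt q S = 1 := by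
  have h := prod_add (fun e : E => q e) (fun e => 1 - q e) univ
  have h1 : ∏ e : E, (q e + (1 - q e)) = 1 := by
    exact prod_eq_one fun e _ => by ring
  rw [h1] at h
  rw [h]
  have h2 : (univ : Finset E).powerset = (univ : Finset (Finset E)) := powerset_univ
  rw [h2]
  refine sum_congr rfl fun S _ => ?_
  unfold wt
  rw [compl_eq_univ_sdiff]

/-- The weight without the coordinate `e0`. -/
noncomputable def W0 (q : E → ℝ) (e0 : E) (S : Finset E) : ℝ :=
  ∏ e ∈ univ.erase e0, if e ∈ S then q e else 1 - q e

theorem wt_out (q : E → ℝ) {e0 : E} {S : Finset E} (h : e0 ∉ S) :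
    wt q S = (1 - q e0) * W0 q e0 S := by
  rw [wt_eq, ← mul_prod_erase univ _ (mem_univ e0), if_neg h]
  rfl

theorem wt_in (q : E → ℝ) {e0 : E} {S : Finset E} (h : e0 ∉ S) :
    wt q (insert e0 S) = q e0 * W0 q e0 S := by
  rw [wt_eq, ← mul_prod_erase univ _ (mem_univ e0), if_pos (mem_insert_self _ _)]
  congr 1
  refine prod_congr rfl fun e he => ?_
  have hne := (mem_erase.1 he).1
  have hiff : e ∈ insert e0 S ↔ e ∈ S := by
    rw [mem_insert]
    exact ⟨fun h' => h'.resolve_left hne, Or.inr⟩
  exact if_congr hiff rfl rfl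

theorem sum_split (e0 : E) (g : Finset E → ℝ) :
    ∑ S : Finset E, g S = ∑ S ∈ univ.filter (fun S : Finset E => e0 ∉ S), (g S + g (insert e0 S)) := by
  rw [sum_add_distrib, ← sum_filter_add_sum_filter_not univ (fun S : Finset E => e0 ∉ S)]
  congr 1
  refine sum_bij' (fun S _ => S.erase e0) (fun S _ => insert e0 S) ?_ ?_ ?_ ?_ ?_
  · intro S _
    simp
  · intro S _
    simp
  · intro S hS
    simp only [mem_filter, mem_univ, true_and, not_not] at hS
    exact insert_erase hS
  · intro S hS
    simp only [mem_filter, mem_univ, true_and] at hS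
    exact erase_insert hS
  · intro S hS
    simp only [mem_filter, mem_univ, true_and, not_not] at hS
    rw [insert_erase hS]

theorem ex_affine (q : E → ℝ) (e0 : E) (f : Finset E → ℝ) :
    ex q f = ∑ S ∈ univ.filter (fun S : Finset E => e0 ∉ S),
      W0 q e0 S * (f S + q e0 * (f (insert e0 S) - f S)) := by
  unfold ex
  rw [sum_split e0]
  refine sum_congr rfl fun S hS => ?_
  simp only [mem_filter, mem_univ, true_and] at hS
  rw [wt_out q hS, wt_in q hS]
  ring

theorem W0_nonneg {q : E → ℝ} (h0 : ∀ e, 0 ≤ q e) (h1 : ∀ e, q e ≤ 1) (e0 : E) (S : Finset E) :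
    0 ≤ W0 q e0 S := by
  unfold W0
  refine prod_nonneg fun e _ => ?_
  split_ifs
  · exact h0 e
  · linarith [h1 e]

theorem mono_one {q q' : E → ℝ} (f : Finset E → ℝ) (h0 : ∀ e, 0 ≤ q e) (h1 : ∀ e, q e ≤ 1)
    (hf : ∀ S S' : Finset E, S ⊆ S' → f S ≤ f S') (e0 : E) (he0 : q e0 ≤ q' e0)
    (hne : ∀ e, e ≠ e0 → q' e = q e) : ex q f ≤ ex q' f := by
  rw [ex_affine q e0, ex_affine q' e0]
  refine sum_le_sum fun S _ => ?_
  have hW : W0 q' e0 S = W0 q e0 S := by
    unfold W0
    refine prod_congr rfl fun e he => ?_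
    rw [hne e (mem_erase.1 he).1]
  rw [hW]
  refine mul_le_mul_of_nonneg_left ?_ (W0_nonneg h0 h1 e0 S)
  have h2 : 0 ≤ f (insert e0 S) - f S := by
    have := hf S (insert e0 S) (subset_insert _ _)
    linarith
  have := mul_le_mul_of_nonneg_right he0 h2
  linarith

end gen

theorem mono : S_MONO := by
  intro E _ _ q q' f h0 hq h1 hf
  have key : ∀ D : Finset E, ex q f ≤ ex (fun e => if e ∈ D then q' e else q e) f := by
    intro D
    induction D using Finset.induction_on with
    | empty => simp
    | insert a D ha ih =>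
      refine ih.trans (mono_one f ?_ ?_ hf a ?_ ?_)
      · intro e
        split_ifs
        · exact (h0 e).trans (hq e)
        · exact h0 e
      · intro e
        split_ifs
        · exact h1 e
        · exact (hq e).trans (h1 e)
      · rw [if_neg ha, if_pos (mem_insert_self _ _)]
        exact hq a
      · intro e he
        have hiff : e ∈ insert a D ↔ e ∈ D := by
          rw [mem_insert]
          exact ⟨fun h' => h'.resolve_left he, Or.inr⟩
        exact if_congr hiff rfl rfl
  have h := key univ
  have h2 : (fun e => if e ∈ (univ : Finset E) then q' e else q e) = q' := by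
    funext e
    rw [if_pos (mem_univ e)]
  rwa [h2] at h

section row
variable {U V : Type} [Fintype U] [Fintype V] [DecidableEq U] [DecidableEq V]

omit [Fintype U] [Fintype V] in
theorem mem_insR {G : Finset (U × V)} {u : U} {S : Finset V} {e : U × V} :
    e ∈ insR G u S ↔ (e ∈ G ∧ e.1 ≠ u) ∨ (e.1 = u ∧ e.2 ∈ S) := by
  unfold insR delR
  rw [mem_union, mem_filter, mem_image]
  constructor
  · rintro (h | ⟨v, hv, rfl⟩)
    · exact Or.inl h
    · exact Or.inr ⟨rfl, hv⟩
  · rintro (h | ⟨h1, h2⟩)
    · exact Or.inl h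
    · exact Or.inr ⟨e.2, h2, by rw [← h1]⟩

omit [Fintype U] [Fintype V] in
theorem insR_insR (G : Finset (U × V)) (u : U) (S S' : Finset V) :
    insR (insR G u S') u S = insR G u S := by
  ext e
  rw [mem_insR, mem_insR, mem_insR]
  tauto

/-- The weight of the rows different from `u`. -/
noncomputable def WR (q : U × V → ℝ) (u : U) (G : Finset (U × V)) : ℝ :=
  ∏ a ∈ univ.erase u, ∏ b, if (a, b) ∈ G then q (a, b) else 1 - q (a, b)

theorem wt_insR (q : U × V → ℝ) (u : U) (G : Finset (U × V)) (S : Finset V) :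
    wt q (insR G u S) = WR q u G * wt (fun v => q (u, v)) S := by
  rw [wt_eq, wt_eq, Fintype.prod_prod_type, ← mul_prod_erase univ _ (mem_univ u), mul_comm]
  congr 1
  · unfold WR
    refine prod_congr rfl fun a ha => prod_congr rfl fun b _ => ?_
    have hne := (mem_erase.1 ha).1
    have hiff : (a, b) ∈ insR G u S ↔ (a, b) ∈ G := by
      rw [mem_insR]
      constructor
      · rintro (h | h)
        · exact h.1
        · exact absurd h.1 hne
      · intro h
        exact Or.inl ⟨h, hne⟩
    exact if_congr hiff rfl rfl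
  · refine prod_congr rfl fun b _ => ?_
    have hiff : (u, b) ∈ insR G u S ↔ b ∈ S := by
      rw [mem_insR]
      constructor
      · rintro (h | h)
        · exact absurd rfl h.2
        · exact h.2
      · intro h
        exact Or.inr ⟨rfl, h⟩
    exact if_congr hiff rfl rfl

theorem sum_rows (u : U) (g : Finset (U × V) → ℝ) :
    ∑ G : Finset (U × V), g G =
      ∑ H ∈ univ.filter (fun H : Finset (U × V) => ∀ e ∈ H, e.1 ≠ u), ∑ S : Finset V,
        g (insR H u S) := by
  rw [← sum_product' (univ.filter (fun H : Finset (U × V) => ∀ e ∈ H, e.1 ≠ u)) univ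
    (fun H S => g (insR H u S))]
  symm
  refine sum_bij' (fun p _ => insR p.1 u p.2) (fun G _ => (delR G u, nbr G u)) ?_ ?_ ?_ ?_ ?_
  · intro p _
    exact mem_univ _
  · intro G _
    rw [mem_product]
    refine ⟨?_, mem_univ _⟩
    rw [mem_filter]
    refine ⟨mem_univ _, fun e he => ?_⟩
    exact (mem_filter.1 he).2
  · rintro ⟨H, S⟩ hp
    rw [mem_product, mem_filter] at hp
    have hH := hp.1.2
    refine Prod.ext ?_ ?_
    · ext e
      show e ∈ delR (insR H u S) u ↔ e ∈ H
      unfold delR
      rw [mem_filter, mem_insR]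
      constructor
      · rintro ⟨h | h, h'⟩
        · exact h.1
        · exact absurd h.1 h'
      · intro h
        exact ⟨Or.inl ⟨h, hH e h⟩, hH e h⟩
    · ext v
      show v ∈ nbr (insR H u S) u ↔ v ∈ S
      unfold nbr
      rw [mem_filter, mem_insR]
      constructor
      · rintro ⟨_, h | h⟩
        · exact absurd rfl h.2
        · exact h.2
      · intro h
        exact ⟨mem_univ _, Or.inr ⟨rfl, h⟩⟩
  · intro G _
    ext e
    show e ∈ insR (delR G u) u (nbr G u) ↔ e ∈ G
    rw [mem_insR]
    unfold delR nbr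
    rw [mem_filter, mem_filter]
    constructor
    · rintro (h | ⟨h1, h2⟩)
      · exact h.1.1
      · rw [← h1] at h2
        exact h2.2
    · intro h
      by_cases h1 : e.1 = u
      · right
        refine ⟨h1, mem_univ _, ?_⟩
        rw [← h1]
        exact h
      · exact Or.inl ⟨⟨h, h1⟩, h1⟩
  · intro p _
    rfl

end row

theorem res : S_RES := by
  intro U V _ _ _ _ q u f
  unfold ex
  rw [sum_rows u, sum_rows u]
  refine sum_congr rfl fun H _ => ?_
  have h1 : ∀ S' ∈ (univ : Finset (Finset V)), wt q (insR H u S') *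
      ∑ S : Finset V, wt (fun v => q (u, v)) S * f (insR (insR H u S') u S) =
      wt (fun v => q (u, v)) S' *
        (WR q u H * ∑ S : Finset V, wt (fun v => q (u, v)) S * f (insR H u S)) := by
    intro S' _
    rw [wt_insR]
    have h2 : ∀ S ∈ (univ : Finset (Finset V)),
        wt (fun v => q (u, v)) S * f (insR (insR H u S') u S) =
        wt (fun v => q (u, v)) S * f (insR H u S) := by
      intro S _
      rw [insR_insR]
    rw [sum_congr rfl h2]
    ring
  rw [sum_congr rfl h1, ← sum_mul, wt_sum, one_mul, mul_sum]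
  refine sum_congr rfl fun S _ => ?_
  rw [wt_insR]
  ring

theorem mem_trG {U V : Type} {G : Finset (U × V)} {e : V × U} : e ∈ trG G ↔ (e.2, e.1) ∈ G := by
  unfold trG
  rw [mem_map]
  constructor
  · rintro ⟨a, ha, rfl⟩
    exact ha
  · intro h
    exact ⟨(e.2, e.1), h, rfl⟩

theorem trG_trG {U V : Type} (G : Finset (U × V)) : trG (trG G) = G := by
  ext e
  rw [mem_trG, mem_trG]

theorem nu_tr_le {U V : Type} (w : U → V → ℝ) (G : Finset (U × V)) :
    nu w G ≤ nu (fun v u => w u v) (trG G) := by
  refine nu_le w fun M h1 h2 => ?_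
  have h3 : wsum w M = wsum (fun v u => w u v) (trG M) := by
    unfold wsum trG
    rw [sum_map]
    rfl
  rw [h3]
  refine nu_ge _ ?_ ?_
  · intro e he e' he' heq
    rw [mem_trG] at he he'
    have h4 := h2 _ he _ he' (by
      rcases heq with h | h
      · exact Or.inr h
      · exact Or.inl h)
    have h5 := congrArg Prod.fst h4
    have h6 := congrArg Prod.snd h4
    exact Prod.ext h6 h5
  · intro e he
    rw [mem_trG] at he ⊢
    exact h1 he

theorem tr : S_TR := by
  intro U V _ _ _ _
  refine ⟨?_, ?_, ?_, ?_⟩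
  · intro w G
    refine le_antisymm ?_ (nu_tr_le w G)
    have h := nu_tr_le (fun v u => w u v) (trG G)
    rwa [trG_trG] at h
  · intro G v
    ext e
    unfold delR delC
    rw [mem_filter, mem_trG, mem_trG, mem_filter]
  · intro G u
    ext e
    unfold delR delC
    rw [mem_filter, mem_trG, mem_trG, mem_filter]
  · intro q f
    unfold ex
    symm
    refine sum_bij' (fun G _ => trG G) (fun G _ => trG G) (fun _ _ => mem_univ _)
      (fun _ _ => mem_univ _) (fun G _ => trG_trG G) (fun G _ => trG_trG G) ?_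
    intro G _
    congr 1
    rw [wt_eq, wt_eq, ← Equiv.prod_comp (Equiv.prodComm U V)]
    refine prod_congr rfl fun e _ => ?_
    have hiff : e ∈ G ↔ (Equiv.prodComm U V) e ∈ trG G := by
      rw [mem_trG]
      exact Iff.rfl
    exact if_congr hiff rfl rfl

end Pool.Agent.H70.CG.RES
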