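import Pool.Agent.H70.CG.Stm

/-!
# The abstract inequality for the excess of a row
-/

namespace Pool.Agent.H70.CG.ROWB

open Finset

theorem pmax_nonneg {V : Type} (T : V → ℝ) (S : Finset V) : 0 ≤ pmax T S := by
  unfold pmax
  exact (Finset.le_fold_max 0).mpr (Or.inl le_rfl)

theorem le_pmax {V : Type} (T : V → ℝ) {S : Finset V} {v : V} (h : v ∈ S) : T v ≤ pmax T S := by
  unfold pmax
  exact (Finset.le_fold_max (T v)).mpr (Or.inr ⟨v, h, le_rfl⟩)

theorem pmax_le {V : Type} (T : V → ℝ) {S : Finset V} {c : ℝ} (h0 : 0 ≤ c)
    (h : ∀ v ∈ S, T v ≤ c) : pmax T S ≤ c := by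
  unfold pmax
  exact (Finset.fold_max_le c).mpr ⟨h0, h⟩

theorem pmax_cases {V : Type} (T : V → ℝ) (S : Finset V) :
    pmax T S = 0 ∨ ∃ v ∈ S, pmax T S = T v := by
  have h := (Finset.le_fold_max (b := (0 : ℝ)) (f := T) (s := S) (pmax T S)).mp le_rfl
  rcases h with h | ⟨v, hv, h⟩
  · left
    exact le_antisymm h (pmax_nonneg T S)
  · right
    exact ⟨v, hv, le_antisymm h (le_pmax T hv)⟩

theorem wt_rel {V : Type} [Fintype V] [DecidableEq V] (q : V → ℝ) {S : Finset V} {v : V}
    (h : v ∈ S) : wt q (S.erase v) * q v = wt q S * (1 - q v) := by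
  unfold wt
  have h1 : ∏ e ∈ S, q e = q v * ∏ e ∈ S.erase v, q e := (Finset.mul_prod_erase S q h).symm
  have h2 : (S.erase v)ᶜ = insert v Sᶜ := by
    ext x
    simp only [Finset.mem_compl, Finset.mem_erase, Finset.mem_insert, not_and, ne_eq]
    tauto
  have h3 : v ∉ Sᶜ := by simp [h]
  rw [h1, h2, Finset.prod_insert h3]
  ring

theorem wt_nonneg {V : Type} [Fintype V] [DecidableEq V] (q : V → ℝ) (h0 : ∀ v, 0 ≤ q v)
    (h1 : ∀ v, q v ≤ 1) (S : Finset V) : 0 ≤ wt q S := by
  unfold wt
  refine mul_nonneg (Finset.prod_nonneg fun v _ => h0 v) (Finset.prod_nonneg fun v _ => ?_)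
  have := h1 v
  linarith

/-- Pairing of the sets with and without `v`. -/
theorem sum_pair {V : Type} [Fintype V] [DecidableEq V] (F : Finset V → ℝ) (v : V) :
    ∑ S : Finset V, F S = ∑ S : Finset V, if v ∈ S then F (S.erase v) + F S else 0 := by
  rw [← Finset.sum_filter_add_sum_filter_not Finset.univ (fun S : Finset V => v ∈ S) F]
  rw [← Finset.sum_filter, Finset.sum_add_distrib, add_comm]
  congr 1
  refine Finset.sum_bij' (fun S _ => insert v S) (fun S _ => S.erase v) ?_ ?_ ?_ ?_ ?_
  · intro S hS
    simp
  · intro S hS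
    simp
  · intro S hS
    have : v ∉ S := by simpa using hS
    exact Finset.erase_insert this
  · intro S hS
    have : v ∈ S := by simpa using hS
    exact Finset.insert_erase this
  · intro S hS
    have : v ∉ S := by simpa using hS
    rw [Finset.erase_insert this]

/-- `2 (1 - e^(-a)) ≤ a (1 + e^(-a))`. -/
theorem exp_ineq (a : ℝ) (ha : 0 ≤ a) :
    2 * (1 - Real.exp (-a)) ≤ a * (1 + Real.exp (-a)) := by
  have hmono : MonotoneOn (fun x : ℝ => x * (1 + Real.exp (-x)) - 2 * (1 - Real.exp (-x)))
      (Set.Ici 0) := by
    have hd : ∀ x : ℝ, HasDerivAt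
        (fun x : ℝ => x * (1 + Real.exp (-x)) - 2 * (1 - Real.exp (-x)))
        (1 - (1 + x) * Real.exp (-x)) x := by
      intro x
      have h1 : HasDerivAt (fun x : ℝ => Real.exp (-x)) (-Real.exp (-x)) x := by
        have := (hasDerivAt_neg x).exp
        simpa using this
      have h2 := (((hasDerivAt_id x).mul (h1.const_add 1)).sub ((h1.const_sub 1).const_mul 2))
      refine h2.congr_deriv ?_
      simp
      ring
    refine monotoneOn_of_deriv_nonneg (convex_Ici 0) ?_ ?_ ?_
    · exact fun x _ => (hd x).continuousAt.continuousWithinAt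
    · exact fun x _ => (hd x).differentiableAt.differentiableWithinAt
    · intro x hx
      rw [(hd x).deriv]
      have h3 : x + 1 ≤ Real.exp x := Real.add_one_le_exp x
      have h4 : Real.exp x * Real.exp (-x) = 1 := by rw [← Real.exp_add]; simp
      have h5 := Real.exp_pos (-x)
      nlinarith
  have := hmono (Set.mem_Ici.mpr le_rfl) (Set.mem_Ici.mpr ha) ha
  simp at this
  linarith

/-- The weights: `a P' + a P / 2 ≥ P`. -/
theorem wt_ineq {a P P' : ℝ} (ha : 0 ≤ a) (hP : 0 ≤ P)
    (h : P' * (1 - Real.exp (-a)) = P * Real.exp (-a)) : P ≤ a * P' + a * P / 2 := by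
  rcases ha.eq_or_lt with ha0 | ha0
  · rw [← ha0] at h
    simp at h
    rw [← ha0, ← h]
    simp
  · have hE : Real.exp (-a) < 1 := by
      rw [Real.exp_lt_one_iff]
      linarith
    have h1 := exp_ineq a ha
    have h2 : 0 < 1 - Real.exp (-a) := by linarith
    have h3 : 0 ≤ (a * P' + a * P / 2 - P) * (1 - Real.exp (-a)) := by
      have : (a * P' + a * P / 2 - P) * (1 - Real.exp (-a)) =
          P * ((a * (1 + Real.exp (-a)) - 2 * (1 - Real.exp (-a))) / 2) := by
        have h4 : a * (P' * (1 - Real.exp (-a))) = a * (P * Real.exp (-a)) := by rw [h]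
        linear_combination h4
      rw [this]
      exact mul_nonneg hP (by linarith)
    have h5 := nonneg_of_mul_nonneg_left h3 h2
    linarith

theorem rowB : S_ROWB := by
  intro V _ _ T s a xi ha hsym hs hm hxi
  set q : V → ℝ := fun v => 1 - Real.exp (-(a v)) with hq
  set g : V → Finset V → ℝ := fun v S => max (T v - pmax T S) 0 + (max (T v) 0 -
        max (T v - (pmax T S - pmax (fun v' => T v' - s v v') (S.erase v))) 0) / 2 with hg
  have hq0 : ∀ v, 0 ≤ q v := by
    intro v
    have : Real.exp (-(a v)) ≤ 1 := by
      rw [Real.exp_le_one_iff]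
      have := ha v
      linarith
    simp only [hq]
    linarith
  have hq1 : ∀ v, q v ≤ 1 := by
    intro v
    have := Real.exp_pos (-(a v))
    simp only [hq]
    linarith
  have hP : ∀ S, 0 ≤ wt q S := wt_nonneg q hq0 hq1
  -- `m' ≤ m`
  have hm' : ∀ v (S : Finset V), pmax (fun v' => T v' - s v v') (S.erase v) ≤
      pmax T (S.erase v) := by
    intro v S
    refine pmax_le _ (pmax_nonneg _ _) ?_
    intro v' hv'
    have h1 := le_pmax T hv'
    have h2 := hs v v' (Finset.ne_of_mem_erase hv').symm
    linarith
  have hmon : ∀ v (S : Finset V), pmax T (S.erase v) ≤ pmax T S := by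
    intro v S
    refine pmax_le _ (pmax_nonneg _ _) ?_
    intro v' hv'
    exact le_pmax T (Finset.mem_of_mem_erase hv')
  have hg0 : ∀ v S, 0 ≤ g v S := by
    intro v S
    have h1 : 0 ≤ max (T v - pmax T S) 0 := le_max_right _ _
    have h2 : max (T v - (pmax T S - pmax (fun v' => T v' - s v v') (S.erase v))) 0 ≤
        max (T v) 0 := by
      refine max_le_max ?_ le_rfl
      have := hm' v S
      have := hmon v S
      linarith
    simp only [hg]
    linarith
  have hwi : ∀ (S : Finset V) v, v ∈ S →
      wt q S ≤ a v * wt q (S.erase v) + a v * wt q S / 2 := by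
    intro S v hv
    refine wt_ineq (ha v) (hP S) ?_
    have := wt_rel q hv
    simp only [hq] at this ⊢
    linarith
  -- the inequality for one set
  have key : ∀ S : Finset V, wt q S * xi S ≤
      ∑ v ∈ S, a v * (wt q (S.erase v) * g v (S.erase v) + wt q S * g v S) := by
    intro S
    have hterm0 : ∀ v ∈ S, 0 ≤ a v * (wt q (S.erase v) * g v (S.erase v) + wt q S * g v S) := by
      intro v _
      exact mul_nonneg (ha v) (add_nonneg (mul_nonneg (hP _) (hg0 _ _))
        (mul_nonneg (hP _) (hg0 _ _)))
    rcases hxi S with h0 | ⟨v1, hv1, hT1, hx1⟩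
    · rw [h0, mul_zero]
      exact Finset.sum_nonneg hterm0
    · set t := pmax T (S.erase v1) with ht
      set m1 := pmax (fun v' => T v' - s v1 v') (S.erase v1) with hm1
      have ht0 : 0 ≤ t := pmax_nonneg _ _
      have hm10 : 0 ≤ m1 := pmax_nonneg _ _
      have hm1t : m1 ≤ t := hm' v1 S
      have htT : t ≤ T v1 := by rw [← hT1]; exact hmon v1 S
      have hT10 : 0 ≤ T v1 := le_trans ht0 htT
      -- values of `g` at `v1`
      have e1 : g v1 (S.erase v1) = (T v1 - t) + (t - m1) / 2 := by
        simp only [hg]
        rw [Finset.erase_idem, ← ht, ← hm1, max_eq_left (by linarith : (0 : ℝ) ≤ T v1 - t),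
          max_eq_left hT10, max_eq_left (by linarith : (0 : ℝ) ≤ T v1 - (t - m1))]
        ring
      have e2 : g v1 S = ((T v1 - t) + (t - m1)) / 2 := by
        simp only [hg]
        rw [← hm1, hT1, sub_self, max_self, max_eq_left hT10,
          max_eq_left (by linarith : (0 : ℝ) ≤ T v1 - (T v1 - m1))]
        ring
      have w1 := hwi S v1 hv1
      have hP1 := hP S
      have term1 : wt q S * (T v1 - t) + wt q S * ((t - m1) / 2) ≤
          a v1 * (wt q (S.erase v1) * g v1 (S.erase v1) + wt q S * g v1 S) := by
        rw [e1, e2]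
        have h1 : 0 ≤ (a v1 * wt q (S.erase v1) + a v1 * wt q S / 2 - wt q S) * (T v1 - t) :=
          mul_nonneg (by linarith) (by linarith)
        have h2 : 0 ≤ (a v1 * wt q (S.erase v1) + a v1 * wt q S / 2 - wt q S) * ((t - m1) / 2) :=
          mul_nonneg (by linarith) (by linarith)
        have h3 : 0 ≤ (a v1 * wt q S / 2) * ((t - m1) / 2) :=
          mul_nonneg (by have := mul_nonneg (ha v1) hP1; linarith) (by linarith)
        nlinarith
      have hxi' : wt q S * xi S = wt q S * (T v1 - t) + wt q S * ((t - m1) / 2) +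
          wt q S * ((t - m1) / 2) := by
        rw [hx1, hT1]
        ring
      rw [hxi']
      rcases pmax_cases T (S.erase v1) with hz | ⟨v2, hv2, hT2⟩
      · -- `t = 0`
        rw [← ht] at hz
        have hx0 : t - m1 = 0 := by linarith
        have h1 := Finset.single_le_sum hterm0 hv1
        rw [hx0] at term1 ⊢
        linarith
      · rw [← ht] at hT2
        by_cases htz : t = 0
        · have hx0 : t - m1 = 0 := by linarith
          have h1 := Finset.single_le_sum hterm0 hv1
          rw [hx0] at term1 ⊢
          linarith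
        have htp : 0 < t := lt_of_le_of_ne ht0 (Ne.symm htz)
        have hne : v2 ≠ v1 := Finset.ne_of_mem_erase hv2
        have hv2S : v2 ∈ S := Finset.mem_of_mem_erase hv2
        set m2 := pmax (fun v' => T v' - s v2 v') (S.erase v2) with hm2
        have hM2 : pmax T (S.erase v2) = T v1 := by
          refine le_antisymm ?_ (le_pmax T (Finset.mem_erase.mpr ⟨hne.symm, hv1⟩))
          rw [← hT1]
          exact hmon v2 S
        have hm2le : m2 ≤ T v1 := by
          rw [← hM2]
          exact hm' v2 S
        -- `x ≤ y`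
        have hxs : t - m1 ≤ s v1 v2 := by
          have := le_pmax (fun v' => T v' - s v1 v') hv2
          rw [← hm1] at this
          linarith
        have hxy : t - m1 ≤ T v1 - m2 := by
          rcases pmax_cases (fun v' => T v' - s v2 v') (S.erase v2) with hz | ⟨v3, hv3, hT3⟩
          · rw [← hm2] at hz
            linarith
          · rw [← hm2] at hT3
            by_cases h31 : v3 = v1
            · rw [h31, hsym v2 v1] at hT3
              linarith
            · have h32 : v3 ≠ v2 := Finset.ne_of_mem_erase hv3
              have hv3S : v3 ∈ S := Finset.mem_of_mem_erase hv3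
              have h33 : v3 ∈ S.erase v1 := Finset.mem_erase.mpr ⟨h31, hv3S⟩
              have h4 := le_pmax (fun v' => T v' - s v1 v') h33
              rw [← hm1] at h4
              have h5 : T v3 ≤ T v1 := by
                rw [← hT1]
                exact le_pmax T hv3S
              have h6 := hm v2 v3 v1 h32.symm hne h31
              rw [hsym v2 v1, hsym v3 v1] at h6
              rcases min_le_iff.mp h6 with h7 | h7
              · linarith
              · linarith
        -- the value of `g` at `v2`
        have hmin : ∀ y : ℝ, 0 ≤ y → t - m1 ≤ y →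
            (t - m1) / 2 ≤ (max (T v2) 0 - max (T v2 - y) 0) / 2 := by
          intro y hy hxy
          rw [← hT2, max_eq_left ht0]
          have : max (t - y) 0 ≤ m1 := max_le (by linarith) hm10
          linarith
        have e3 : (t - m1) / 2 ≤ g v2 (S.erase v2) := by
          simp only [hg]
          rw [Finset.erase_idem, ← hm2, hM2]
          have h1 : 0 ≤ max (T v2 - T v1) 0 := le_max_right _ _
          have h2 := hmin (T v1 - m2) (by linarith) hxy
          linarith
        have e4 : (t - m1) / 2 ≤ g v2 S := by
          simp only [hg]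
          rw [← hm2, hT1]
          have h1 : 0 ≤ max (T v2 - T v1) 0 := le_max_right _ _
          have h2 := hmin (T v1 - m2) (by linarith) hxy
          linarith
        have w2 := hwi S v2 hv2S
        have term2 : wt q S * ((t - m1) / 2) ≤
            a v2 * (wt q (S.erase v2) * g v2 (S.erase v2) + wt q S * g v2 S) := by
          have h1 : a v2 * (wt q (S.erase v2) * ((t - m1) / 2) + wt q S * ((t - m1) / 2)) ≤
              a v2 * (wt q (S.erase v2) * g v2 (S.erase v2) + wt q S * g v2 S) :=
            mul_le_mul_of_nonneg_left (add_le_add (mul_le_mul_of_nonneg_left e3 (hP _))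
              (mul_le_mul_of_nonneg_left e4 (hP _))) (ha v2)
          refine le_trans ?_ h1
          have h2 : 0 ≤ (a v2 * wt q (S.erase v2) + a v2 * wt q S / 2 - wt q S) *
              ((t - m1) / 2) := mul_nonneg (by linarith) (by linarith)
          have h3 : 0 ≤ (a v2 * wt q S / 2) * ((t - m1) / 2) :=
            mul_nonneg (by have := mul_nonneg (ha v2) hP1; linarith) (by linarith)
          nlinarith
        have hsum : a v1 * (wt q (S.erase v1) * g v1 (S.erase v1) + wt q S * g v1 S) +
            a v2 * (wt q (S.erase v2) * g v2 (S.erase v2) + wt q S * g v2 S) ≤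
            ∑ v ∈ S, a v * (wt q (S.erase v) * g v (S.erase v) + wt q S * g v S) := by
          have h1 : ({v1, v2} : Finset V) ⊆ S := by
            intro x hx
            rcases Finset.mem_insert.mp hx with h | h
            · rw [h]; exact hv1
            · rw [Finset.mem_singleton.mp h]; exact hv2S
          have h2 := Finset.sum_le_sum_of_subset_of_nonneg h1 (fun v hv _ => hterm0 v hv)
          rw [Finset.sum_pair hne.symm] at h2
          exact h2
        linarith
  -- summation
  have hR : ex q (fun S => ∑ v, a v * g v S) =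
      ∑ S : Finset V, ∑ v ∈ S, a v * (wt q (S.erase v) * g v (S.erase v) + wt q S * g v S) := by
    unfold ex
    have h1 : ∀ S : Finset V, wt q S * ∑ v, a v * g v S = ∑ v, a v * (wt q S * g v S) := by
      intro S
      rw [Finset.mul_sum]
      exact Finset.sum_congr rfl fun v _ => by ring
    rw [Finset.sum_congr rfl fun S _ => h1 S, Finset.sum_comm]
    have h2 : ∀ v : V, ∑ S : Finset V, a v * (wt q S * g v S) =
        ∑ S : Finset V, if v ∈ S then
          a v * (wt q (S.erase v) * g v (S.erase v) + wt q S * g v S) else 0 := by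
      intro v
      rw [sum_pair (fun S => a v * (wt q S * g v S)) v]
      refine Finset.sum_congr rfl fun S _ => ?_
      split_ifs
      · ring
      · rfl
    rw [Finset.sum_congr rfl fun v _ => h2 v, Finset.sum_comm]
    refine Finset.sum_congr rfl fun S _ => ?_
    rw [← Finset.sum_filter]
    refine Finset.sum_congr ?_ fun _ _ => rfl
    ext v
    simp
  rw [hR]
  unfold ex
  exact Finset.sum_le_sum fun S _ => key S

end Pool.Agent.H70.CG.ROWB
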