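import Pool.Agent.H70.CG.Stm

/-!
# The layer cake inequality for one row
-/

namespace Pool.Agent.H70.CG.ROWR

open Finset MeasureTheory
open Pool.Agent.H70.CG

/-- the indicator of `t < x` -/
noncomputable def I (x t : ℝ) : ℝ := if t < x then 1 else 0

/-- the number `X` is the integral of `F` over `[0, B]` -/
structure Rep (B : ℝ) (F : ℝ → ℝ) (X : ℝ) : Prop where
  ii : IntervalIntegrable F volume 0 B
  eq : ∫ t in (0 : ℝ)..B, F t = X

theorem Rep.add {B : ℝ} {F G : ℝ → ℝ} {X Y : ℝ} (h : Rep B F X) (h' : Rep B G Y) :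
    Rep B (fun t => F t + G t) (X + Y) :=
  ⟨h.ii.add h'.ii, by rw [intervalIntegral.integral_add h.ii h'.ii, h.eq, h'.eq]⟩

theorem Rep.sub {B : ℝ} {F G : ℝ → ℝ} {X Y : ℝ} (h : Rep B F X) (h' : Rep B G Y) :
    Rep B (fun t => F t - G t) (X - Y) :=
  ⟨h.ii.sub h'.ii, by rw [intervalIntegral.integral_sub h.ii h'.ii, h.eq, h'.eq]⟩

theorem Rep.mul {B : ℝ} {F : ℝ → ℝ} {X : ℝ} (c : ℝ) (h : Rep B F X) :
    Rep B (fun t => c * F t) (c * X) :=
  ⟨h.ii.const_mul c, by rw [intervalIntegral.integral_const_mul, h.eq]⟩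

theorem Rep.sum {B : ℝ} {ι : Type} (s : Finset ι) {F : ι → ℝ → ℝ} {X : ι → ℝ}
    (h : ∀ i ∈ s, Rep B (F i) (X i)) :
    Rep B (fun t => ∑ i ∈ s, F i t) (∑ i ∈ s, X i) := by
  classical
  induction s using Finset.induction_on with
  | empty =>
    refine ⟨?_, ?_⟩
    · simp
    · simp
  | insert a s ha ih =>
    have h1 := (h a (mem_insert_self a s)).add (ih fun i hi => h i (mem_insert_of_mem hi))
    rw [sum_insert ha]
    have e : (fun t => ∑ i ∈ insert a s, F i t) = fun t => F a t + ∑ i ∈ s, F i t := by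
      funext t
      rw [sum_insert ha]
    rw [e]
    exact h1

theorem Rep.mono {B : ℝ} (hB : 0 ≤ B) {F G : ℝ → ℝ} {X Y : ℝ} (h : Rep B F X) (h' : Rep B G Y)
    (hle : ∀ t, 0 ≤ t → F t ≤ G t) : X ≤ Y := by
  rw [← h.eq, ← h'.eq]
  exact intervalIntegral.integral_mono_on hB h.ii h'.ii fun t ht => hle t ht.1

theorem I_anti (x : ℝ) : Antitone (I x) := by
  intro s t hst
  unfold I
  by_cases h : t < x
  · rw [if_pos h, if_pos (lt_of_le_of_lt hst h)]
  · rw [if_neg h]
    split_ifs <;> norm_num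

theorem I_nonneg (x t : ℝ) : 0 ≤ I x t := by
  unfold I
  split_ifs <;> norm_num

theorem I_le_one (x t : ℝ) : I x t ≤ 1 := by
  unfold I
  split_ifs <;> norm_num

theorem I_mono {x y : ℝ} (h : x ≤ y) (t : ℝ) : I x t ≤ I y t := by
  unfold I
  by_cases h1 : t < x
  · rw [if_pos h1, if_pos (lt_of_lt_of_le h1 h)]
  · rw [if_neg h1]
    split_ifs <;> norm_num

theorem rep_I {B x : ℝ} (hB : 0 ≤ B) (hx : x ≤ B) : Rep B (I x) (max x 0) := by
  refine ⟨(I_anti x).intervalIntegrable, ?_⟩
  have hm : max x 0 ≤ B := max_le hx hB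
  have h0 : (0 : ℝ) ≤ max x 0 := le_max_right _ _
  have h1 : ∫ t in (0 : ℝ)..B, I x t =
      (∫ t in (0 : ℝ)..(max x 0), I x t) + ∫ t in (max x 0)..B, I x t :=
    (intervalIntegral.integral_add_adjacent_intervals (I_anti x).intervalIntegrable
      (I_anti x).intervalIntegrable).symm
  have h2 : ∫ t in (0 : ℝ)..(max x 0), I x t = ∫ t in (0 : ℝ)..(max x 0), (1 : ℝ) := by
    refine intervalIntegral.integral_congr_ae ?_
    have hae : ∀ᵐ t : ℝ ∂volume, t ≠ max x 0 := by
      rw [ae_iff]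
      simp
    filter_upwards [hae] with t ht hmem
    rw [Set.uIoc_of_le h0] at hmem
    have h3 : t < max x 0 := lt_of_le_of_ne hmem.2 ht
    unfold I
    rw [if_pos]
    rcases lt_max_iff.1 h3 with h | h
    · exact h
    · exact absurd hmem.1 (not_lt.2 h.le)
  have h3 : ∫ t in (max x 0)..B, I x t = ∫ t in (max x 0)..B, (0 : ℝ) := by
    refine intervalIntegral.integral_congr fun t ht => ?_
    rw [Set.uIcc_of_le hm] at ht
    unfold I
    rw [if_neg]
    exact not_lt.2 ((le_max_left x 0).trans ht.1)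
  rw [h1, h2, h3]
  simp

theorem I_min (x y t : ℝ) : I x t * (1 - I y t) = I x t - I (min x y) t := by
  unfold I
  by_cases h1 : t < x
  · by_cases h2 : t < y
    · rw [if_pos h1, if_pos h2, if_pos (lt_min h1 h2)]; norm_num
    · rw [if_pos h1, if_neg h2, if_neg fun h => h2 (lt_min_iff.1 h).2]; norm_num
  · rw [if_neg h1, if_neg fun h => h1 (lt_min_iff.1 h).1]; norm_num

theorem rep_D {B x y : ℝ} (hB : 0 ≤ B) (hx : x ≤ B) (hy : 0 ≤ y) :
    Rep B (fun t => I x t * (1 - I y t)) (max (x - y) 0) := by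
  have h := (rep_I hB hx).sub (rep_I hB ((min_le_left x y).trans hx))
  have e1 : (fun t => I x t * (1 - I y t)) = fun t => I x t - I (min x y) t :=
    funext fun t => I_min x y t
  have e2 : max (x - y) 0 = max x 0 - max (min x y) 0 := by
    rcases le_total x y with hxy | hxy
    · rw [min_eq_left hxy, sub_self, max_eq_right (by linarith)]
    · rw [min_eq_right hxy, max_eq_left (by linarith), max_eq_left (hy.trans hxy),
        max_eq_left hy]
  rw [e1, e2]
  exact h

section
variable {V : Type} [Fintype V] [DecidableEq V]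

theorem sum_wt (q : V → ℝ) : ∑ S : Finset V, wt q S = 1 := by
  have h := Finset.prod_add (fun v => q v) (fun v => 1 - q v) (univ : Finset V)
  have h1 : ∏ v : V, (q v + (1 - q v)) = 1 := prod_eq_one fun v _ => by ring
  rw [h1, powerset_univ] at h
  rw [h]
  refine sum_congr rfl fun S _ => ?_
  unfold wt
  rw [compl_eq_univ_sdiff]

theorem pmax_nonneg (T : V → ℝ) (S : Finset V) : 0 ≤ pmax T S := by
  unfold pmax
  exact (Finset.le_fold_max 0).2 (Or.inl le_rfl)

theorem pmax_le {T : V → ℝ} {B : ℝ} (hB : 0 ≤ B) (hT : ∀ v, T v ≤ B) (S : Finset V) :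
    pmax T S ≤ B := by
  unfold pmax
  exact (Finset.fold_max_le B).2 ⟨hB, fun v _ => hT v⟩

theorem sum_wt_I (a T : V → ℝ) {t : ℝ} (ht : 0 ≤ t) :
    ∑ S : Finset V, wt (fun v => 1 - Real.exp (-(a v))) S * (1 - I (pmax T S) t) =
      Real.exp (-∑ v, a v * I (T v) t) := by
  have h := Finset.prod_add (fun v => (1 - Real.exp (-(a v))) * (1 - I (T v) t))
    (fun v => 1 - (1 - Real.exp (-(a v)))) (univ : Finset V)
  have h1 : ∏ v : V, ((1 - Real.exp (-(a v))) * (1 - I (T v) t) +
      (1 - (1 - Real.exp (-(a v))))) = Real.exp (-∑ v, a v * I (T v) t) := by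
    rw [← sum_neg_distrib, Real.exp_sum]
    refine prod_congr rfl fun v _ => ?_
    unfold I
    split_ifs
    · rw [mul_one]; ring
    · rw [mul_zero, neg_zero, Real.exp_zero]; ring
  rw [← h1, h, powerset_univ]
  refine sum_congr rfl fun S _ => ?_
  unfold wt
  rw [compl_eq_univ_sdiff, prod_mul_distrib]
  have h2 : 1 - I (pmax T S) t = ∏ v ∈ S, (1 - I (T v) t) := by
    by_cases h3 : ∃ v ∈ S, t < T v
    · obtain ⟨v, hv, hv2⟩ := h3
      have h4 : t < pmax T S := by
        unfold pmax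
        exact (Finset.lt_fold_max t).2 (Or.inr ⟨v, hv, hv2⟩)
      rw [prod_eq_zero hv]
      · unfold I
        rw [if_pos h4, sub_self]
      · unfold I
        rw [if_pos hv2, sub_self]
    · have h4 : ¬ t < pmax T S := by
        unfold pmax
        rw [Finset.lt_fold_max t]
        rintro (h5 | h5)
        · exact absurd ht (not_le.2 h5)
        · exact h3 h5
      rw [prod_eq_one]
      · unfold I
        rw [if_neg h4, sub_zero]
      · intro v hv
        unfold I
        rw [if_neg fun h5 => h3 ⟨v, hv, h5⟩, sub_zero]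
  rw [h2]
  ring

end

theorem rowR : S_ROWR := by
  intro c k hF V _ _ T w a ha hsum hw hT
  obtain ⟨B, hB0, hBw⟩ : ∃ B : ℝ, 0 ≤ B ∧ ∀ v, w v ≤ B :=
    ⟨∑ v, w v, sum_nonneg fun v _ => hw v, fun v =>
      single_le_sum (f := w) (fun i _ => hw i) (mem_univ v)⟩
  have hBT : ∀ v, T v ≤ B := fun v => (hT v).trans (hBw v)
  have hL : Rep B (fun t => c * ∑ v, a v * I (w v) t) (c * ∑ v, a v * w v) := by
    refine (Rep.sum univ fun v _ => ?_).mul c
    have h1 := (rep_I hB0 (hBw v)).mul (a v)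
    rw [max_eq_left (hw v)] at h1
    exact h1
  have hR : Rep B (fun t => ∑ S : Finset V, wt (fun v => 1 - Real.exp (-(a v))) S *
      (2 * I (pmax T S) t - ∑ v, a v * (I (T v) t * (1 - I (pmax T S) t)) -
        k * ∑ v, a v * I (T v) t + k * ∑ v, a v * (I (w v) t * (1 - I (pmax T S) t))))
      (ex (fun v => 1 - Real.exp (-(a v))) (fun S =>
        2 * pmax T S - ∑ v, a v * max (T v - pmax T S) 0 - k * ∑ v, a v * max (T v) 0 +
        k * ∑ v, a v * max (w v - pmax T S) 0)) := by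
    unfold ex
    refine Rep.sum univ fun S _ => Rep.mul _ ?_
    have h0 := pmax_nonneg T S
    have h1 := rep_I hB0 (pmax_le hB0 hBT S)
    rw [max_eq_left h0] at h1
    exact (((h1.mul 2).sub (Rep.sum univ fun v _ => (rep_D hB0 (hBT v) h0).mul (a v))).sub
      ((Rep.sum univ fun v _ => (rep_I hB0 (hBT v)).mul (a v)).mul k)).add
      ((Rep.sum univ fun v _ => (rep_D hB0 (hBw v) h0).mul (a v)).mul k)
  refine Rep.mono hB0 hL hR fun t ht => ?_
  have e1 := sum_wt (fun v => 1 - Real.exp (-(a v)))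
  have e2 := sum_wt_I a T ht
  set L := ∑ v, a v * I (T v) t with hLd
  set r := ∑ v, a v * I (w v) t with hrd
  have e3 : ∀ S : Finset V, (2 * I (pmax T S) t -
      ∑ v, a v * (I (T v) t * (1 - I (pmax T S) t)) - k * L +
      k * ∑ v, a v * (I (w v) t * (1 - I (pmax T S) t))) =
      (2 - k * L) + (-2 - L + k * r) * (1 - I (pmax T S) t) := by
    intro S
    have h1 : ∑ v, a v * (I (T v) t * (1 - I (pmax T S) t)) = L * (1 - I (pmax T S) t) := by
      rw [hLd, sum_mul]
      exact sum_congr rfl fun v _ => by ring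
    have h2 : ∑ v, a v * (I (w v) t * (1 - I (pmax T S) t)) = r * (1 - I (pmax T S) t) := by
      rw [hrd, sum_mul]
      exact sum_congr rfl fun v _ => by ring
    rw [h1, h2]
    ring
  have e4 : ∑ S : Finset V, wt (fun v => 1 - Real.exp (-(a v))) S *
      ((2 - k * L) + (-2 - L + k * r) * (1 - I (pmax T S) t)) =
      (2 - k * L) * 1 + (-2 - L + k * r) * Real.exp (-L) := by
    generalize hA : 2 - k * L = A1
    generalize hA2 : -2 - L + k * r = A2
    have e5 : A1 * 1 + A2 * Real.exp (-L) =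
        A1 * (∑ S : Finset V, wt (fun v => 1 - Real.exp (-(a v))) S) +
        A2 * ∑ S : Finset V, wt (fun v => 1 - Real.exp (-(a v))) S * (1 - I (pmax T S) t) := by
      rw [e1, e2]
    rw [e5, mul_sum, mul_sum, ← sum_add_distrib]
    exact sum_congr rfl fun S _ => by ring
  show c * r ≤ ∑ S : Finset V, wt (fun v => 1 - Real.exp (-(a v))) S *
      (2 * I (pmax T S) t - ∑ v, a v * (I (T v) t * (1 - I (pmax T S) t)) -
        k * L + k * ∑ v, a v * (I (w v) t * (1 - I (pmax T S) t)))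
  rw [sum_congr rfl fun S _ => by rw [e3 S], e4]
  have hL0 : 0 ≤ L := sum_nonneg fun v _ => mul_nonneg (ha v) (I_nonneg _ _)
  have hLr : L ≤ r := sum_le_sum fun v _ => mul_le_mul_of_nonneg_left (I_mono (hT v) t) (ha v)
  have hr1 : r ≤ 1 := by
    refine le_trans (sum_le_sum fun v _ => ?_) hsum
    calc a v * I (w v) t ≤ a v * 1 := mul_le_mul_of_nonneg_left (I_le_one _ _) (ha v)
      _ = a v := mul_one _
  have := hF L r hL0 hLr hr1
  nlinarith [this]

end Pool.Agent.H70.CG.ROWR
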