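import Pool.Agent.H70.CG.Stm

namespace Pool.Agent.H70.CG.SMGS

open Finset Pool.Agent.H70.CG

variable {U V : Type} [DecidableEq U] [DecidableEq V]

theorem sub_delC {G M : Finset (U × V)} {j : V} (h : M ⊆ G) (hj : j ∉ M.image Prod.snd) :
    M ⊆ delC G j := by
  intro e he
  unfold delC
  rw [mem_filter]
  exact ⟨h he, fun h0 => hj (mem_image.2 ⟨e, he, h0⟩)⟩

theorem of_sub_delC {G M : Finset (U × V)} {j : V} (h : M ⊆ delC G j) :
    M ⊆ G ∧ j ∉ M.image Prod.snd := by
  refine ⟨fun e he => ?_, fun hj => ?_⟩
  · have := h he
    unfold delC at this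
    exact (mem_filter.1 this).1
  · obtain ⟨e, he, h0⟩ := mem_image.1 hj
    have := h he
    unfold delC at this
    exact (mem_filter.1 this).2 h0

theorem delC_comm (G : Finset (U × V)) (i j : V) : delC (delC G i) j = delC (delC G j) i := by
  unfold delC
  rw [filter_filter, filter_filter]
  ext e
  simp only [mem_filter]
  tauto

theorem sm' (hE : S_EXCH) (w : U → V → ℝ) (H : Finset (U × V)) (i j : V) (hij : i ≠ j) :
    nu w H + nu w (delC (delC H i) j) ≤ nu w (delC H i) + nu w (delC H j) := by
  obtain ⟨A, hA1, hA2, hA3⟩ := exists_nu w (delC (delC H i) j)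
  obtain ⟨B, hB1, hB2, hB3⟩ := exists_nu w H
  obtain ⟨hA4, hAj⟩ := of_sub_delC hA1
  obtain ⟨hA5, hAi⟩ := of_sub_delC hA4
  by_cases hi : i ∈ B.image Prod.snd
  · obtain ⟨A', B', hA', hB', hsA, hsB, hw, hc⟩ := hE U V A B hA2 hB2 i hi hAi
    have hAB : A ∪ B ⊆ H := union_subset hA5 hB1
    have h1 : j ∉ A'.image Prod.snd ∧ i ∉ B'.image Prod.snd := by
      rcases hc with ⟨h1, h2⟩ | ⟨l, hl1, hl2, h1, h2⟩
      · rw [h1, h2]
        refine ⟨?_, notMem_erase _ _⟩
        rw [mem_insert]
        rintro (h | h)
        · exact hij h.symm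
        · exact hAj h
      · rw [h1, h2]
        constructor
        · rw [mem_insert]
          rintro (h | h)
          · exact hij h.symm
          · exact hAj (mem_of_mem_erase h)
        · rw [mem_insert]
          rintro (h | h)
          · exact hAi (h ▸ hl1)
          · exact notMem_erase _ _ h
    have h2 := nu_ge w hA' (sub_delC (hsA.trans hAB) h1.1)
    have h3 := nu_ge w hB' (sub_delC (hsB.trans hAB) h1.2)
    have h4 := hw w
    linarith
  · have h2 := nu_ge w hB2 (sub_delC hB1 hi)
    have h3 := nu_ge w hA2 (sub_delC hA5 hAj)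
    linarith

theorem sm (hE : S_EXCH) : S_SM := by
  intro U V _ _ w H i j hij
  have := sm' hE w H i j hij
  unfold sg
  linarith

theorem gs' (hE : S_EXCH) (w : U → V → ℝ) (H : Finset (U × V)) (i j k : V) (hij : i ≠ j)
    (hik : i ≠ k) (hjk : j ≠ k) :
    nu w (delC (delC H i) j) + nu w (delC H k) ≤
        nu w (delC (delC H i) k) + nu w (delC H j) ∨
      nu w (delC (delC H i) j) + nu w (delC H k) ≤
        nu w (delC (delC H j) k) + nu w (delC H i) := by
  obtain ⟨A, hA1, hA2, hA3⟩ := exists_nu w (delC (delC H i) j)
  obtain ⟨B, hB1, hB2, hB3⟩ := exists_nu w (delC H k)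
  obtain ⟨hA4, hAj⟩ := of_sub_delC hA1
  obtain ⟨hA5, hAi⟩ := of_sub_delC hA4
  obtain ⟨hB5, hBk⟩ := of_sub_delC hB1
  -- submodularity inequalities
  have hsmk := sm' hE w (delC H k) i j hij
  have e1 : delC (delC H k) i = delC (delC H i) k := delC_comm H k i
  have e2 : delC (delC H k) j = delC (delC H j) k := delC_comm H k j
  have hsm := sm' hE w H j k hjk
  have hmj : nu w (delC (delC H j) k) ≤ nu w (delC H j) :=
    nu_mono w (of_sub_delC (Finset.Subset.refl _)).1
  by_cases hk : k ∈ A.image Prod.snd
  · obtain ⟨B', A', hB', hA', hsB, hsA, hw, hc⟩ := hE U V B A hB2 hA2 k hk hBk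
    have hAB : B ∪ A ⊆ H := union_subset hB5 hA5
    have hwW := hw w
    have hA6 : A' ⊆ H := hsA.trans hAB
    have hB6 : B' ⊆ H := hsB.trans hAB
    rcases hc with ⟨h1, h2⟩ | ⟨l, hl1, hl2, h1, h2⟩
    · -- no column given back
      left
      have hi' : i ∉ A'.image Prod.snd := by
        rw [h2]; exact fun h => hAi (mem_of_mem_erase h)
      have hj' : j ∉ A'.image Prod.snd := by
        rw [h2]; exact fun h => hAj (mem_of_mem_erase h)
      have hk' : k ∉ A'.image Prod.snd := by
        rw [h2]; exact notMem_erase _ _
      have h3 := nu_ge w hA' (sub_delC (sub_delC (sub_delC hA6 hk') hi') hj')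
      have h4 := nu_ge w hB' hB6
      rw [e1] at h3
      rw [e1, e2] at hsmk
      linarith
    · have hk' : k ∉ A'.image Prod.snd := by
        rw [h2, mem_insert]
        rintro (h | h)
        · exact hBk (h ▸ hl1)
        · exact notMem_erase _ _ h
      by_cases hli : l = i
      · right
        subst hli
        have hj' : j ∉ A'.image Prod.snd := by
          rw [h2, mem_insert]
          rintro (h | h)
          · exact hij h.symm
          · exact hAj (mem_of_mem_erase h)
        have hi' : l ∉ B'.image Prod.snd := by
          rw [h1, mem_insert]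
          rintro (h | h)
          · exact hik h
          · exact notMem_erase _ _ h
        have h3 := nu_ge w hA' (sub_delC (sub_delC hA6 hj') hk')
        have h4 := nu_ge w hB' (sub_delC hB6 hi')
        linarith
      · by_cases hlj : l = j
        · left
          subst hlj
          have hi' : i ∉ A'.image Prod.snd := by
            rw [h2, mem_insert]
            rintro (h | h)
            · exact hij h
            · exact hAi (mem_of_mem_erase h)
          have hj' : l ∉ B'.image Prod.snd := by
            rw [h1, mem_insert]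
            rintro (h | h)
            · exact hjk h
            · exact notMem_erase _ _ h
          have h3 := nu_ge w hA' (sub_delC (sub_delC hA6 hi') hk')
          have h4 := nu_ge w hB' (sub_delC hB6 hj')
          linarith
        · left
          have hi' : i ∉ A'.image Prod.snd := by
            rw [h2, mem_insert]
            rintro (h | h)
            · exact hli h.symm
            · exact hAi (mem_of_mem_erase h)
          have hj' : j ∉ A'.image Prod.snd := by
            rw [h2, mem_insert]
            rintro (h | h)
            · exact hlj h.symm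
            · exact hAj (mem_of_mem_erase h)
          have h3 := nu_ge w hA' (sub_delC (sub_delC (sub_delC hA6 hk') hi') hj')
          have h4 := nu_ge w hB' hB6
          rw [e1] at h3
          rw [e1, e2] at hsmk
          linarith
  · left
    have h3 := nu_ge w hA2 (sub_delC (sub_delC (sub_delC hA5 hk) hAi) hAj)
    rw [e1] at h3
    rw [e1, e2] at hsmk
    linarith

theorem gs (hE : S_EXCH) : S_GS := by
  intro U V _ _ w H i j k hij hik hjk
  unfold sg
  rcases gs' hE w H i j k hij hik hjk with h | h
  · refine le_trans (min_le_left _ _) ?_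
    linarith
  · refine le_trans (min_le_right _ _) ?_
    linarith

end Pool.Agent.H70.CG.SMGS
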