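import Pool.Agent.H70.CG.POIS
import Pool.Agent.H70.CG.EXCH
import Pool.Agent.H70.CG.SMGS
import Pool.Agent.H70.CG.INS
import Pool.Agent.H70.CG.ROWB
import Pool.Agent.H70.CG.ROWR
import Pool.Agent.H70.CG.NUM
import Pool.Agent.H70.CG.RES
import Pool.Agent.H70.CG.CRS

namespace Pool.Agent.H70.CG

theorem gapAll : S_GAP (5425 / 10000) := by
  have hSM : S_SM := SMGS.sm EXCH.exch
  have hGS : S_GS := SMGS.gs EXCH.exch
  exact POIS.gap NUM.num (by norm_num)
    (POIS.pois hSM INS.ins INS.ins2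
      (SIDE.side hSM hGS INS.ins INS.ins2 INS.dec ROWB.rowB ROWR.rowR RES.res) RES.tr) RES.mono

end Pool.Agent.H70.CG
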