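import Pool.Agent.H70.CG.Stm

namespace Pool.Agent.H70.CG

open Finset

section
variable {E : Type} [Fintype E] [DecidableEq E]

theorem wt_nonneg {q : E → ℝ} (h0 : ∀ e, 0 ≤ q e) (h1 : ∀ e, q e ≤ 1) (S : Finset E) :
    0 ≤ wt q S := by
  unfold wt
  refine mul_nonneg (Finset.prod_nonneg fun e _ => h0 e) (Finset.prod_nonneg fun e _ => ?_)
  linarith [h1 e]

theorem sum_wt (q : E → ℝ) : ∑ S : Finset E, wt q S = 1 := by
  have h := Finset.prod_add q (fun e => 1 - q e) (univ : Finset E)
  rw [Finset.powerset_univ] at h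
  have h2 : ∏ e ∈ (univ : Finset E), (q e + (1 - q e)) = 1 :=
    Finset.prod_eq_one fun e _ => by ring
  rw [h2] at h
  rw [h]
  refine Finset.sum_congr rfl fun S _ => ?_
  unfold wt
  rw [Finset.compl_eq_univ_sdiff]

theorem ex_const (q : E → ℝ) (c : ℝ) : ex q (fun _ => c) = c := by
  unfold ex
  rw [← Finset.sum_mul, sum_wt, one_mul]

theorem ex_add (q : E → ℝ) (f g : Finset E → ℝ) :
    ex q (fun S => f S + g S) = ex q f + ex q g := by
  unfold ex
  rw [← Finset.sum_add_distrib]
  exact Finset.sum_congr rfl fun S _ => by ring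

theorem ex_sub (q : E → ℝ) (f g : Finset E → ℝ) :
    ex q (fun S => f S - g S) = ex q f - ex q g := by
  unfold ex
  rw [← Finset.sum_sub_distrib]
  exact Finset.sum_congr rfl fun S _ => by ring

theorem ex_mul (q : E → ℝ) (c : ℝ) (f : Finset E → ℝ) :
    ex q (fun S => c * f S) = c * ex q f := by
  unfold ex
  rw [Finset.mul_sum]
  exact Finset.sum_congr rfl fun S _ => by ring

theorem ex_sum {ι : Type} (s : Finset ι) (q : E → ℝ) (f : ι → Finset E → ℝ) :
    ex q (fun S => ∑ i ∈ s, f i S) = ∑ i ∈ s, ex q (f i) := by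
  unfold ex
  rw [Finset.sum_comm]
  exact Finset.sum_congr rfl fun S _ => by rw [Finset.mul_sum]

theorem ex_mono_f {q : E → ℝ} (h0 : ∀ e, 0 ≤ q e) (h1 : ∀ e, q e ≤ 1) {f g : Finset E → ℝ}
    (h : ∀ S, f S ≤ g S) : ex q f ≤ ex q g :=
  Finset.sum_le_sum fun S _ => mul_le_mul_of_nonneg_left (h S) (wt_nonneg h0 h1 S)

end

section
variable {U V : Type} [DecidableEq U] [DecidableEq V]

theorem delR_sub (G : Finset (U × V)) (u : U) : delR G u ⊆ G := Finset.filter_subset _ _

theorem delC_sub (G : Finset (U × V)) (v : V) : delC G v ⊆ G := Finset.filter_subset _ _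

theorem mu_nonneg (w : U → V → ℝ) (G : Finset (U × V)) (u : U) : 0 ≤ mu w G u :=
  sub_nonneg.2 (nu_mono w (delR_sub G u))

theorem pi_nonneg (w : U → V → ℝ) (G : Finset (U × V)) (v : V) : 0 ≤ pi' w G v :=
  sub_nonneg.2 (nu_mono w (delC_sub G v))

theorem delR_delC (G : Finset (U × V)) (u : U) (v : V) :
    delR (delC G v) u = delC (delR G u) v := by
  unfold delR delC
  rw [Finset.filter_filter, Finset.filter_filter]
  exact Finset.filter_congr fun e _ => and_comm

theorem delC_comm (G : Finset (U × V)) (v v' : V) :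
    delC (delC G v) v' = delC (delC G v') v := by
  unfold delC
  rw [Finset.filter_filter, Finset.filter_filter]
  exact Finset.filter_congr fun e _ => and_comm

theorem sg_comm (w : U → V → ℝ) (H : Finset (U × V)) (i j : V) : sg w H i j = sg w H j i := by
  unfold sg
  rw [delC_comm H i j]; ring

theorem delR_insR (G : Finset (U × V)) (u : U) (S : Finset V) :
    delR (insR G u S) u = delR G u := by
  ext ⟨x, y⟩
  simp only [delR, insR, Finset.mem_filter, Finset.mem_union, Finset.mem_image, Prod.mk.injEq]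
  constructor
  · rintro ⟨h | ⟨z, _, h, _⟩, h2⟩
    · exact h
    · exact absurd h.symm h2
  · rintro ⟨h1, h2⟩
    exact ⟨Or.inl ⟨h1, h2⟩, h2⟩

theorem nbr_insR [Fintype V] (G : Finset (U × V)) (u : U) (S : Finset V) :
    nbr (insR G u S) u = S := by
  ext x
  simp only [nbr, delR, insR, Finset.mem_filter, Finset.mem_union, Finset.mem_image,
    Prod.mk.injEq, Finset.mem_univ, true_and, ne_eq, not_true_eq_false, and_false, false_or,
    exists_eq_right]

theorem mem_insR (G : Finset (U × V)) (u : U) (S : Finset V) (v : V) :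
    (u, v) ∈ insR G u S ↔ v ∈ S := by
  simp only [delR, insR, Finset.mem_filter, Finset.mem_union, Finset.mem_image,
    Prod.mk.injEq, true_and, ne_eq, not_true_eq_false, and_false, false_or,
    exists_eq_right]

/-- `π_v(G) = π_v(G∖u) + μ_u(G) - μ_u(G∖v)`. -/
theorem pi_eq (w : U → V → ℝ) (G : Finset (U × V)) (u : U) (v : V) :
    pi' w G v = pi' w (delR G u) v + (mu w G u - mu w (delC G v) u) := by
  unfold pi' mu
  rw [delR_delC]; ring

end

end Pool.Agent.H70.CG
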