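import Pool.Agent.H70.CG.Stm3
import Pool.Agent.H70.CG.Base

/-!
# Substitutes for rows and the inequality of an edge
-/

namespace Pool.Agent.H70.CG.EDGE

open Finset

/-- Rows and columns are substitutes. -/
theorem sub (hSM : S_SM) (hT : S_TR) : S_SUB := by
  intro U V _ _ _ _ w H
  constructor
  · intro u u' hu
    have h1 := hSM V U (fun v u => w u v) (trG H) u u' hu.symm
    obtain ⟨t1, _, t3, _⟩ := hT U V
    unfold sg at h1
    rw [t3, t3, t3, t1, t1, t1, t1] at h1
    unfold mu
    linarith
  · intro v v' hv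
    have h1 := hSM U V w H v v' hv.symm
    unfold sg at h1
    unfold pi'
    linarith

theorem ind_nonneg (t x : ℝ) : 0 ≤ ind t x := by
  unfold ind
  split_ifs
  · exact zero_le_one
  · exact le_refl _

theorem ind_le_one (t x : ℝ) : ind t x ≤ 1 := by
  unfold ind
  split_ifs
  · exact le_refl _
  · exact zero_le_one

theorem ind_mono {t x y : ℝ} (h : x ≤ y) : ind t x ≤ ind t y := by
  unfold ind
  by_cases h1 : t < x
  · rw [if_pos h1, if_pos (lt_of_lt_of_le h1 h)]
  · rw [if_neg h1]
    split_ifs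
    · exact zero_le_one
    · exact le_refl _

theorem isI_sub {x y : ℝ} (hx : IsI x) (hy : IsI y) : IsI (x - y) := by
  obtain ⟨m, rfl⟩ := hx
  obtain ⟨n, rfl⟩ := hy
  exact ⟨m - n, by push_cast; ring⟩

/-- for an integer `m`, `m < t + 1 ↔ m ≤ t` -/
theorem isI_lt {x : ℝ} (hx : IsI x) (t : ℕ) : x < (t : ℝ) + 1 ↔ x ≤ (t : ℝ) := by
  obtain ⟨m, rfl⟩ := hx
  constructor
  · intro h
    have h1 : ((m : ℤ) : ℝ) < (((t : ℤ) + 1 : ℤ) : ℝ) := by push_cast; exact h
    have h2 : m < (t : ℤ) + 1 := by exact_mod_cast h1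
    have h3 : m ≤ (t : ℤ) := by omega
    exact_mod_cast h3
  · intro h
    linarith

/-- The inequality of an edge. -/
theorem edge (hN : S_N1) (hL : S_LAW) (hS : S_SUB) (hInt : S_INT) : S_EDGE := by
  intro Om hOm U V _ _ _ _ a w ha hcol hw u v t s hts
  have hp0 : ∀ e, 0 ≤ pr a e := by
    intro e
    unfold pr
    have h1 : Real.exp (-(a e.1 e.2)) ≤ 1 := Real.exp_le_one_iff.2 (by linarith [ha e.1 e.2])
    linarith
  have hp1 : ∀ e, pr a e ≤ 1 := by
    intro e
    unfold pr
    have h1 := Real.exp_pos (-(a e.1 e.2))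
    linarith
  -- the pointwise inequality
  have hpt : ∀ G : Finset (U × V), cc Om (YY a w G v s) +
      ps Om (YY a w G v s) * (ind s (w u v - mu w (delC G v) u) - YY a w G v s) +
      (Om - 1 / 2) * Real.exp (-(YY a w G v s)) ≤
      max (cc Om (kK a w G u v s)) 0 +
      ps Om (kK a w G u v s) * (ind s (w u v - mu w (delC G v) u) - kK a w G u v s) +
      (Om - 1 / 2) * Real.exp (-(kK a w G u v s)) := by
    intro G
    refine hN Om hOm _ _ _ ?_ ?_ ?_ (ind_nonneg _ _) (ind_le_one _ _)
    · unfold kK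
      exact Finset.sum_nonneg fun u' _ => mul_nonneg (ha _ _) (ind_nonneg _ _)
    · unfold kK YY
      rw [← Finset.add_sum_erase univ _ (Finset.mem_univ u)]
      have h1 : 0 ≤ a u v * ind s (w u v - mu w (delC G v) u) :=
        mul_nonneg (ha _ _) (ind_nonneg _ _)
      have h2 : ∑ u' ∈ univ.erase u, a u' v * ind s (w u' v - mu w (delR (delC G v) u) u') ≤
          ∑ u' ∈ univ.erase u, a u' v * ind s (w u' v - mu w (delC G v) u') := by
        refine Finset.sum_le_sum fun u' hu' => mul_le_mul_of_nonneg_left (ind_mono ?_) (ha _ _)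
        have h3 := (hS U V w (delC G v)).1 u u' (Finset.ne_of_mem_erase hu')
        linarith
      linarith
    · unfold YY
      refine le_trans (Finset.sum_le_sum fun u' _ => ?_) (hcol v)
      exact mul_le_of_le_one_right (ha _ _) (ind_le_one _ _)
  refine le_trans (ex_mono_f hp0 hp1 hpt) (le_of_eq ?_)
  -- the law of the value of the row
  let F : Finset (U × V) → ℝ := fun H =>
    ps Om (∑ u' ∈ univ.erase u, a u' v * ind s (w u' v - mu w H u'))
  have hF : ∀ G, F (delR (delC G v) u) = ps Om (kK a w G u v s) := fun G => rfl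
  have hlaw := (hL U V a w u (t : ℝ) (Nat.cast_nonneg t)).2 F v
  have hA : ∀ G : Finset (U × V), ind s (w u v - mu w (delC G v) u) =
      if mu w (delC G v) u ≤ (t : ℝ) then 1 else 0 := by
    intro G
    have h1 : IsI (mu w (delC G v) u) := isI_sub (hInt U V w hw _) (hInt U V w hw _)
    have h2 := isI_lt h1 t
    unfold ind
    by_cases h3 : mu w (delC G v) u ≤ (t : ℝ)
    · rw [if_pos h3, if_pos]
      have h4 := h2.2 h3
      rw [hts]
      linarith
    · rw [if_neg h3, if_neg]
      intro h4
      apply h3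
      apply h2.1
      rw [hts] at h4
      linarith
  have e1 : ex (pr a) (fun G => max (cc Om (kK a w G u v s)) 0 +
      ps Om (kK a w G u v s) * (ind s (w u v - mu w (delC G v) u) - kK a w G u v s) +
      (Om - 1 / 2) * Real.exp (-(kK a w G u v s))) =
      ex (pr a) (fun G => max (cc Om (kK a w G u v s)) 0 -
        ps Om (kK a w G u v s) * kK a w G u v s + (Om - 1 / 2) * Real.exp (-(kK a w G u v s))) +
      ex (pr a) (fun G => F (delR (delC G v) u) *
        (if mu w (delC G v) u ≤ (t : ℝ) then 1 else 0)) := by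
    rw [← ex_add]
    unfold ex
    refine Finset.sum_congr rfl fun G _ => ?_
    beta_reduce
    rw [hF, hA G]
    ring
  have e2 : ex (pr a) (fun G => max (cc Om (kK a w G u v s)) 0 +
      ps Om (kK a w G u v s) * (Real.exp (-(hK a w G u v t)) - kK a w G u v s) +
      (Om - 1 / 2) * Real.exp (-(kK a w G u v s))) =
      ex (pr a) (fun G => max (cc Om (kK a w G u v s)) 0 -
        ps Om (kK a w G u v s) * kK a w G u v s + (Om - 1 / 2) * Real.exp (-(kK a w G u v s))) +
      ex (pr a) (fun G => F (delR (delC G v) u) * Real.exp (-(hK a w G u v t))) := by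
    rw [← ex_add]
    unfold ex
    refine Finset.sum_congr rfl fun G _ => ?_
    beta_reduce
    rw [hF]
    ring
  rw [e1, e2, hlaw]

end Pool.Agent.H70.CG.EDGE
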