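import Pool.Agent.H70.CG.GINT

namespace Pool.Agent.H70.CG.GMAIN

open Finset Pool.Agent.H70.CG Pool.Agent.H70.CG.GINT

section
variable {U V : Type} [Fintype U] [Fintype V] [DecidableEq U] [DecidableEq V]

/-- expected excess of the row `u` at the level `t` along the edge `(u,v)` -/
noncomputable def fR (Om : ℝ) (a w : U → V → ℝ) (u : U) (v : V) (t : ℝ) : ℝ :=
  ex (pr a) (fun G => cc Om (XX a w G u t) +
    ps Om (XX a w G u t) * (ind t (w u v - pi' w (delR G u) v) - XX a w G u t))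

/-- expected excess of the column `v` at the level `s` along the edge `(u,v)` -/
noncomputable def fC (Om : ℝ) (a w : U → V → ℝ) (u : U) (v : V) (s : ℝ) : ℝ :=
  ex (pr a) (fun G => cc Om (YY a w G v s) +
    ps Om (YY a w G v s) * (ind s (w u v - mu w (delC G v) u) - YY a w G v s))

theorem tr_fR (hT : S_TR) (Om : ℝ) (a w : U → V → ℝ) (u : U) (v : V) (t : ℝ) :
    fR Om (fun v u => a u v) (fun v u => w u v) v u t = fC Om a w u v t := by
  unfold fR fC
  rw [tr_ex (U := U) (V := V) hT a]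
  simp only [tr_XX hT, (hT U V).2.1, tr_pi hT]

theorem sum_ind {n B : ℕ} (h : n ≤ B) (f : ℕ → ℝ) :
    ∑ t ∈ range B, ind (t : ℝ) (n : ℝ) * f t = ∑ t ∈ range n, f t := by
  have h1 : ∀ t ∈ range B, ind (t : ℝ) (n : ℝ) * f t = if t < n then f t else 0 := by
    intro t _
    unfold ind
    simp only [Nat.cast_lt]
    split_ifs <;> simp
  rw [Finset.sum_congr rfl h1, ← Finset.sum_filter]
  congr 1
  ext t
  simp only [Finset.mem_filter, Finset.mem_range]
  omega

theorem ex_lin (q : U × V → ℝ) (f g : Finset (U × V) → ℝ) (c : ℝ) :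
    ex q (fun S => f S + c * g S) = ex q f + c * ex q g := by
  rw [ex_add, ex_mul]

/-- sum of the row inequalities for one row -/
theorem row_sum (hN0 : S_N0) {Om : ℝ} (hO : Om * Real.exp Om = 1) (a w : U → V → ℝ) (B : ℕ)
    (ha : ∀ u v, 0 ≤ a u v) (hrow : ∀ u, ∑ v, a u v ≤ 1) (u : U) :
    -(∑ v, a u v * ∑ t ∈ range B, ind (t : ℝ) (w u v) * fR Om a w u v t) ≤
    ∑ t ∈ range B, ex (pr a) (fun G => F0 Om (XX a w G u t) +
        Om * (∑ v, a u v * ind t (w u v)) * Real.exp (-(XX a w G u t)) -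
        (2 - 2 * Om - Om ^ 2) * ∑ v, a u v * ind t (w u v)) := by
  have hq0 : ∀ e, 0 ≤ pr a e := fun e => SIDE.q_nonneg (ha _ _)
  have hq1 : ∀ e, pr a e ≤ 1 := fun e => SIDE.q_le_one _
  have h1 : ∑ v, a u v * ∑ t ∈ range B, ind (t : ℝ) (w u v) * fR Om a w u v t =
      ∑ t ∈ range B, ∑ v, a u v * (ind (t : ℝ) (w u v) * fR Om a w u v t) := by
    rw [Finset.sum_comm]
    exact Finset.sum_congr rfl fun v _ => by rw [Finset.mul_sum]
  rw [h1, ← Finset.sum_neg_distrib]
  refine Finset.sum_le_sum fun t _ => ?_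
  have h2 : -(∑ v, a u v * (ind (t : ℝ) (w u v) * fR Om a w u v t)) =
      ex (pr a) (fun G => -(∑ v, a u v * (ind t (w u v) * (cc Om (XX a w G u t) +
      ps Om (XX a w G u t) * (ind t (w u v - pi' w (delR G u) v) - XX a w G u t))))) := by
    have h3 : (fun G : Finset (U × V) => -(∑ v, a u v * (ind (t : ℝ) (w u v) *
      (cc Om (XX a w G u t) +
      ps Om (XX a w G u t) * (ind t (w u v - pi' w (delR G u) v) - XX a w G u t))))) =
      fun G => (-1 : ℝ) * ∑ v, (a u v * ind (t : ℝ) (w u v)) * (cc Om (XX a w G u t) +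
      ps Om (XX a w G u t) * (ind t (w u v - pi' w (delR G u) v) - XX a w G u t)) := by
      funext G
      rw [neg_one_mul]
      congr 1
      exact Finset.sum_congr rfl fun v _ => by ring
    rw [h3, ex_mul, ex_sum, neg_one_mul]
    congr 1
    refine Finset.sum_congr rfl fun v _ => ?_
    rw [ex_mul]
    unfold fR
    ring
  rw [h2]
  exact ex_mono_f hq0 hq1 fun G => row_point hN0 hO a w ha hrow G u t

/-- the inequality for an edge and a pair of complementary levels -/
theorem edge_level (hN2 : S_N2) (hT : S_TR) (hE : S_EDGE) {Om : ℝ} (hO : Om * Real.exp Om = 1)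
    (a w : U → V → ℝ) (ha : ∀ u v, 0 ≤ a u v) (hrow : ∀ u, ∑ v, a u v ≤ 1)
    (hcol : ∀ v, ∑ u, a u v ≤ 1) (hwi : ∀ u v, IsI (w u v)) (u : U) (v : V) (t s : ℕ)
    (hw : w u v = (t : ℝ) + s + 1) :
    fR Om a w u v t + fC Om a w u v s ≤ (Om - 1 / 2) *
      ((ex (pr a) (fun G => Real.exp (-(hK a w G u v t))) -
          ex (pr a) (fun G => Real.exp (-(XX a w G u t)))) +
        (ex (pr a) (fun G => Real.exp (-(kK a w G u v s))) -
          ex (pr a) (fun G => Real.exp (-(YY a w G v s))))) := by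
  have hq0 : ∀ e, 0 ≤ pr a e := fun e => SIDE.q_nonneg (ha _ _)
  have hq1 : ∀ e, pr a e ≤ 1 := fun e => SIDE.q_le_one _
  have h1 := edge_row hT hE hO a w ha hrow hwi u v t s hw
  have h2 := hE Om hO U V a w ha hcol hwi u v t s hw
  have h3 : ex (pr a) (fun G => max (cc Om (hK a w G u v t)) 0 +
      ps Om (hK a w G u v t) * (Real.exp (-(kK a w G u v s)) - hK a w G u v t)) +
      ex (pr a) (fun G => max (cc Om (kK a w G u v s)) 0 +
      ps Om (kK a w G u v s) * (Real.exp (-(hK a w G u v t)) - kK a w G u v s)) ≤ 0 := by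
    rw [← ex_add]
    refine (ex_mono_f hq0 hq1 (g := fun _ => (0 : ℝ)) fun G => ?_).trans_eq (ex_const (pr a) 0)
    obtain ⟨a1, a2⟩ := hK_mem a w ha hrow G u v t
    obtain ⟨b1, b2⟩ := kK_mem a w ha hcol G u v s
    exact hN2 Om hO _ _ a1 a2 b1 b2
  have q1 : ex (pr a) (fun G => cc Om (XX a w G u t) +
      ps Om (XX a w G u t) * (ind t (w u v - pi' w (delR G u) v) - XX a w G u t) +
      (Om - 1 / 2) * Real.exp (-(XX a w G u t))) = fR Om a w u v t +
      (Om - 1 / 2) * ex (pr a) (fun G => Real.exp (-(XX a w G u t))) := ex_lin _ _ _ _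
  have q2 : ex (pr a) (fun G => max (cc Om (hK a w G u v t)) 0 +
      ps Om (hK a w G u v t) * (Real.exp (-(kK a w G u v s)) - hK a w G u v t) +
      (Om - 1 / 2) * Real.exp (-(hK a w G u v t))) =
      ex (pr a) (fun G => max (cc Om (hK a w G u v t)) 0 +
      ps Om (hK a w G u v t) * (Real.exp (-(kK a w G u v s)) - hK a w G u v t)) +
      (Om - 1 / 2) * ex (pr a) (fun G => Real.exp (-(hK a w G u v t))) := ex_lin _ _ _ _
  have q3 : ex (pr a) (fun G => cc Om (YY a w G v s) +
      ps Om (YY a w G v s) * (ind s (w u v - mu w (delC G v) u) - YY a w G v s) +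
      (Om - 1 / 2) * Real.exp (-(YY a w G v s))) = fC Om a w u v s +
      (Om - 1 / 2) * ex (pr a) (fun G => Real.exp (-(YY a w G v s))) := ex_lin _ _ _ _
  have q4 : ex (pr a) (fun G => max (cc Om (kK a w G u v s)) 0 +
      ps Om (kK a w G u v s) * (Real.exp (-(hK a w G u v t)) - kK a w G u v s) +
      (Om - 1 / 2) * Real.exp (-(kK a w G u v s))) =
      ex (pr a) (fun G => max (cc Om (kK a w G u v s)) 0 +
      ps Om (kK a w G u v s) * (Real.exp (-(hK a w G u v t)) - kK a w G u v s)) +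
      (Om - 1 / 2) * ex (pr a) (fun G => Real.exp (-(kK a w G u v s))) := ex_lin _ _ _ _
  rw [q1, q2] at h1
  rw [q3, q4] at h2
  linarith

/-- the inequality for an edge -/
theorem edge_sum (hN2 : S_N2) (hT : S_TR) (hInt : S_INT) (hL : S_LAW) (hE : S_EDGE) {Om : ℝ}
    (hO : Om * Real.exp Om = 1)
    (a w : U → V → ℝ) (B : ℕ) (ha : ∀ u v, 0 ≤ a u v) (hrow : ∀ u, ∑ v, a u v ≤ 1)
    (hcol : ∀ v, ∑ u, a u v ≤ 1) (hw : ∀ u v, 0 ≤ w u v) (hwi : ∀ u v, IsI (w u v))
    (hwB : ∀ u v, w u v ≤ B) (u : U) (v : V) :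
    ∑ t ∈ range B, ind (t : ℝ) (w u v) * fR Om a w u v t +
      ∑ t ∈ range B, ind (t : ℝ) (w u v) * fC Om a w u v t ≤ (Om - 1 / 2) *
      ((ex (pr a) (fun G => max (w u v - mu w (delC G v) u) 0) -
          ex (pr a) (fun G => max (w u v - mu w G u) 0)) +
        (ex (pr a) (fun G => max (w u v - pi' w (delR G u) v) 0) -
          ex (pr a) (fun G => max (w u v - pi' w G v) 0))) := by
  obtain ⟨m, hm⟩ := hwi u v
  have hm0 : 0 ≤ m := by have := hw u v; rw [hm] at this; exact_mod_cast this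
  obtain ⟨n, rfl⟩ := Int.eq_ofNat_of_zero_le hm0
  have hn : w u v = (n : ℝ) := by rw [hm]; simp
  have hnB : n ≤ B := by have := hwB u v; rw [hn] at this; exact_mod_cast this
  rw [hn, sum_ind hnB, sum_ind hnB]
  have hmuI : ∀ (G : Finset (U × V)) (u : U), IsI (mu w G u) := by
    intro G u
    obtain ⟨n2, h2⟩ := hInt U V w hwi G
    obtain ⟨n3, h3⟩ := hInt U V w hwi (delR G u)
    exact ⟨n2 - n3, by unfold mu; rw [h2, h3]; push_cast; ring⟩
  have hpiI : ∀ (G : Finset (U × V)) (v : V), IsI (pi' w G v) := by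
    intro G u
    obtain ⟨n2, h2⟩ := hInt U V w hwi G
    obtain ⟨n3, h3⟩ := hInt U V w hwi (delC G u)
    exact ⟨n2 - n3, by unfold pi'; rw [h2, h3]; push_cast; ring⟩
  have p1 : ex (pr a) (fun G => max ((n : ℝ) - mu w (delC G v) u) 0) =
      ∑ t ∈ range n, ex (pr a) (fun G => Real.exp (-(hK a w G u v t))) := by
    rw [show (fun G : Finset (U × V) => max ((n : ℝ) - mu w (delC G v) u) 0) = fun G =>
      ∑ t ∈ range n, (if mu w (delC G v) u ≤ (t : ℝ) then (1 : ℝ) else 0) from
      funext fun G => max_sum (hmuI _ _) (mu_nonneg _ _ _), ex_sum]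
    exact Finset.sum_congr rfl fun t _ => law_row' hL a w u v (Nat.cast_nonneg t)
  have p2 : ex (pr a) (fun G => max ((n : ℝ) - mu w G u) 0) =
      ∑ t ∈ range n, ex (pr a) (fun G => Real.exp (-(XX a w G u t))) := by
    rw [show (fun G : Finset (U × V) => max ((n : ℝ) - mu w G u) 0) = fun G =>
      ∑ t ∈ range n, (if mu w G u ≤ (t : ℝ) then (1 : ℝ) else 0) from
      funext fun G => max_sum (hmuI _ _) (mu_nonneg _ _ _), ex_sum]
    exact Finset.sum_congr rfl fun t _ => law_row hL a w u (Nat.cast_nonneg t)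
  have p3 : ex (pr a) (fun G => max ((n : ℝ) - pi' w (delR G u) v) 0) =
      ∑ t ∈ range n, ex (pr a) (fun G => Real.exp (-(kK a w G u v t))) := by
    rw [show (fun G : Finset (U × V) => max ((n : ℝ) - pi' w (delR G u) v) 0) = fun G =>
      ∑ t ∈ range n, (if pi' w (delR G u) v ≤ (t : ℝ) then (1 : ℝ) else 0) from
      funext fun G => max_sum (hpiI _ _) (pi_nonneg _ _ _), ex_sum]
    exact Finset.sum_congr rfl fun t _ => law_col' hT hL a w u v (Nat.cast_nonneg t)
  have p4 : ex (pr a) (fun G => max ((n : ℝ) - pi' w G v) 0) =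
      ∑ t ∈ range n, ex (pr a) (fun G => Real.exp (-(YY a w G v t))) := by
    rw [show (fun G : Finset (U × V) => max ((n : ℝ) - pi' w G v) 0) = fun G =>
      ∑ t ∈ range n, (if pi' w G v ≤ (t : ℝ) then (1 : ℝ) else 0) from
      funext fun G => max_sum (hpiI _ _) (pi_nonneg _ _ _), ex_sum]
    exact Finset.sum_congr rfl fun t _ => law_col hT hL a w v (Nat.cast_nonneg t)
  rw [p1, p2, p3, p4]
  rw [← Finset.sum_range_reflect (fun t : ℕ => fC Om a w u v (t : ℝ)) n,
    ← Finset.sum_range_reflect (fun t : ℕ => ex (pr a) (fun G =>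
      Real.exp (-(kK a w G u v (t : ℝ))))) n,
    ← Finset.sum_range_reflect (fun t : ℕ => ex (pr a) (fun G =>
      Real.exp (-(YY a w G v (t : ℝ))))) n,
    ← Finset.sum_sub_distrib, ← Finset.sum_sub_distrib, ← Finset.sum_add_distrib,
    ← Finset.sum_add_distrib, Finset.mul_sum]
  refine Finset.sum_le_sum fun t ht => ?_
  have ht' : t < n := Finset.mem_range.1 ht
  have hts : w u v = (t : ℝ) + ((n - 1 - t : ℕ) : ℝ) + 1 := by
    rw [hn]
    have : n = t + (n - 1 - t) + 1 := by omega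
    exact_mod_cast this
  exact edge_level hN2 hT hE hO a w ha hrow hcol hwi u v t (n - 1 - t) hts

end

theorem gint (hN0 : S_N0) (hN2 : S_N2) (hT : S_TR) (hInt : S_INT) (hL : S_LAW) (hE : S_EDGE)
    (hS : S_SIDE2) : S_GINT := by
  intro Om hO U V _ _ _ _ a w ha hrow hcol hw hwi
  obtain ⟨B, hB⟩ : ∃ B : ℕ, ∀ u v, w u v ≤ B := by
    obtain ⟨B, hB⟩ := exists_nat_ge (∑ u, ∑ v, w u v)
    refine ⟨B, fun u v => le_trans ?_ hB⟩
    exact (Finset.single_le_sum (f := fun v => w u v) (fun v _ => hw u v)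
      (Finset.mem_univ v)).trans (Finset.single_le_sum (f := fun u => ∑ v, w u v)
      (fun u _ => Finset.sum_nonneg fun v _ => hw u v) (Finset.mem_univ u))
  have R := hS Om (2 - 2 * Om - Om ^ 2) U V a w B ha hw hwi hB
  have C := hS Om (2 - 2 * Om - Om ^ 2) V U (fun v u => a u v) (fun v u => w u v) B
    (fun v u => ha u v) (fun v u => hw u v) (fun v u => hwi u v) (fun v u => hB u v)
  have rs := fun u => row_sum hN0 hO a w B ha hrow u
  have cs := fun v => row_sum hN0 hO (fun v u => a u v) (fun v u => w u v) B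
    (fun v u => ha u v) hcol v
  simp only [tr_fR (U := U) (V := V) hT] at cs
  simp only [tr_ex (U := U) (V := V) hT a, tr_XX hT, tr_mu hT, tr_pi hT, tr_XG hT,
    (hT U V).2.1] at C cs
  have es := fun u v => edge_sum hN2 hT hInt hL hE hO a w B ha hrow hcol hw hwi hB u v
  have hswap : ∀ F : U → V → ℝ, ∑ v, ∑ u, F u v = ∑ u, ∑ v, F u v := fun F => Finset.sum_comm
  rw [hswap (fun u v => a u v * w u v),
    hswap (fun u v => a u v * ex (pr a) (fun G => max (w u v - mu w (delC G v) u) 0)),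
    hswap (fun u v => a u v * ex (pr a) (fun G => max (w u v - pi' w G v) 0)),
    hswap (fun u v => a u v * (ex (pr a) (fun G => max (w u v - mu w (delC G v) u) 0) -
      ex (pr a) (fun G => max (w u v - mu w G u) 0)))] at C
  have rs' := Finset.sum_le_sum (s := (univ : Finset U)) fun u _ => rs u
  have cs' := Finset.sum_le_sum (s := (univ : Finset V)) fun v _ => cs v
  rw [Finset.sum_neg_distrib] at rs' cs'
  rw [hswap (fun u v => a u v * ∑ t ∈ range B, ind (t : ℝ) (w u v) * fC Om a w u v t)] at cs'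
  set P := ∑ u, ∑ v, a u v * ex (pr a) (fun G => max (w u v - pi' w (delR G u) v) 0) with hP
  set P' := ∑ u, ∑ v, a u v * ex (pr a) (fun G => max (w u v - mu w (delC G v) u) 0) with hP'
  set Q := ∑ u, ∑ v, a u v * ex (pr a) (fun G => max (w u v - pi' w G v) 0) with hQ
  set Q' := ∑ u, ∑ v, a u v * ex (pr a) (fun G => max (w u v - mu w G u) 0) with hQ'
  have s1 : ∑ u, ∑ v, a u v * (ex (pr a) (fun G => max (w u v - pi' w (delR G u) v) 0) -
      ex (pr a) (fun G => max (w u v - pi' w G v) 0)) = P - Q := by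
    rw [hP, hQ, ← Finset.sum_sub_distrib]
    refine Finset.sum_congr rfl fun u _ => ?_
    rw [← Finset.sum_sub_distrib]
    exact Finset.sum_congr rfl fun v _ => by ring
  have s2 : ∑ u, ∑ v, a u v * (ex (pr a) (fun G => max (w u v - mu w (delC G v) u) 0) -
      ex (pr a) (fun G => max (w u v - mu w G u) 0)) = P' - Q' := by
    rw [hP', hQ', ← Finset.sum_sub_distrib]
    refine Finset.sum_congr rfl fun u _ => ?_
    rw [← Finset.sum_sub_distrib]
    exact Finset.sum_congr rfl fun v _ => by ring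
  have es' : ∑ u, ∑ v, a u v * ∑ t ∈ range B, ind (t : ℝ) (w u v) * fR Om a w u v t +
      ∑ u, ∑ v, a u v * ∑ t ∈ range B, ind (t : ℝ) (w u v) * fC Om a w u v t ≤
      (Om - 1 / 2) * ((P' - Q') + (P - Q)) := by
    rw [← s1, ← s2, ← Finset.sum_add_distrib, ← Finset.sum_add_distrib, Finset.mul_sum]
    refine Finset.sum_le_sum fun u _ => ?_
    rw [← Finset.sum_add_distrib, ← Finset.sum_add_distrib, Finset.mul_sum]
    refine Finset.sum_le_sum fun v _ => ?_
    have := mul_le_mul_of_nonneg_left (es u v) (ha u v)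
    linarith
  rw [s1] at R
  rw [s2] at C
  have hnu : ex (pr a) (nu w) = ex (pr a) (fun G => ∑ u, mu w G u) +
      ex (pr a) (fun G => ∑ v, pi' w G v) - ex (pr a) (XG w) := by
    rw [← ex_add, ← ex_sub]
    congr 1
    funext G
    unfold XG; ring
  rw [hnu]
  linarith

end Pool.Agent.H70.CG.GMAIN
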