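import Pool.Agent.H70.CG.Stm3
import Pool.Agent.H70.CG.Base
import Pool.Agent.H70.CG.ROWR

/-!
The law of the value of a row; integrality of the values.
-/

set_option autoImplicit false

namespace Pool.Agent.H70.CG.LAW

open Finset Pool.Agent.H70.CG

theorem pmax_le_iff {V : Type} (T : V → ℝ) (S : Finset V) {y : ℝ} (hy : 0 ≤ y) :
    pmax T S ≤ y ↔ ∀ v ∈ S, T v ≤ y := by
  unfold pmax
  rw [Finset.fold_max_le y]
  exact ⟨fun h => h.2, fun h => ⟨hy, h⟩⟩

theorem ex_pmax {V : Type} [Fintype V] [DecidableEq V] (a T : V → ℝ) {y : ℝ} (hy : 0 ≤ y) :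
    ex (fun v => 1 - Real.exp (-(a v))) (fun S => if pmax T S ≤ y then 1 else 0) =
      Real.exp (-(∑ v, a v * ind y (T v))) := by
  have h := ROWR.sum_wt_I a T hy
  have h2 : (∑ v, a v * ROWR.I (T v) y) = ∑ v, a v * ind y (T v) := rfl
  rw [h2] at h
  rw [← h]
  unfold ex
  refine sum_congr rfl fun S _ => ?_
  congr 1
  unfold ROWR.I
  dsimp only
  by_cases h1 : pmax T S ≤ y
  · rw [if_pos h1, if_neg (not_lt.2 h1), sub_zero]
  · rw [if_neg h1, if_pos (not_le.1 h1), sub_self]

theorem nbr_delC_insR {U V : Type} [Fintype V] [DecidableEq U] [DecidableEq V]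
    (G : Finset (U × V)) (u : U) (v : V) (S : Finset V) :
    nbr (delC (insR G u S) v) u = S.erase v := by
  ext x
  have h := mem_insR G u S x
  unfold nbr delC
  rw [mem_filter, mem_filter, mem_erase, h]
  constructor
  · rintro ⟨_, h1, h2⟩
    exact ⟨h2, h1⟩
  · rintro ⟨h1, h2⟩
    exact ⟨mem_univ _, h2, h1⟩

theorem law (hI : S_INS) (hR : S_RES) : S_LAW := by
  intro U V _ _ _ _ a w u y hy
  refine ⟨?_, ?_⟩
  · intro F
    rw [hR U V (pr a) u (fun G => F (delR G u) * (if mu w G u ≤ y then 1 else 0))]
    unfold ex
    refine sum_congr rfl fun G _ => ?_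
    congr 1
    have key : ex (fun v => pr a (u, v)) (fun S => F (delR (insR G u S) u) *
        (if mu w (insR G u S) u ≤ y then 1 else 0)) =
        F (delR G u) * Real.exp (-(XX a w G u y)) := by
      have h1 : (fun S => F (delR (insR G u S) u) *
          (if mu w (insR G u S) u ≤ y then (1 : ℝ) else 0)) =
          fun S => F (delR G u) *
            (if pmax (fun v => w u v - pi' w (delR G u) v) S ≤ y then (1 : ℝ) else 0) := by
        funext S
        rw [delR_insR, hI U V w (insR G u S) u, delR_insR, nbr_insR]
      rw [h1, ex_mul]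
      congr 1
      exact ex_pmax (fun v => a u v) (fun v => w u v - pi' w (delR G u) v) hy
    exact key
  · intro F v
    rw [hR U V (pr a) u (fun G => F (delR (delC G v) u) *
      (if mu w (delC G v) u ≤ y then 1 else 0))]
    unfold ex
    refine sum_congr rfl fun G _ => ?_
    congr 1
    have key : ex (fun v' => pr a (u, v')) (fun S => F (delR (delC (insR G u S) v) u) *
        (if mu w (delC (insR G u S) v) u ≤ y then 1 else 0)) =
        F (delR (delC G v) u) * Real.exp (-(hK a w G u v y)) := by
      have hd : ∀ S : Finset V, delR (delC (insR G u S) v) u = delR (delC G v) u := by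
        intro S
        rw [delR_delC, delR_insR, delR_delC]
      have h1 : (fun S => F (delR (delC (insR G u S) v) u) *
          (if mu w (delC (insR G u S) v) u ≤ y then (1 : ℝ) else 0)) =
          fun S => F (delR (delC G v) u) *
            (if pmax (fun v' => if v' = v then 0 else
              w u v' - pi' w (delR (delC G v) u) v') S ≤ y then (1 : ℝ) else 0) := by
        funext S
        rw [hd S, hI U V w (delC (insR G u S) v) u, hd S, nbr_delC_insR]
        congr 1
        refine if_congr ?_ rfl rfl
        rw [pmax_le_iff _ _ hy, pmax_le_iff _ _ hy]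
        constructor
        · intro h v' hv'
          by_cases h2 : v' = v
          · rw [if_pos h2]; exact hy
          · rw [if_neg h2]
            exact h v' (mem_erase.2 ⟨h2, hv'⟩)
        · intro h v' hv'
          have h3 := mem_erase.1 hv'
          have h4 := h v' h3.2
          rw [if_neg h3.1] at h4
          exact h4
      rw [h1, ex_mul]
      congr 1
      have h5 := ex_pmax (fun v' => a u v') (fun v' => if v' = v then 0 else
              w u v' - pi' w (delR (delC G v) u) v') hy
      refine Eq.trans h5 ?_
      congr 2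
      unfold hK
      rw [← add_sum_erase univ _ (mem_univ v)]
      have h6 : a u v * ind y (if v = v then 0 else w u v - pi' w (delR (delC G v) u) v) = 0 := by
        rw [if_pos rfl]
        unfold ind
        rw [if_neg (not_lt.2 hy), mul_zero]
      rw [h6, zero_add]
      refine sum_congr rfl fun v' hv' => ?_
      rw [if_neg (mem_erase.1 hv').1]
    exact key

theorem int : S_INT := by
  intro U V w hw G
  obtain ⟨M, _, _, h3⟩ := exists_nu w G
  rw [← h3]
  choose n hn using hw
  refine ⟨∑ e ∈ M, n e.1 e.2, ?_⟩
  unfold wsum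
  push_cast
  exact sum_congr rfl fun e _ => hn e.1 e.2

end Pool.Agent.H70.CG.LAW
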