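import Pool.Agent.H70.CG.Base

namespace Pool.Agent.H70.CG.SIDE

open Finset Pool.Agent.H70.CG

theorem q_nonneg {x : ℝ} (hx : 0 ≤ x) : 0 ≤ 1 - Real.exp (-x) := by
  have := Real.exp_le_one_iff.2 (neg_nonpos.2 hx)
  linarith

theorem q_le_one (x : ℝ) : 1 - Real.exp (-x) ≤ 1 := by
  have := Real.exp_pos (-x)
  linarith

theorem side (hSM : S_SM) (hGS : S_GS) (hI : S_INS) (hI2 : S_INS2) (hD : S_DEC) (hB : S_ROWB)
    (hR : S_ROWR) (hRes : S_RES) : S_SIDE := by
  intro c k hF U V _ _ _ _ a w ha hrow hw
  choose xi hxi hxi2 using hD U V w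
  have hq0 : ∀ e, 0 ≤ pr a e := fun e => q_nonneg (ha _ _)
  have hq1 : ∀ e, pr a e ≤ 1 := fun e => q_le_one _
  -- the inequality for one row
  have key : ∀ u, ex (pr a) (fun G =>
      c * ∑ v, a u v * w u v + k * ∑ v, a u v * max (w u v - pi' w (delR G u) v) 0
        - k * ∑ v, a u v * max (w u v - mu w G u) 0
        - (∑ v, a u v * (max (w u v - pi' w (delR G u) v) 0 - max (w u v - pi' w G v) 0)) / 2
        - (2 * mu w G u - xi G u)) ≤ 0 := by
    intro u
    rw [hRes U V (pr a) u]
    refine (ex_mono_f hq0 hq1 (g := fun _ => (0 : ℝ)) fun G => ?_).trans_eq (ex_const (pr a) 0)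
    set H := delR G u with hH
    set T : V → ℝ := fun v => w u v - pi' w H v with hT
    set s : V → V → ℝ := fun v v' => sg w H v v' with hs
    have e1 : ∀ S, delR (insR G u S) u = H := fun S => delR_insR G u S
    have e2 : ∀ S, mu w (insR G u S) u = pmax T S := by
      intro S
      rw [hI U V w (insR G u S) u, e1, nbr_insR]
    have e3 : ∀ S v, mu w (delC (insR G u S) v) u = pmax (fun v' => T v' - s v v') (S.erase v) := by
      intro S v
      rw [hI2 U V w (insR G u S) u v, e1, nbr_insR]
    have e4 : ∀ S v, w u v - pi' w (insR G u S) v =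
        T v - (pmax T S - pmax (fun v' => T v' - s v v') (S.erase v)) := by
      intro S v
      rw [pi_eq w (insR G u S) u v, e1, e2, e3]
      simp only [hT]; ring
    have hb := hB V T s (a u) (fun S => xi (insR G u S) u) (ha u)
      (fun i j => sg_comm w H i j) (fun i j hij => hSM U V w H i j hij)
      (fun i j l h1 h2 h3 => hGS U V w H i j l h1 h2 h3)
      (by
        intro S
        rcases hxi2 (insR G u S) u with h | ⟨v, hv, h1, h2⟩
        · exact Or.inl h
        · right
          refine ⟨v, (mem_insR G u S v).1 hv, ?_, ?_⟩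
          · rw [← e2, h1, e1]
          · rw [h2, e2, e3])
    have hr := hR c k hF V T (w u) (a u) (ha u) (hrow u) (hw u) (fun v => by
      simp only [hT]; linarith [pi_nonneg w H v])
    have hqu : (fun v => pr a (u, v)) = fun v => 1 - Real.exp (-(a u v)) := rfl
    rw [hqu]
    -- pointwise identity
    have hpt : (fun S : Finset V => c * ∑ v, a u v * w u v +
        k * ∑ v, a u v * max (w u v - pi' w (delR (insR G u S) u) v) 0
        - k * ∑ v, a u v * max (w u v - mu w (insR G u S) u) 0
        - (∑ v, a u v * (max (w u v - pi' w (delR (insR G u S) u) v) 0 -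
            max (w u v - pi' w (insR G u S) v) 0)) / 2
        - (2 * mu w (insR G u S) u - xi (insR G u S) u)) =
      fun S : Finset V => (c * ∑ v, a u v * w u v -
        (2 * pmax T S - ∑ v, a u v * max (T v - pmax T S) 0 - k * ∑ v, a u v * max (T v) 0 +
          k * ∑ v, a u v * max (w u v - pmax T S) 0)) + (xi (insR G u S) u -
        ∑ v, a u v * (max (T v - pmax T S) 0 + (max (T v) 0 -
          max (T v - (pmax T S - pmax (fun v' => T v' - s v v') (S.erase v))) 0) / 2)) := by
      funext S
      rw [e1, e2]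
      simp only [e4]
      have h1 : ∑ v, a u v * (max (T v - pmax T S) 0 + (max (T v) 0 -
          max (T v - (pmax T S - pmax (fun v' => T v' - s v v') (S.erase v))) 0) / 2) =
          ∑ v, a u v * max (T v - pmax T S) 0 + (∑ v, a u v * (max (T v) 0 -
          max (T v - (pmax T S - pmax (fun v' => T v' - s v v') (S.erase v))) 0)) / 2 := by
        rw [Finset.sum_div, ← Finset.sum_add_distrib]
        exact Finset.sum_congr rfl fun v _ => by ring
      rw [h1]
      ring
    rw [hpt, ex_add, ex_sub, ex_sub, ex_const]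
    linarith
  -- sum over the rows
  have hsum := Finset.sum_nonpos (s := (univ : Finset U)) fun u _ => key u
  have hx : ex (pr a) (XG w) = ∑ u, ex (pr a) (fun G => xi G u) := by
    rw [← ex_sum]
    congr 1
    funext G
    exact hxi G
  have hexp : ∀ u, ex (pr a) (fun G =>
      c * ∑ v, a u v * w u v + k * ∑ v, a u v * max (w u v - pi' w (delR G u) v) 0
        - k * ∑ v, a u v * max (w u v - mu w G u) 0
        - (∑ v, a u v * (max (w u v - pi' w (delR G u) v) 0 - max (w u v - pi' w G v) 0)) / 2
        - (2 * mu w G u - xi G u)) =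
      c * ∑ v, a u v * w u v + k * ∑ v, a u v * ex (pr a) (fun G => max (w u v - pi' w (delR G u) v) 0)
        - k * ∑ v, a u v * ex (pr a) (fun G => max (w u v - mu w G u) 0)
        - (∑ v, a u v * (ex (pr a) (fun G => max (w u v - pi' w (delR G u) v) 0) -
            ex (pr a) (fun G => max (w u v - pi' w G v) 0))) / 2
        - (2 * ex (pr a) (fun G => mu w G u) - ex (pr a) (fun G => xi G u)) := by
    intro u
    have g1 : ∀ F : V → Finset (U × V) → ℝ, ex (pr a) (fun G => ∑ v, a u v * F v G) =
        ∑ v, a u v * ex (pr a) (fun G => F v G) := by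
      intro F
      rw [ex_sum]
      exact Finset.sum_congr rfl fun v _ => ex_mul _ _ _
    have g2 : (fun S : Finset (U × V) => (∑ v, a u v * (max (w u v - pi' w (delR S u) v) 0 -
          max (w u v - pi' w S v) 0)) / 2) = fun S => (1 / 2 : ℝ) * (∑ v, a u v *
          (max (w u v - pi' w (delR S u) v) 0 - max (w u v - pi' w S v) 0)) := by
      funext S; ring
    rw [ex_sub, ex_sub, ex_sub, ex_add, ex_const, ex_mul, ex_mul, ex_sub, ex_mul, g2, ex_mul,
      g1, g1, g1]
    have g3 : ∑ v, a u v * ex (pr a) (fun G => max (w u v - pi' w (delR G u) v) 0 -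
          max (w u v - pi' w G v) 0) = ∑ v, a u v * (ex (pr a) (fun G =>
          max (w u v - pi' w (delR G u) v) 0) - ex (pr a) (fun G => max (w u v - pi' w G v) 0)) :=
      Finset.sum_congr rfl fun v _ => by rw [ex_sub]
    rw [g3]
    ring
  rw [Finset.sum_congr rfl fun u _ => hexp u] at hsum
  rw [ex_sum, hx]
  simp only [Finset.sum_sub_distrib, Finset.sum_add_distrib, ← Finset.mul_sum,
    ← Finset.sum_div] at hsum ⊢
  linarith

end Pool.Agent.H70.CG.SIDE
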