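import Pool.Agent.H70.CG.Stm3
import Pool.Agent.H70.CG.SIDE

/-!
# From integer weights to real weights
-/

namespace Pool.Agent.H70.CG.LIM

open Finset Pool.Agent.H70.CG

theorem gam_nonneg {Om : ℝ} (h : Om * Real.exp Om = 1) : 0 ≤ 2 - 2 * Om - Om ^ 2 := by
  have h1 : 0 < Om := by
    by_contra hc
    have := mul_nonpos_of_nonpos_of_nonneg (not_lt.1 hc) (Real.exp_pos Om).le
    linarith
  have h2 : Om < 7 / 10 := by
    by_contra hc
    have hc' : 7 / 10 ≤ Om := not_lt.1 hc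
    have h3 := Real.add_one_le_exp Om
    nlinarith [mul_le_mul_of_nonneg_left h3 h1.le]
  nlinarith

theorem nu_scale {U V : Type} (w w' : U → V → ℝ) (N : ℝ) (hN : 0 ≤ N)
    (h : ∀ u v, w' u v ≤ N * w u v) (G : Finset (U × V)) : nu w' G ≤ N * nu w G := by
  refine nu_le w' fun M h1 h2 => ?_
  have h3 : wsum w' M ≤ N * wsum w M := by
    unfold wsum
    rw [Finset.mul_sum]
    exact Finset.sum_le_sum fun e _ => h _ _
  exact h3.trans (mul_le_mul_of_nonneg_left (nu_ge w h2 h1) hN)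

theorem lim (hM : S_MONO) (h : S_GINT) : S_GAMMA := by
  intro Om hOm U V _ _ _ _ a w ha hrow hcol hw
  have hc := gam_nonneg hOm
  set c := 2 - 2 * Om - Om ^ 2 with hcdef
  have hq0 : ∀ e, 0 ≤ pr a e := fun e => SIDE.q_nonneg (ha _ _)
  have hq1 : ∀ e, pr a e ≤ 1 := fun e => SIDE.q_le_one _
  -- the Poissonised inequality
  have hP : c * ∑ u, ∑ v, a u v * w u v ≤ ex (pr a) (nu w) := by
    by_contra hcon
    obtain ⟨N, hN⟩ := exists_nat_gt ((c * ∑ u, ∑ v, a u v) /
      (c * ∑ u, ∑ v, a u v * w u v - ex (pr a) (nu w)))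
    have hd : 0 < c * ∑ u, ∑ v, a u v * w u v - ex (pr a) (nu w) := by
      have := not_le.1 hcon
      linarith
    rw [div_lt_iff₀ hd] at hN
    set wN : U → V → ℝ := fun u v => ((⌊(N : ℝ) * w u v⌋ : ℤ) : ℝ) with hwN
    have k1 : ∀ u v, wN u v ≤ N * w u v := fun u v => Int.floor_le _
    have k2 : ∀ u v, (N : ℝ) * w u v - 1 ≤ wN u v := fun u v => (Int.sub_one_lt_floor _).le
    have k3 : ∀ u v, 0 ≤ wN u v := by
      intro u v
      have : 0 ≤ ⌊(N : ℝ) * w u v⌋ := Int.floor_nonneg.2 (mul_nonneg (Nat.cast_nonneg _) (hw u v))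
      exact Int.cast_nonneg this
    have k4 := h Om hOm U V a wN ha hrow hcol k3 (fun u v => ⟨_, rfl⟩)
    rw [← hcdef] at k4
    have k5 : ex (pr a) (nu wN) ≤ N * ex (pr a) (nu w) := by
      rw [← ex_mul]
      exact ex_mono_f hq0 hq1 fun G => nu_scale w wN N (Nat.cast_nonneg _) k1 G
    have k6 : N * (∑ u, ∑ v, a u v * w u v) - ∑ u, ∑ v, a u v ≤ ∑ u, ∑ v, a u v * wN u v := by
      rw [Finset.mul_sum, ← Finset.sum_sub_distrib]
      refine Finset.sum_le_sum fun u _ => ?_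
      rw [Finset.mul_sum, ← Finset.sum_sub_distrib]
      refine Finset.sum_le_sum fun v _ => ?_
      have := mul_le_mul_of_nonneg_left (k2 u v) (ha u v)
      linarith
    have k7 := mul_le_mul_of_nonneg_left k6 hc
    nlinarith
  refine hP.trans ?_
  refine hM (U × V) (pr a) (fun e => a e.1 e.2) (nu w) hq0
    (fun e => ?_) (fun e => ?_) (fun S S' h => nu_mono w h)
  · unfold pr
    have := Real.add_one_le_exp (-(a e.1 e.2))
    linarith
  · exact (Finset.single_le_sum (f := fun v => a e.1 v) (fun v _ => ha e.1 v)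
      (Finset.mem_univ e.2)).trans (hrow e.1)

end Pool.Agent.H70.CG.LIM
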