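import Pool.Agent.H70.CG.Stm3

/-!
# Numerical inequalities I (by helper23)
-/

namespace Pool.Agent.H70.CG.NUMA

open Real

/-- Upper bound of the exponential function on `[0, 1]`. -/
theorem exp_up {x : ℝ} (h0 : 0 ≤ x) (h1 : x ≤ 1) :
    exp x ≤ 1 + x + x ^ 2 / 2 + x ^ 3 / 6 + x ^ 4 / 24 + x ^ 5 / 100 := by
  have h := Real.exp_bound' h0 h1 (n := 5) (by norm_num)
  refine h.trans (le_of_eq ?_)
  simp only [Finset.sum_range_succ, Finset.sum_range_zero, Nat.factorial]
  norm_num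
  ring

/-- Upper bound of the exponential function on `[0, 1]`. -/
theorem exp_up7 {x : ℝ} (h0 : 0 ≤ x) (h1 : x ≤ 1) :
    exp x ≤ 1 + x + x ^ 2 / 2 + x ^ 3 / 6 + x ^ 4 / 24 + x ^ 5 / 120 + x ^ 6 / 720 + x ^ 7 / 4410 := by
  have h := Real.exp_bound' h0 h1 (n := 7) (by norm_num)
  refine h.trans (le_of_eq ?_)
  simp only [Finset.sum_range_succ, Finset.sum_range_zero, Nat.factorial]
  norm_num
  ring

/-- Upper bound of the exponential function on `[0, 1]`. -/
theorem exp_up3 {x : ℝ} (h0 : 0 ≤ x) (h1 : x ≤ 1) :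
    exp x ≤ 1 + x + x ^ 2 / 2 + 2 * x ^ 3 / 9 := by
  have h := Real.exp_bound' h0 h1 (n := 3) (by norm_num)
  refine h.trans (le_of_eq ?_)
  simp only [Finset.sum_range_succ, Finset.sum_range_zero, Nat.factorial]
  norm_num
  ring

/-- Lower bound of the exponential function. -/
theorem exp_lo {x : ℝ} (h0 : 0 ≤ x) :
    1 + x + x ^ 2 / 2 + x ^ 3 / 6 + x ^ 4 / 24 + x ^ 5 / 120 ≤ exp x := by
  have h := Real.sum_le_exp_of_nonneg h0 6
  refine le_trans (le_of_eq ?_) h
  simp only [Finset.sum_range_succ, Finset.sum_range_zero, Nat.factorial]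
  norm_num

theorem om_bounds (Om : ℝ) (h : Om * Real.exp Om = 1) : 567 / 1000 < Om ∧ Om < 568 / 1000 := by
  have hpos : 0 < Om := by
    by_contra hc
    have := mul_nonpos_of_nonpos_of_nonneg (not_lt.1 hc) (Real.exp_pos Om).le
    linarith
  constructor
  · by_contra hc
    push Not at hc
    have h1 : exp Om ≤ exp (567 / 1000) := Real.exp_le_exp.2 hc
    have h2 : exp (567 / 1000 : ℝ) < 1000 / 567 :=
      lt_of_le_of_lt (exp_up7 (by norm_num) (by norm_num)) (by norm_num)
    have h3 : Om * exp Om ≤ 567 / 1000 * exp Om := mul_le_mul_of_nonneg_right hc (Real.exp_pos _).le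
    linarith
  · by_contra hc
    push Not at hc
    have h1 : exp (568 / 1000) ≤ exp Om := Real.exp_le_exp.2 hc
    have h2 : 1000 / 568 < exp (568 / 1000 : ℝ) :=
      lt_of_lt_of_le (by norm_num) (exp_lo (x := 568 / 1000) (by norm_num))
    have h3 : 568 / 1000 * exp Om ≤ Om * exp Om := mul_le_mul_of_nonneg_right hc (Real.exp_pos _).le
    linarith

theorem exp_neg_om {Om : ℝ} (h : Om * Real.exp Om = 1) : exp (-Om) = Om := by
  rw [Real.exp_neg]
  exact (eq_inv_of_mul_eq_one_left h).symm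

theorem om : S_OM := by
  have hc : ContinuousOn (fun x : ℝ => x * exp x) (Set.Icc (567 / 1000) (568 / 1000)) := by
    fun_prop
  have h1 : (1 : ℝ) ∈ Set.Icc ((567 / 1000 : ℝ) * exp (567 / 1000))
      ((568 / 1000 : ℝ) * exp (568 / 1000)) := by
    have h2 : exp (567 / 1000 : ℝ) < 1000 / 567 :=
      lt_of_le_of_lt (exp_up7 (by norm_num) (by norm_num)) (by norm_num)
    have h3 : 1000 / 568 < exp (568 / 1000 : ℝ) :=
      lt_of_lt_of_le (by norm_num) (exp_lo (x := 568 / 1000) (by norm_num))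
    constructor <;> linarith
  obtain ⟨Om, -, hOm⟩ := intermediate_value_Icc (by norm_num) hc h1
  have hOm' : Om * exp Om = 1 := hOm
  refine ⟨Om, ⟨hOm', om_bounds Om hOm'⟩, ?_⟩
  intro y hy
  have hb := om_bounds Om hOm'
  have hb' := om_bounds y hy
  rcases lt_trichotomy y Om with hlt | heq | hgt
  · exfalso
    have h4 : exp y < exp Om := Real.exp_lt_exp.2 hlt
    have h5 : y * exp y < Om * exp Om :=
      mul_lt_mul hlt h4.le (Real.exp_pos _) (by linarith)
    linarith
  · exact heq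
  · exfalso
    have h4 : exp Om < exp y := Real.exp_lt_exp.2 hgt
    have h5 : Om * exp Om < y * exp y :=
      mul_lt_mul hgt h4.le (Real.exp_pos _) (by linarith)
    linarith

theorem ps_mono {Om h x : ℝ} (hx : h ≤ x) : ps Om h ≤ ps Om x := by
  unfold ps
  split_ifs <;> linarith

theorem n0 : S_N0 := by
  intro Om hOm x hx0 hx1
  obtain ⟨hb1, hb2⟩ := om_bounds Om hOm
  have h1 : -(42 / 1000 * Om * x) ≤ ps Om x * x := by
    unfold ps
    split_ifs with h
    · nlinarith
    · push Not at h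
      have h2 : 0 ≤ 7 / 100 * (x - Om) * x := by
        apply mul_nonneg _ hx0
        linarith
      nlinarith [mul_nonneg (by linarith : (0:ℝ) ≤ Om) hx0]
  have h2 : 0 ≤ 2 * (1 - exp (-x)) - x * exp (-x) - Om * x - 42 / 1000 * Om * x := by
    have e1 : exp (-x) * exp x = 1 := by rw [← Real.exp_add]; simp
    have h3 : 2 + x ≤ exp x * (2 - 1042 / 1000 * Om * x) := by
      have h4 := exp_lo hx0
      have h5 : 1 + x + x ^ 2 / 2 + x ^ 3 / 6 ≤ exp x := by
        have : 0 ≤ x ^ 4 / 24 + x ^ 5 / 120 := by positivity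
        linarith
      have h6 : 0 ≤ 2 - 1042 / 1000 * Om * x := by nlinarith
      have h7 : 2 - 592 / 1000 * x ≤ 2 - 1042 / 1000 * Om * x := by nlinarith
      have h8 : 0 ≤ 2 - 592 / 1000 * x := by linarith
      calc 2 + x ≤ (1 + x + x ^ 2 / 2 + x ^ 3 / 6) * (2 - 592 / 1000 * x) := by
            have : 0 ≤ x * (408 / 1000 + 408 / 1000 * x + 37 / 1000 * x ^ 2 - 99 / 1000 * x ^ 3) := by
              apply mul_nonneg hx0
              have : x ^ 3 ≤ 1 := pow_le_one₀ hx0 hx1
              nlinarith [sq_nonneg x]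
            nlinarith [pow_nonneg hx0 3, pow_nonneg hx0 4]
        _ ≤ exp x * (2 - 592 / 1000 * x) := mul_le_mul_of_nonneg_right h5 h8
        _ ≤ exp x * (2 - 1042 / 1000 * Om * x) := mul_le_mul_of_nonneg_left h7 (Real.exp_pos x).le
    have h4 := mul_le_mul_of_nonneg_left h3 (Real.exp_pos (-x)).le
    have h5 : exp (-x) * (exp x * (2 - 1042 / 1000 * Om * x)) = 2 - 1042 / 1000 * Om * x := by
      rw [← mul_assoc, e1, one_mul]
    rw [h5] at h4
    nlinarith
  unfold F0
  linarith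

theorem cc_eq (Om x : ℝ) : cc Om x = -2 * Om - Om ^ 2 + Om * x + exp (-x) * (2 - Om + x) := by
  unfold cc F0
  ring

theorem cc_nonpos {Om x : ℝ} (hOm : Om * Real.exp Om = 1) (hx0 : 0 ≤ x) (hx : x ≤ Om) :
    cc Om x ≤ 0 := by
  obtain ⟨hb1, hb2⟩ := om_bounds Om hOm
  have e1 : exp (-x) = Om * exp (Om - x) := by
    rw [show -x = -Om + (Om - x) by ring, Real.exp_add, exp_neg_om hOm]
  rw [cc_eq, e1]
  have h1 := exp_up3 (x := Om - x) (by linarith) (by linarith)
  set p := Om - x with hp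
  have hp0 : 0 ≤ p := by rw [hp]; linarith
  have hp1 : p ≤ 568 / 1000 := by rw [hp]; linarith
  have h2 : exp p * (2 - p) ≤ 2 + p := by
    have h3 := mul_le_mul_of_nonneg_right h1 (by linarith : (0:ℝ) ≤ 2 - p)
    nlinarith [pow_nonneg hp0 3, pow_nonneg hp0 4]
  have h3 : Om * (exp p * (2 - p)) ≤ Om * (2 + p) := mul_le_mul_of_nonneg_left h2 (by linarith)
  have hx' : x = Om - p := by rw [hp]; ring
  rw [hx']
  nlinarith

theorem cc_om {Om : ℝ} (hOm : Om * Real.exp Om = 1) : cc Om Om = 0 := by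
  rw [cc_eq, exp_neg_om hOm]; ring

/-- the function of the first range -/
theorem r_anti {Om : ℝ} (hOm : Om * Real.exp Om = 1) :
    AntitoneOn (fun x : ℝ => 42 / 1000 * (x - Om) * (1 - x) + (Om - 1 / 2) * exp (-x))
      (Set.Icc 0 Om) := by
  obtain ⟨hb1, hb2⟩ := om_bounds Om hOm
  have hder : ∀ x : ℝ, HasDerivAt
      (fun x : ℝ => 42 / 1000 * (x - Om) * (1 - x) + (Om - 1 / 2) * exp (-x))
      (42 / 1000 * (1 + Om - 2 * x) - (Om - 1 / 2) * exp (-x)) x := by
    intro x
    have h1 : HasDerivAt (fun x : ℝ => exp (-x)) (exp (-x) * (-1)) x :=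
      (hasDerivAt_neg x).exp
    have h2 : HasDerivAt (fun x : ℝ => 42 / 1000 * (x - Om) * (1 - x))
        (42 / 1000 * 1 * (1 - x) + 42 / 1000 * (x - Om) * (-1)) x := by
      have h3 : HasDerivAt (fun x : ℝ => 42 / 1000 * (x - Om)) (42 / 1000 * 1) x :=
        ((hasDerivAt_id x).sub_const Om).const_mul _
      have h4 : HasDerivAt (fun x : ℝ => 1 - x) (-1) x := by
        simpa using (hasDerivAt_id x).const_sub 1
      exact h3.mul h4
    have h5 := h2.add (h1.const_mul (Om - 1 / 2))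
    exact h5.congr_deriv (by ring)
  refine antitoneOn_of_deriv_nonpos (convex_Icc 0 Om)
    (fun x _ => (hder x).continuousAt.continuousWithinAt)
    (fun x _ => (hder x).differentiableAt.differentiableWithinAt) ?_
  intro x hx
  rw [interior_Icc] at hx
  rw [(hder x).deriv]
  have h1 : 1 - x ≤ exp (-x) := by
    have := Real.add_one_le_exp (-x)
    linarith
  have h2 : (Om - 1 / 2) * (1 - x) ≤ (Om - 1 / 2) * exp (-x) :=
    mul_le_mul_of_nonneg_left h1 (by linarith)
  nlinarith [hx.1, hx.2]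

/-- the function of the second range -/
theorem g_anti {Om : ℝ} (hOm : Om * Real.exp Om = 1) :
    AntitoneOn (fun x : ℝ => cc Om x + 7 / 100 * (x - Om) * (1 - x) + (Om - 1 / 2) * exp (-x))
      (Set.Icc Om 1) := by
  obtain ⟨hb1, hb2⟩ := om_bounds Om hOm
  have hfun : (fun x : ℝ => cc Om x + 7 / 100 * (x - Om) * (1 - x) + (Om - 1 / 2) * exp (-x)) =
      (fun x : ℝ => 7 / 100 * (x - Om) * (1 - x) + (-2 * Om - Om ^ 2 + Om * x) +
        exp (-x) * (3 / 2 + x)) := by
    funext x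
    rw [cc_eq]; ring
  rw [hfun]
  have hder : ∀ x : ℝ, HasDerivAt
      (fun x : ℝ => 7 / 100 * (x - Om) * (1 - x) + (-2 * Om - Om ^ 2 + Om * x) +
        exp (-x) * (3 / 2 + x))
      (7 / 100 * (1 + Om - 2 * x) + Om - exp (-x) * (1 / 2 + x)) x := by
    intro x
    have h1 : HasDerivAt (fun x : ℝ => exp (-x)) (exp (-x) * (-1)) x :=
      (hasDerivAt_neg x).exp
    have h2 : HasDerivAt (fun x : ℝ => 7 / 100 * (x - Om) * (1 - x))
        (7 / 100 * 1 * (1 - x) + 7 / 100 * (x - Om) * (-1)) x := by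
      have h3 : HasDerivAt (fun x : ℝ => 7 / 100 * (x - Om)) (7 / 100 * 1) x :=
        ((hasDerivAt_id x).sub_const Om).const_mul _
      have h4 : HasDerivAt (fun x : ℝ => 1 - x) (-1) x := by
        simpa using (hasDerivAt_id x).const_sub 1
      exact h3.mul h4
    have h6 : HasDerivAt (fun x : ℝ => -2 * Om - Om ^ 2 + Om * x) (Om * 1) x :=
      ((hasDerivAt_id x).const_mul Om).const_add _
    have h7 : HasDerivAt (fun x : ℝ => 3 / 2 + x) 1 x := (hasDerivAt_id x).const_add _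
    have h5 := (h2.add h6).add (h1.mul h7)
    exact h5.congr_deriv (by ring)
  refine antitoneOn_of_deriv_nonpos (convex_Icc Om 1)
    (fun x _ => (hder x).continuousAt.continuousWithinAt)
    (fun x _ => (hder x).differentiableAt.differentiableWithinAt) ?_
  intro x hx
  rw [interior_Icc] at hx
  rw [(hder x).deriv]
  have hx0 : 567 / 1000 ≤ x := by linarith [hx.1]
  have hx1 : x ≤ 1 := hx.2.le
  have h1 := exp_up (x := x) (by linarith) hx1
  have h2 : (67776 / 100000 - 14 / 100 * x) * exp x ≤ 1 / 2 + x := by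
    refine (mul_le_mul_of_nonneg_left h1 (by linarith)).trans ?_
    have ha : 0 ≤ x - 567 / 1000 := by linarith
    have hb : 0 ≤ 1 - x := by linarith
    nlinarith [pow_nonneg ha 6, pow_nonneg hb 6, mul_nonneg ha (pow_nonneg hb 5),
      mul_nonneg (pow_nonneg ha 2) (pow_nonneg hb 4), mul_nonneg (pow_nonneg ha 3) (pow_nonneg hb 3),
      mul_nonneg (pow_nonneg ha 4) (pow_nonneg hb 2), mul_nonneg (pow_nonneg ha 5) hb]
  have e1 : exp (-x) * exp x = 1 := by rw [← Real.exp_add]; simp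
  have h3 : 67776 / 100000 - 14 / 100 * x ≤ exp (-x) * (1 / 2 + x) := by
    have h4 := mul_le_mul_of_nonneg_left h2 (Real.exp_pos (-x)).le
    have h5 : exp (-x) * ((67776 / 100000 - 14 / 100 * x) * exp x) =
        67776 / 100000 - 14 / 100 * x := by
      calc _ = (67776 / 100000 - 14 / 100 * x) * (exp (-x) * exp x) := by ring
        _ = _ := by rw [e1, mul_one]
    linarith
  linarith

theorem n1 : S_N1 := by
  intro Om hOm h x A hh0 hhx hx1 hA0 hA1
  obtain ⟨hb1, hb2⟩ := om_bounds Om hOm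
  have hps := ps_mono (Om := Om) hhx
  -- it suffices to take `A = 1`
  suffices H : cc Om x + ps Om x * (1 - x) + (Om - 1 / 2) * Real.exp (-x) ≤
      max (cc Om h) 0 + ps Om h * (1 - h) + (Om - 1 / 2) * Real.exp (-h) by
    have h1 : (1 - A) * ps Om h ≤ (1 - A) * ps Om x := mul_le_mul_of_nonneg_left hps (by linarith)
    nlinarith
  have hm0 : 0 ≤ max (cc Om h) 0 := le_max_right _ _
  have hm1 : cc Om h ≤ max (cc Om h) 0 := le_max_left _ _
  -- the value for `x` at most `Om`
  have hr : ∀ y z : ℝ, 0 ≤ y → y ≤ z → z ≤ Om →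
      42 / 1000 * (z - Om) * (1 - z) + (Om - 1 / 2) * exp (-z) ≤
        42 / 1000 * (y - Om) * (1 - y) + (Om - 1 / 2) * exp (-y) := fun y z h1 h2 h3 =>
    r_anti hOm ⟨h1, h2.trans h3⟩ ⟨h1.trans h2, h3⟩ h2
  have hg : ∀ y z : ℝ, Om ≤ y → y ≤ z → z ≤ 1 →
      cc Om z + 7 / 100 * (z - Om) * (1 - z) + (Om - 1 / 2) * exp (-z) ≤
        cc Om y + 7 / 100 * (y - Om) * (1 - y) + (Om - 1 / 2) * exp (-y) := fun y z h1 h2 h3 =>
    g_anti hOm ⟨h1, h2.trans h3⟩ ⟨h1.trans h2, h3⟩ h2
  have hps1 : ∀ y, y ≤ Om → ps Om y = 42 / 1000 * (y - Om) := fun y hy => by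
    unfold ps; rw [if_pos hy]
  have hps2 : ∀ y, Om ≤ y → ps Om y = 7 / 100 * (y - Om) := fun y hy => by
    unfold ps
    split_ifs with h
    · have : y = Om := le_antisymm h hy
      rw [this]; ring
    · rfl
  rcases le_total x Om with hxo | hxo
  · have h1 := cc_nonpos hOm (hh0.trans hhx) hxo
    have h2 := hr h x hh0 hhx hxo
    rw [hps1 x hxo, hps1 h (hhx.trans hxo)]
    linarith
  · rcases le_total h Om with hho | hho
    · have h1 := hr h Om hh0 hho le_rfl
      have h2 := hg Om x le_rfl hxo hx1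
      rw [cc_om hOm] at h2
      rw [hps2 x hxo, hps1 h hho]
      linarith
    · have h2 := hg h x hho hhx hx1
      rw [hps2 x hxo, hps2 h hho]
      linarith

end Pool.Agent.H70.CG.NUMA
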