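import Pool.Agent.H70.CG.Stm3

/-!
# Numerical inequality II (task CG/NUMB)
-/

namespace Pool.Agent.H70.CG.NUMB

open Finset

/-- upper bound for `exp` of degree 4 -/
theorem exp_le4 (x : ℝ) (h0 : 0 ≤ x) (h1 : x ≤ 1) :
    Real.exp x ≤ 1 + x + x ^ 2 / 2 + x ^ 3 / 6 + x ^ 4 * 5 / 96 := by
  have h := Real.exp_bound' h0 h1 (n := 4) (by norm_num)
  have e : (∑ m ∈ range 4, x ^ m / (m.factorial : ℝ)) + x ^ 4 * ((4 : ℕ) + 1) /
      (((4 : ℕ).factorial : ℝ) * (4 : ℕ)) =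
      1 + x + x ^ 2 / 2 + x ^ 3 / 6 + x ^ 4 * 5 / 96 := by
    simp [Finset.sum_range_succ, Nat.factorial]
    ring
  rw [← e]
  exact h

theorem exp_le7 (x : ℝ) (h0 : 0 ≤ x) (h1 : x ≤ 1) :
    Real.exp x ≤ 1 + x + x ^ 2 / 2 + x ^ 3 / 6 + x ^ 4 / 24 + x ^ 5 / 120 + x ^ 6 * 7 / 4320 := by
  have h := Real.exp_bound' h0 h1 (n := 6) (by norm_num)
  have e : (∑ m ∈ range 6, x ^ m / (m.factorial : ℝ)) + x ^ 6 * ((6 : ℕ) + 1) /
      (((6 : ℕ).factorial : ℝ) * (6 : ℕ)) =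
      1 + x + x ^ 2 / 2 + x ^ 3 / 6 + x ^ 4 / 24 + x ^ 5 / 120 + x ^ 6 * 7 / 4320 := by
    simp [Finset.sum_range_succ, Nat.factorial]
    ring
  rw [← e]
  exact h

theorem le_exp5 (x : ℝ) (h0 : 0 ≤ x) :
    1 + x + x ^ 2 / 2 + x ^ 3 / 6 + x ^ 4 / 24 ≤ Real.exp x := by
  have h := Real.sum_le_exp_of_nonneg h0 5
  have e : (∑ m ∈ range 5, x ^ m / (m.factorial : ℝ)) =
      1 + x + x ^ 2 / 2 + x ^ 3 / 6 + x ^ 4 / 24 := by
    simp [Finset.sum_range_succ, Nat.factorial]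
  rw [← e]
  exact h

/-- bound for `exp (-q)` -/
theorem exp_neg_le (q : ℝ) (h0 : 0 ≤ q) (h1 : q ≤ 1) :
    Real.exp (-q) ≤ 1 - q + q ^ 2 / 2 - q ^ 3 / 6 + q ^ 4 / 24 + q ^ 5 / 100 := by
  have h := Real.exp_bound (x := -q) (by rw [abs_neg, abs_of_nonneg h0]; exact h1) (n := 5)
    (by norm_num)
  have h2 := (abs_le.1 h).2
  rw [abs_neg, abs_of_nonneg h0] at h2
  have e : (∑ m ∈ range 5, (-q) ^ m / (m.factorial : ℝ)) =
      1 - q + q ^ 2 / 2 - q ^ 3 / 6 + q ^ 4 / 24 := by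
    simp [Finset.sum_range_succ, Nat.factorial]
    ring
  have e2 : q ^ 5 * (((5 : ℕ).succ : ℝ) / ((((5 : ℕ).factorial : ℝ)) * ((5 : ℕ) : ℝ))) =
      q ^ 5 / 100 := by
    simp [Nat.factorial]
    ring
  rw [e] at h2
  rw [e2] at h2
  linarith

theorem om_lo (Om : ℝ) (h : Om * Real.exp Om = 1) : 567 / 1000 < Om := by
  have hpos : 0 < Om := by
    by_contra hc
    push Not at hc
    have : Om * Real.exp Om ≤ 0 := mul_nonpos_of_nonpos_of_nonneg hc (Real.exp_pos _).le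
    linarith
  by_contra hc
  push Not at hc
  have h1 : Real.exp Om ≤ Real.exp (567 / 1000) := Real.exp_le_exp.2 hc
  have h2 := exp_le7 (567 / 1000) (by norm_num) (by norm_num)
  have h3 : Om * Real.exp Om ≤ 567 / 1000 * Real.exp (567 / 1000) :=
    mul_le_mul hc h1 (Real.exp_pos _).le (by norm_num)
  have h4 : (567 / 1000 : ℝ) * Real.exp (567 / 1000) < 1 := by
    refine lt_of_le_of_lt (mul_le_mul_of_nonneg_left h2 (by norm_num)) ?_
    norm_num
  linarith

theorem om_hi (Om : ℝ) (h : Om * Real.exp Om = 1) : Om < 568 / 1000 := by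
  by_contra hc
  push Not at hc
  have h1 : Real.exp (568 / 1000) ≤ Real.exp Om := Real.exp_le_exp.2 hc
  have h2 := le_exp5 (568 / 1000) (by norm_num)
  have h3 : (568 / 1000 : ℝ) * Real.exp (568 / 1000) ≤ Om * Real.exp Om :=
    mul_le_mul hc h1 (Real.exp_pos _).le (by linarith)
  have h4 : 1 < (568 / 1000 : ℝ) * Real.exp (568 / 1000) := by
    refine lt_of_lt_of_le ?_ (mul_le_mul_of_nonneg_left h2 (by norm_num))
    norm_num
  linarith

theorem exp_neg_om (Om : ℝ) (h : Om * Real.exp Om = 1) : Real.exp (-Om) = Om := by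
  rw [Real.exp_neg]
  have hp := Real.exp_pos Om
  field_simp
  linarith

theorem cc_eq (Om x : ℝ) (h : Om * Real.exp Om = 1) :
    cc Om x = Om * (Real.exp (-(x - Om)) * (2 + (x - Om)) - (2 - (x - Om))) := by
  have e : Real.exp (-x) = Om * Real.exp (-(x - Om)) := by
    have : -x = -Om + -(x - Om) := by ring
    rw [this, Real.exp_add, exp_neg_om Om h]
  unfold cc F0
  rw [e]
  ring

theorem cc_nonpos (Om x : ℝ) (h : Om * Real.exp Om = 1) (hx0 : 0 ≤ x) (hx : x ≤ Om) :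
    cc Om x ≤ 0 := by
  have h1 := om_lo Om h
  have h2 := om_hi Om h
  rw [cc_eq Om x h]
  set P := Om - x with hP
  have hP0 : 0 ≤ P := by linarith
  have hP1 : P ≤ 568 / 1000 := by linarith
  have e1 : -(x - Om) = P := by rw [hP]; ring
  have e2 : 2 + (x - Om) = 2 - P := by rw [hP]; ring
  have e3 : 2 - (x - Om) = 2 + P := by rw [hP]; ring
  rw [e1, e2, e3]
  have h3 := exp_le4 P hP0 (by linarith)
  have h4 : Real.exp P * (2 - P) ≤
      (1 + P + P ^ 2 / 2 + P ^ 3 / 6 + P ^ 4 * 5 / 96) * (2 - P) :=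
    mul_le_mul_of_nonneg_right h3 (by linarith)
  have h5 : (1 + P + P ^ 2 / 2 + P ^ 3 / 6 + P ^ 4 * 5 / 96) * (2 - P) ≤ 2 + P := by
    have hP3 : 0 ≤ P ^ 3 := by positivity
    have : (1 + P + P ^ 2 / 2 + P ^ 3 / 6 + P ^ 4 * 5 / 96) * (2 - P) - (2 + P) =
        - (P ^ 3 * (1 / 6 + P * (1 / 16) + 5 / 96 * P ^ 2)) := by ring
    have h6 : 0 ≤ P ^ 3 * (1 / 6 + P * (1 / 16) + 5 / 96 * P ^ 2) := by positivity
    linarith
  have h7 : Real.exp P * (2 - P) - (2 + P) ≤ 0 := by linarith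
  exact mul_nonpos_of_nonneg_of_nonpos (by linarith) h7

theorem cc_le (Om x : ℝ) (h : Om * Real.exp Om = 1) (hx0 : Om ≤ x) (hx : x ≤ 1) :
    cc Om x ≤ 352 / 10000 * (x - Om) ^ 2 := by
  have h1 := om_lo Om h
  have h2 := om_hi Om h
  rw [cc_eq Om x h]
  set q := x - Om with hq
  have hq0 : 0 ≤ q := by linarith
  have hq1 : q ≤ 433 / 1000 := by linarith
  have h3 := exp_neg_le q hq0 (by linarith)
  have h4 : Real.exp (-q) * (2 + q) ≤
      (1 - q + q ^ 2 / 2 - q ^ 3 / 6 + q ^ 4 / 24 + q ^ 5 / 100) * (2 + q) :=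
    mul_le_mul_of_nonneg_right h3 (by linarith)
  have h5 : (1 - q + q ^ 2 / 2 - q ^ 3 / 6 + q ^ 4 / 24 + q ^ 5 / 100) * (2 + q) - (2 - q) =
      q ^ 2 * (q / 6 - q ^ 2 / 12 + (1 / 24 + 1 / 50) * q ^ 3 + q ^ 4 / 100) := by ring
  have h6 : q / 6 - q ^ 2 / 12 + (1 / 24 + 1 / 50) * q ^ 3 + q ^ 4 / 100 ≤ 61941 / 1000000 := by
    have a2 : q ^ 2 ≤ 433 / 1000 * q := by nlinarith
    have a3 : q ^ 3 ≤ (433 / 1000) ^ 2 * q := by nlinarith
    have a4 : q ^ 4 ≤ (433 / 1000) ^ 3 * q := by nlinarith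
    nlinarith
  have h7 : Real.exp (-q) * (2 + q) - (2 - q) ≤ q ^ 2 * (61941 / 1000000) := by
    have : q ^ 2 * (q / 6 - q ^ 2 / 12 + (1 / 24 + 1 / 50) * q ^ 3 + q ^ 4 / 100) ≤
        q ^ 2 * (61941 / 1000000) := mul_le_mul_of_nonneg_left h6 (by positivity)
    linarith
  have h8 : Om * (Real.exp (-q) * (2 + q) - (2 - q)) ≤ Om * (q ^ 2 * (61941 / 1000000)) :=
    mul_le_mul_of_nonneg_left h7 (by linarith)
  have h9 : Om * (q ^ 2 * (61941 / 1000000)) ≤ 568 / 1000 * (q ^ 2 * (61941 / 1000000)) :=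
    mul_le_mul_of_nonneg_right h2.le (by positivity)
  have h10 : 0 ≤ q ^ 2 := by positivity
  linarith

theorem exp_neg_eq (Om x : ℝ) (h : Om * Real.exp Om = 1) :
    Real.exp (-x) = Om * Real.exp (-(x - Om)) := by
  have : -x = -Om + -(x - Om) := by ring
  rw [this, Real.exp_add, exp_neg_om Om h]

/-- one term, both above -/
theorem term_hi (Om h k : ℝ) (hO : Om * Real.exp Om = 1) (h0 : Om ≤ h) (h1 : h ≤ 1)
    (k0 : Om ≤ k) : max (cc Om h) 0 + ps Om h * (Real.exp (-k) - h) ≤ 0 := by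
  have b1 := om_lo Om hO
  have b2 := om_hi Om hO
  have hc := cc_le Om h hO h0 h1
  have hps : ps Om h = 7 / 100 * (h - Om) := by
    unfold ps
    split_ifs with hh
    · have : h = Om := le_antisymm hh h0
      rw [this]; ring
    · rfl
  have hk : Real.exp (-k) ≤ Om := by
    have : Real.exp (-k) ≤ Real.exp (-Om) := Real.exp_le_exp.2 (by linarith)
    rwa [exp_neg_om Om hO] at this
  rw [hps]
  have hm : max (cc Om h) 0 ≤ 352 / 10000 * (h - Om) ^ 2 := by
    apply max_le hc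
    positivity
  have h5 : 7 / 100 * (h - Om) * (Real.exp (-k) - h) ≤ 7 / 100 * (h - Om) * (Om - h) :=
    mul_le_mul_of_nonneg_left (by linarith) (by linarith)
  nlinarith [sq_nonneg (h - Om)]

/-- one term, both below -/
theorem term_lo (Om h k : ℝ) (hO : Om * Real.exp Om = 1) (h0 : 0 ≤ h) (h1 : h ≤ Om)
    (k0 : k ≤ Om) : max (cc Om h) 0 + ps Om h * (Real.exp (-k) - h) ≤ 0 := by
  have hc := cc_nonpos Om h hO h0 h1
  have hps : ps Om h = 42 / 1000 * (h - Om) := by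
    unfold ps
    rw [if_pos h1]
  have hk : Om ≤ Real.exp (-k) := by
    have : Real.exp (-Om) ≤ Real.exp (-k) := Real.exp_le_exp.2 (by linarith)
    rwa [exp_neg_om Om hO] at this
  rw [hps, max_eq_right hc]
  have : 42 / 1000 * (h - Om) * (Real.exp (-k) - h) ≤ 0 :=
    mul_nonpos_of_nonpos_of_nonneg (by linarith) (by linarith)
  linarith

/-- mixed case -/
theorem mixed (Om h k : ℝ) (hO : Om * Real.exp Om = 1) (h0 : 0 ≤ h) (h1 : h ≤ Om)
    (k0 : Om ≤ k) (k1 : k ≤ 1) :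
    max (cc Om h) 0 + ps Om h * (Real.exp (-k) - h) +
      (max (cc Om k) 0 + ps Om k * (Real.exp (-h) - k)) ≤ 0 := by
  have b1 := om_lo Om hO
  have b2 := om_hi Om hO
  have hc := cc_nonpos Om h hO h0 h1
  have kc := cc_le Om k hO k0 k1
  have hps : ps Om h = 42 / 1000 * (h - Om) := by
    unfold ps
    rw [if_pos h1]
  have kps : ps Om k = 7 / 100 * (k - Om) := by
    unfold ps
    split_ifs with hh
    · have : k = Om := le_antisymm hh k0
      rw [this]; ring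
    · rfl
  rw [hps, kps, max_eq_right hc, exp_neg_eq Om k hO, exp_neg_eq Om h hO]
  have hm : max (cc Om k) 0 ≤ 352 / 10000 * (k - Om) ^ 2 := by
    apply max_le kc
    positivity
  set P := Om - h with hP
  set q := k - Om with hq
  have eP : -(h - Om) = P := by rw [hP]; ring
  have hP0 : 0 ≤ P := by linarith
  have hP1 : P ≤ 568 / 1000 := by linarith
  have hq0 : 0 ≤ q := by linarith
  have hq1 : q ≤ 433 / 1000 := by linarith
  have eh : h = Om - P := by rw [hP]; ring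
  have ek : k = Om + q := by rw [hq]; ring
  rw [eP]
  have e1 : 1 - q ≤ Real.exp (-q) := by
    have := Real.add_one_le_exp (-q)
    linarith
  have e2 : Real.exp P ≤ 1 + P + 612 / 1000 * P ^ 2 := by
    have h3 := exp_le4 P hP0 (by linarith)
    have h4 : P ^ 2 * (1 / 2 + P / 6 + 5 / 96 * P ^ 2) ≤ P ^ 2 * (612 / 1000) := by
      apply mul_le_mul_of_nonneg_left _ (by positivity)
      nlinarith
    nlinarith
  have hOm0 : 0 ≤ Om := by linarith
  -- first term
  have t1 : 42 / 1000 * (h - Om) * (Om * Real.exp (-q) - h) ≤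
      42 / 1000 * (-P) * (P - 568 / 1000 * q) := by
    have a1 : Om * (1 - Real.exp (-q)) ≤ 568 / 1000 * q := by
      have : Om * (1 - Real.exp (-q)) ≤ Om * q := mul_le_mul_of_nonneg_left (by linarith) hOm0
      nlinarith
    have a2 : P - 568 / 1000 * q ≤ Om * Real.exp (-q) - h := by rw [eh]; linarith
    have a3 : h - Om = -P := by rw [hP]; ring
    rw [a3]
    have a4 : 42 / 1000 * P * (P - 568 / 1000 * q) ≤ 42 / 1000 * P * (Om * Real.exp (-q) - h) :=
      mul_le_mul_of_nonneg_left a2 (by positivity)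
    linarith
  have t2 : 7 / 100 * q * (Om * Real.exp P - k) ≤
      7 / 100 * q * (568 / 1000 * (P + 612 / 1000 * P ^ 2) - q) := by
    apply mul_le_mul_of_nonneg_left _ (by positivity)
    have a1 : Om * (Real.exp P - 1) ≤ 568 / 1000 * (P + 612 / 1000 * P ^ 2) := by
      have b3 : Om * (Real.exp P - 1) ≤ Om * (P + 612 / 1000 * P ^ 2) :=
        mul_le_mul_of_nonneg_left (by linarith) hOm0
      have b4 : Om * (P + 612 / 1000 * P ^ 2) ≤ 568 / 1000 * (P + 612 / 1000 * P ^ 2) :=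
        mul_le_mul_of_nonneg_right b2.le (by positivity)
      linarith
    rw [ek]
    linarith
  have t3 : q * P ^ 2 ≤ 433 / 1000 * P ^ 2 := mul_le_mul_of_nonneg_right hq1 (by positivity)
  have t4 : 352 / 10000 * q ^ 2 + 42 / 1000 * (-P) * (P - 568 / 1000 * q) +
      7 / 100 * q * (568 / 1000 * (P + 612 / 1000 * P ^ 2) - q) ≤ 0 := by
    have hs := sq_nonneg (q - 914 / 1000 * P)
    nlinarith [sq_nonneg P, sq_nonneg q]
  linarith

theorem n2 : S_N2 := by
  intro Om hO h k h0 h1 k0 k1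
  rcases le_total h Om with hh | hh
  · rcases le_total k Om with hk | hk
    · have a := term_lo Om h k hO h0 hh hk
      have b := term_lo Om k h hO k0 hk hh
      linarith
    · exact mixed Om h k hO h0 hh hk k1
  · rcases le_total k Om with hk | hk
    · have a := mixed Om k h hO k0 hk hh h1
      linarith
    · have a := term_hi Om h k hO hh h1 hk
      have b := term_hi Om k h hO hk k1 hh
      linarith

end Pool.Agent.H70.CG.NUMB
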