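import Pool.Agent.H70.CG.Stm3
import Pool.Agent.H70.CG.Base
import Pool.Agent.H70.CG.ROWR

/-!
# Discrete layer cake identity for one row
-/

namespace Pool.Agent.H70.CG.ROWI

open Finset
open Pool.Agent.H70.CG
open Pool.Agent.H70.CG.ROWR (I I_min pmax_nonneg pmax_le sum_wt_I)

theorem ind_eq (t x : ℝ) : ind t x = I x t := rfl

theorem isI_zero : IsI 0 := ⟨0, by simp⟩

theorem isI_max {x y : ℝ} (hx : IsI x) (hy : IsI y) : IsI (max x y) := by
  rcases max_choice x y with h | h
  · rw [h]; exact hx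
  · rw [h]; exact hy

theorem isI_min {x y : ℝ} (hx : IsI x) (hy : IsI y) : IsI (min x y) := by
  rcases min_choice x y with h | h
  · rw [h]; exact hx
  · rw [h]; exact hy

theorem isI_pmax {V : Type} [DecidableEq V] {T : V → ℝ} (hT : ∀ v, IsI (T v)) (S : Finset V) :
    IsI (pmax T S) := by
  unfold pmax
  induction S using Finset.induction_on with
  | empty => rw [Finset.fold_empty]; exact isI_zero
  | insert a S ha ih => rw [Finset.fold_insert ha]; exact isI_max (hT a) ih

theorem sum_ind {B : ℕ} {x : ℝ} (hx : IsI x) (hB : x ≤ B) :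
    ∑ t ∈ range B, I x (t : ℝ) = max x 0 := by
  obtain ⟨n, rfl⟩ := hx
  rcases le_or_gt n 0 with h | h
  · have h0 : ((n : ℤ) : ℝ) ≤ 0 := by exact_mod_cast h
    rw [max_eq_right h0]
    refine Finset.sum_eq_zero fun t _ => ?_
    unfold I
    rw [if_neg]
    have : (0 : ℝ) ≤ (t : ℝ) := Nat.cast_nonneg t
    exact not_lt.2 (h0.trans this)
  · obtain ⟨m, rfl⟩ := Int.eq_ofNat_of_zero_le h.le
    have hmB : m ≤ B := by
      have : ((m : ℤ) : ℝ) = (m : ℝ) := by simp
      rw [this] at hB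
      exact_mod_cast hB
    have h0 : (0 : ℝ) ≤ ((m : ℤ) : ℝ) := by exact_mod_cast h.le
    rw [max_eq_left h0]
    have h1 : ∀ t ∈ range B, I ((m : ℤ) : ℝ) (t : ℝ) = if t < m then (1 : ℝ) else 0 := by
      intro t _
      unfold I
      have : ((t : ℝ) < ((m : ℤ) : ℝ)) ↔ t < m := by
        rw [Int.cast_natCast]
        exact Nat.cast_lt
      simp only [this]
    rw [Finset.sum_congr rfl h1, Finset.sum_ite, Finset.sum_const_zero, add_zero,
      Finset.sum_const, nsmul_eq_mul, mul_one]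
    have h2 : (range B).filter (fun t => t < m) = range m := by
      ext t
      simp only [Finset.mem_filter, Finset.mem_range]
      constructor
      · rintro ⟨_, h3⟩; exact h3
      · intro h3; exact ⟨lt_of_lt_of_le h3 hmB, h3⟩
    rw [h2, Finset.card_range, Int.cast_natCast]

theorem sum_ind_sub {B : ℕ} {x y : ℝ} (hx : IsI x) (hy : IsI y) (hB : x ≤ B) (h0 : 0 ≤ y) :
    ∑ t ∈ range B, I x (t : ℝ) * (1 - I y (t : ℝ)) = max (x - y) 0 := by
  have e2 : max (x - y) 0 = max x 0 - max (min x y) 0 := by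
    rcases le_total x y with hxy | hxy
    · rw [min_eq_left hxy, sub_self, max_eq_right (by linarith)]
    · rw [min_eq_right hxy, max_eq_left (by linarith), max_eq_left (h0.trans hxy),
        max_eq_left h0]
  rw [e2, ← sum_ind hx hB, ← sum_ind (isI_min hx hy) ((min_le_left x y).trans hB),
    ← Finset.sum_sub_distrib]
  exact Finset.sum_congr rfl fun t _ => I_min x y t

theorem rowI : S_ROWI := by
  intro k V _ _ T w a B hw hT hB hTI hwI
  have hTB : ∀ v, T v ≤ (B : ℝ) := fun v => (hT v).trans (hB v)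
  have hB0 : (0 : ℝ) ≤ (B : ℝ) := Nat.cast_nonneg B
  simp only [ind_eq]
  -- pointwise identity
  have hp : ∀ S : Finset V,
      2 * pmax T S - ∑ v, a v * max (T v - pmax T S) 0 - k * ∑ v, a v * max (T v) 0 +
        k * ∑ v, a v * max (w v - pmax T S) 0 =
      ∑ t ∈ range B, ((2 - k * ∑ v, a v * I (T v) (t : ℝ)) +
        (-2 - (∑ v, a v * I (T v) (t : ℝ)) + k * ∑ v, a v * I (w v) (t : ℝ)) *
          (1 - I (pmax T S) (t : ℝ))) := by
    intro S
    have hP := isI_pmax hTI S
    have hP0 := pmax_nonneg T S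
    have hPB := pmax_le hB0 hTB S
    have h1 : 2 * pmax T S = ∑ t ∈ range B, 2 * I (pmax T S) (t : ℝ) := by
      rw [← Finset.mul_sum, sum_ind hP hPB, max_eq_left hP0]
    have h2 : ∑ v, a v * max (T v - pmax T S) 0 =
        ∑ t ∈ range B, (∑ v, a v * I (T v) (t : ℝ)) * (1 - I (pmax T S) (t : ℝ)) := by
      simp only [← sum_ind_sub (hTI _) hP (hTB _) hP0, Finset.mul_sum, Finset.sum_mul]
      rw [Finset.sum_comm]
      exact Finset.sum_congr rfl fun t _ => Finset.sum_congr rfl fun v _ => by ring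
    have h3 : ∑ v, a v * max (T v) 0 = ∑ t ∈ range B, ∑ v, a v * I (T v) (t : ℝ) := by
      simp only [← sum_ind (hTI _) (hTB _), Finset.mul_sum]
      rw [Finset.sum_comm]
    have h4 : ∑ v, a v * max (w v - pmax T S) 0 =
        ∑ t ∈ range B, (∑ v, a v * I (w v) (t : ℝ)) * (1 - I (pmax T S) (t : ℝ)) := by
      simp only [← sum_ind_sub (hwI _) hP (hB _) hP0, Finset.mul_sum, Finset.sum_mul]
      rw [Finset.sum_comm]
      exact Finset.sum_congr rfl fun t _ => Finset.sum_congr rfl fun v _ => by ring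
    rw [h1, h2, h3, h4]
    simp only [Finset.mul_sum (range B)]
    rw [← Finset.sum_sub_distrib, ← Finset.sum_sub_distrib, ← Finset.sum_add_distrib]
    exact Finset.sum_congr rfl fun t _ => by ring
  simp only [hp]
  rw [ex_sum]
  refine Finset.sum_congr rfl fun t _ => ?_
  have ht : (0 : ℝ) ≤ (t : ℝ) := Nat.cast_nonneg t
  have e2 := sum_wt_I a T ht
  set L := ∑ v, a v * I (T v) (t : ℝ) with hL
  set r := ∑ v, a v * I (w v) (t : ℝ) with hr
  rw [ex_add, ex_const, ex_mul]
  have e3 : ex (fun v => 1 - Real.exp (-(a v))) (fun S => 1 - I (pmax T S) (t : ℝ)) =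
      Real.exp (-L) := e2
  rw [e3]
  ring

end Pool.Agent.H70.CG.ROWI
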