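import Pool.Agent.H70.CG.All
import Pool.Agent.H70.CG.GMAIN
import Pool.Agent.H70.CG.NUMA
import Pool.Agent.H70.CG.NUMB
import Pool.Agent.H70.CG.ROWI
import Pool.Agent.H70.CG.LAW
import Pool.Agent.H70.CG.EDGE
import Pool.Agent.H70.CG.LIM

namespace Pool.Agent.H70.CG

theorem sm_all : S_SM := SMGS.sm EXCH.exch

theorem gs_all : S_GS := SMGS.gs EXCH.exch

theorem law_all : S_LAW := LAW.law INS.ins RES.res

theorem sub_all : S_SUB := EDGE.sub sm_all RES.tr

theorem edge_all : S_EDGE := EDGE.edge NUMA.n1 law_all sub_all LAW.int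

theorem side2_all : S_SIDE2 := SIDE2.side2 sm_all gs_all INS.ins INS.ins2 INS.dec ROWB.rowB
  ROWI.rowI LAW.int RES.res

theorem gint_all : S_GINT := GMAIN.gint NUMA.n0 NUMB.n2 RES.tr LAW.int law_all edge_all side2_all

/-- The exact correlation gap of bipartite matchings. -/
theorem gamma_all : S_GAMMA := LIM.lim RES.mono gint_all

end Pool.Agent.H70.CG
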