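import Pool.Agent.H70.CG.Stm3

/-!
# Quadratic gain for Bernoulli edges, and the upper bound for the uniform matrix: statements
-/

namespace Pool.Agent.H70.CG

open Finset

/-- the unit weights -/
def one1 {U V : Type} : U → V → ℝ := fun _ _ => 1

/-- rates `c` on `I × J`, zero elsewhere -/
noncomputable def aa {N : ℕ} (c : ℝ) (I J : Finset (Fin N)) : Fin N → Fin N → ℝ :=
  fun u v => if u ∈ I ∧ v ∈ J then c else 0

/-- expected maximum matching of the Poissonised graph on `I × J` -/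
noncomputable def NU {N : ℕ} (c : ℝ) (I J : Finset (Fin N)) : ℝ := ex (pr (aa c I J)) (nu one1)

/-- Bernoulli edges against Poissonised edges. -/
def S_STR : Prop := ∀ (U V : Type) [Fintype U] [Fintype V] [DecidableEq U] [DecidableEq V]
  (a w : U → V → ℝ), (∀ u v, 0 ≤ a u v) → (∀ u, ∑ v, a u v ≤ 1) → (∀ v, ∑ u, a u v ≤ 1) →
  (∀ u v, 0 ≤ w u v) →
  ex (pr a) (nu w) + (∑ u, ∑ v, w u v * a u v ^ 2) / 41 ≤ ex (fun e : U × V => a e.1 e.2) (nu w)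

/-- Invariance of the expectations. -/
def S_INV : Prop := ∀ (N : ℕ) (c : ℝ),
  (∀ I J I' J' : Finset (Fin N), I.card = I'.card → J.card = J'.card → NU c I J = NU c I' J') ∧
  (∀ I J : Finset (Fin N), NU c I J = NU c J I) ∧
  (∀ (I J : Finset (Fin N)) (u : Fin N),
    ex (pr (aa c I J)) (fun G => nu one1 (delR G u)) = NU c (I.erase u) J) ∧
  (∀ (I J : Finset (Fin N)) (u v : Fin N),
    ex (pr (aa c I J)) (fun G => nu one1 (delC (delR G u) v)) = NU c (I.erase u) (J.erase v)) ∧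
  (∀ I : Finset (Fin N), NU c I ∅ = 0)

/-- The recursion for the increments. -/
def S_REC : Prop := ∀ (N : ℕ) (c : ℝ), 0 ≤ c → ∃ z : ℕ → ℝ, (∀ k, 0 ≤ z k ∧ z k ≤ 1) ∧ z 0 = 0 ∧
  (∀ k, 1 ≤ k → k < 2 * N →
    z k ≤ 1 - Real.exp (-(c * (((k + 1) / 2 : ℕ) : ℝ) * (1 - z (k - 1))))) ∧
  ex (fun _ : Fin N × Fin N => 1 - Real.exp (-c)) (nu one1) = ∑ k ∈ range (2 * N), z k

/-- The sum of the increments. -/
def S_SUM : Prop := ∀ Om : ℝ, Om * Real.exp Om = 1 → ∀ (N : ℕ) (c : ℝ), 2 ≤ N →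
  Real.exp (-c) = 1 - 1 / N → ∀ z : ℕ → ℝ, (∀ k, 0 ≤ z k ∧ z k ≤ 1) → z 0 = 0 →
  (∀ k, 1 ≤ k → k < 2 * N →
    z k ≤ 1 - Real.exp (-(c * (((k + 1) / 2 : ℕ) : ℝ) * (1 - z (k - 1))))) →
  ∑ k ∈ range (2 * N), z k ≤ (2 - 2 * Om - Om ^ 2) * N + 3 / 5

/-- The upper bound for the uniform matrix. -/
def S_UPP : Prop := ∀ Om : ℝ, Om * Real.exp Om = 1 → ∀ N : ℕ, 1 ≤ N →
  ex (fun _ : Fin N × Fin N => 1 / (N : ℝ)) (nu one1) ≤ (2 - 2 * Om - Om ^ 2) * N + 3 / 5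

/-- From a lower bound for all weights to contention resolution (minimax), general targets. -/
def S_CRSY : Prop := ∀ (E : Type) [Fintype E] [DecidableEq E] (Mat : Finset E → Prop)
  (q y : E → ℝ), Mat ∅ → (∀ e, 0 ≤ q e) → (∀ e, q e ≤ 1) →
  (∀ w : E → ℝ, (∀ e, 0 ≤ w e) → ∃ g : Finset E → Finset E, (∀ S, g S ⊆ S ∧ Mat (g S)) ∧
    ∑ e, y e * w e ≤ ex q (fun S => ∑ e ∈ g S, w e)) →
  ∃ ph : Finset E → Finset E → ℝ, (∀ S M, 0 ≤ ph S M) ∧ (∀ S, ∑ M : Finset E, ph S M = 1) ∧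
    (∀ S M, ph S M ≠ 0 → M ⊆ S ∧ Mat M) ∧
    ∀ e, y e ≤ ex q (fun S => ∑ M : Finset E, if e ∈ M then ph S M else 0)

end Pool.Agent.H70.CG
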