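import Pool.Agent.H70.CG.Stm2
import Pool.Agent.H70.CG.Stm4

/-!
# Lower bounds with a quadratic gain: statements
-/

namespace Pool.Agent.H70.CG

open Finset

/-- Correlation gap with quadratic gain, integer or real weights. -/
def S_GAPD (c d : ℝ) : Prop := ∀ (U V : Type) [Fintype U] [Fintype V]
  [DecidableEq U] [DecidableEq V] (a w : U → V → ℝ), (∀ u v, 0 ≤ a u v) →
  (∀ u, ∑ v, a u v ≤ 1) → (∀ v, ∑ u, a u v ≤ 1) → (∀ u v, 0 ≤ w u v) →
  ∑ u, ∑ v, (c * a u v + d * a u v ^ 2) * w u v ≤ ex (fun e : U × V => a e.1 e.2) (nu w)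

/-- On every bipartite graph there is a scheme that selects every edge `e` with conditional
probability at least `c + d * x e`. -/
def S_BIPD (c d : ℝ) : Prop := ∀ (V : Type) [Fintype V] [DecidableEq V] (G : SimpleGraph V)
  [DecidableRel G.Adj], G.Colorable 2 → ∀ x ∈ MatPoly G,
  ∃ ph : Finset G.edgeSet → Finset G.edgeSet → ℝ, IsScheme G ph ∧
    ∀ e, 0 < x e → c + d * x e ≤ condSel G x ph e

end Pool.Agent.H70.CG
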