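import Pool.Agent.H70.CG.LIM
import Pool.Agent.H70.CG.Stm5

namespace Pool.Agent.H70.CG.GREAL

open Finset Pool.Agent.H70.CG.LIM

/-- the correlation gap for the Poissonised graph and real weights -/
theorem greal (h : S_GINT) (Om : ℝ) (hOm : Om * Real.exp Om = 1) (U V : Type) [Fintype U]
    [Fintype V] [DecidableEq U] [DecidableEq V] (a w : U → V → ℝ) (ha : ∀ u v, 0 ≤ a u v)
    (hrow : ∀ u, ∑ v, a u v ≤ 1) (hcol : ∀ v, ∑ u, a u v ≤ 1) (hw : ∀ u v, 0 ≤ w u v) :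
    (2 - 2 * Om - Om ^ 2) * ∑ u, ∑ v, a u v * w u v ≤ ex (pr a) (nu w) := by
  have hc := gam_nonneg hOm
  set c := 2 - 2 * Om - Om ^ 2 with hcdef
  have hq0 : ∀ e, 0 ≤ pr a e := fun e => SIDE.q_nonneg (ha _ _)
  have hq1 : ∀ e, pr a e ≤ 1 := fun e => SIDE.q_le_one _
  -- the Poissonised inequality
  have hP : c * ∑ u, ∑ v, a u v * w u v ≤ ex (pr a) (nu w) := by
    by_contra hcon
    obtain ⟨N, hN⟩ := exists_nat_gt ((c * ∑ u, ∑ v, a u v) /
      (c * ∑ u, ∑ v, a u v * w u v - ex (pr a) (nu w)))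
    have hd : 0 < c * ∑ u, ∑ v, a u v * w u v - ex (pr a) (nu w) := by
      have := not_le.1 hcon
      linarith
    rw [div_lt_iff₀ hd] at hN
    set wN : U → V → ℝ := fun u v => ((⌊(N : ℝ) * w u v⌋ : ℤ) : ℝ) with hwN
    have k1 : ∀ u v, wN u v ≤ N * w u v := fun u v => Int.floor_le _
    have k2 : ∀ u v, (N : ℝ) * w u v - 1 ≤ wN u v := fun u v => (Int.sub_one_lt_floor _).le
    have k3 : ∀ u v, 0 ≤ wN u v := by
      intro u v
      have : 0 ≤ ⌊(N : ℝ) * w u v⌋ := Int.floor_nonneg.2 (mul_nonneg (Nat.cast_nonneg _) (hw u v))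
      exact Int.cast_nonneg this
    have k4 := h Om hOm U V a wN ha hrow hcol k3 (fun u v => ⟨_, rfl⟩)
    rw [← hcdef] at k4
    have k5 : ex (pr a) (nu wN) ≤ N * ex (pr a) (nu w) := by
      rw [← ex_mul]
      exact ex_mono_f hq0 hq1 fun G => nu_scale w wN N (Nat.cast_nonneg _) k1 G
    have k6 : N * (∑ u, ∑ v, a u v * w u v) - ∑ u, ∑ v, a u v ≤ ∑ u, ∑ v, a u v * wN u v := by
      rw [Finset.mul_sum, ← Finset.sum_sub_distrib]
      refine Finset.sum_le_sum fun u _ => ?_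
      rw [Finset.mul_sum, ← Finset.sum_sub_distrib]
      refine Finset.sum_le_sum fun v _ => ?_
      have := mul_le_mul_of_nonneg_left (k2 u v) (ha u v)
      linarith
    have k7 := mul_le_mul_of_nonneg_left k6 hc
    nlinarith
  exact hP

theorem gapd (h : S_GINT) (hS : S_STR) (Om : ℝ) (hOm : Om * Real.exp Om = 1) :
    S_GAPD (2 - 2 * Om - Om ^ 2) (1 / 41) := by
  intro U V _ _ _ _ a w ha hrow hcol hw
  have h1 := greal h Om hOm U V a w ha hrow hcol hw
  have h2 := hS U V a w ha hrow hcol hw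
  have h3 : ∑ u, ∑ v, ((2 - 2 * Om - Om ^ 2) * a u v + 1 / 41 * a u v ^ 2) * w u v =
      (2 - 2 * Om - Om ^ 2) * ∑ u, ∑ v, a u v * w u v + (∑ u, ∑ v, w u v * a u v ^ 2) / 41 := by
    rw [Finset.mul_sum, Finset.sum_div, ← Finset.sum_add_distrib]
    refine Finset.sum_congr rfl fun u _ => ?_
    rw [Finset.mul_sum, Finset.sum_div, ← Finset.sum_add_distrib]
    exact Finset.sum_congr rfl fun v _ => by ring
  rw [h3]
  linarith

end Pool.Agent.H70.CG.GREAL
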