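import Pool.Agent.H70.CG.Stm4
import Pool.Agent.H70.CG.RES
import Pool.Agent.H70.CG.Base

/-!
# Invariance of the expectations
-/

set_option autoImplicit false

namespace Pool.Agent.H70.CG.INV

open Finset Pool.Agent.H70.CG

section gen
variable {E E' : Type} [Fintype E] [DecidableEq E] [Fintype E'] [DecidableEq E']

/-- transport along a bijection -/
theorem ex_map (σ : E ≃ E') (q : E' → ℝ) (f : Finset E' → ℝ) :
    ex q f = ex (fun e => q (σ e)) (fun G => f (G.map σ.toEmbedding)) := by
  unfold ex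
  symm
  refine sum_bij' (fun G _ => G.map σ.toEmbedding) (fun G _ => G.map σ.symm.toEmbedding)
    (fun _ _ => mem_univ _) (fun _ _ => mem_univ _) ?_ ?_ ?_
  · intro G _
    ext e
    simp
  · intro G _
    ext e
    simp
  · intro G _
    congr 1
    rw [RES.wt_eq, RES.wt_eq, ← Equiv.prod_comp σ]
    refine prod_congr rfl fun e _ => ?_
    have hiff : e ∈ G ↔ σ e ∈ G.map σ.toEmbedding := by
      rw [mem_map_equiv, Equiv.symm_apply_apply]
    exact if_congr hiff rfl rfl

/-- only the sets of nonzero weight matter -/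
theorem ex_zero (D : Finset E) (q : E → ℝ) (f f' : Finset E → ℝ) (hq : ∀ e ∈ D, q e = 0)
    (hf : ∀ G : Finset E, (∀ e ∈ G, e ∉ D) → f G = f' G) : ex q f = ex q f' := by
  unfold ex
  refine sum_congr rfl fun G _ => ?_
  by_cases h : ∀ e ∈ G, e ∉ D
  · rw [hf G h]
  · push Not at h
    obtain ⟨e, he, heD⟩ := h
    have h0 : wt q G = 0 := by
      unfold wt
      rw [prod_eq_zero he (hq e heD), zero_mul]
    rw [h0, zero_mul, zero_mul]

/-- the expectation does not depend on the probabilities of irrelevant elements -/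
theorem ex_off (D : Finset E) (q q' : E → ℝ) (f : Finset E → ℝ)
    (hf : ∀ e ∈ D, ∀ S, f (insert e S) = f S) (hq : ∀ e, e ∉ D → q' e = q e) :
    ex q f = ex q' f := by
  have key : ∀ D' : Finset E, D' ⊆ D → ex q f = ex (fun e => if e ∈ D' then q' e else q e) f := by
    intro D'
    induction D' using Finset.induction_on with
    | empty => intro _; simp
    | insert a D' ha ih =>
      intro hD
      rw [ih ((subset_insert _ _).trans hD)]
      rw [RES.ex_affine _ a, RES.ex_affine (fun e => if e ∈ insert a D' then q' e else q e) a]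
      refine sum_congr rfl fun S _ => ?_
      rw [hf a (hD (mem_insert_self _ _)) S, sub_self, mul_zero, mul_zero]
      congr 1
      unfold RES.W0
      refine prod_congr rfl fun e he => ?_
      have hne := (mem_erase.1 he).1
      have hiff : e ∈ insert a D' ↔ e ∈ D' := by
        rw [mem_insert]
        exact ⟨fun h' => h'.resolve_left hne, Or.inr⟩
      have h1 : (if e ∈ insert a D' then q' e else q e) = if e ∈ D' then q' e else q e :=
        if_congr hiff rfl rfl
      simp only [h1]
  rw [key D (Subset.refl _)]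
  congr 1
  funext e
  by_cases he : e ∈ D
  · rw [if_pos he]
  · rw [if_neg he, hq e he]

end gen

theorem nu_map_le {U V : Type} (σ : U ≃ U) (τ : V ≃ V) (G : Finset (U × V)) :
    nu one1 G ≤ nu one1 (G.map (Equiv.prodCongr σ τ).toEmbedding) := by
  refine nu_le one1 fun M h1 h2 => ?_
  have h3 : wsum one1 M = wsum one1 (M.map (Equiv.prodCongr σ τ).toEmbedding) := by
    unfold wsum one1
    rw [sum_map]
  rw [h3]
  refine nu_ge _ ?_ (map_subset_map.2 h1)
  intro e he e' he' heq
  obtain ⟨a, ha, rfl⟩ := mem_map.1 he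
  obtain ⟨b, hb, rfl⟩ := mem_map.1 he'
  have h4 : a.1 = b.1 ∨ a.2 = b.2 := by
    rcases heq with h | h
    · exact Or.inl (σ.injective h)
    · exact Or.inr (τ.injective h)
  rw [h2 a ha b hb h4]

theorem nu_map {U V : Type} (σ : U ≃ U) (τ : V ≃ V) (G : Finset (U × V)) :
    nu one1 (G.map (Equiv.prodCongr σ τ).toEmbedding) = nu one1 G := by
  refine le_antisymm ?_ (nu_map_le σ τ G)
  have h := nu_map_le σ.symm τ.symm (G.map (Equiv.prodCongr σ τ).toEmbedding)
  have h2 : (G.map (Equiv.prodCongr σ τ).toEmbedding).map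
      (Equiv.prodCongr σ.symm τ.symm).toEmbedding = G := by
    ext ⟨a, b⟩
    rw [mem_map_equiv, mem_map_equiv]
    simp
  rwa [h2] at h

theorem exists_perm {N : ℕ} {I I' : Finset (Fin N)} (h : I.card = I'.card) :
    ∃ σ : Equiv.Perm (Fin N), ∀ u, σ u ∈ I' ↔ u ∈ I := by
  classical
  let e : {x // x ∈ I} ≃ {x // x ∈ I'} := Finset.equivOfCardEq h
  refine ⟨e.extendSubtype, fun u => ⟨fun hu => ?_, fun hu => ?_⟩⟩
  · by_contra hn
    exact e.extendSubtype_not_mem u hn hu
  · exact e.extendSubtype_mem u hu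

theorem pr_zero {N : ℕ} (c : ℝ) (I J : Finset (Fin N)) (e : Fin N × Fin N)
    (h : ¬ (e.1 ∈ I ∧ e.2 ∈ J)) : pr (aa c I J) e = 0 := by
  unfold pr aa
  rw [if_neg h, neg_zero, Real.exp_zero, sub_self]

theorem nu_empty {U V : Type} (w : U → V → ℝ) : nu w (∅ : Finset (U × V)) = 0 := by
  refine le_antisymm (nu_le w fun M h1 _ => ?_) (nu_nonneg w _)
  rw [subset_empty.1 h1]
  simp [wsum]

theorem inv : S_INV := by
  intro N c
  refine ⟨?_, ?_, ?_, ?_, ?_⟩
  · intro I J I' J' hI hJ
    obtain ⟨σ, hσ⟩ := exists_perm hI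
    obtain ⟨τ, hτ⟩ := exists_perm hJ
    unfold NU
    rw [ex_map (Equiv.prodCongr σ τ) (pr (aa c I' J'))]
    have h1 : (fun e : Fin N × Fin N => pr (aa c I' J') ((Equiv.prodCongr σ τ) e)) =
        pr (aa c I J) := by
      funext e
      unfold pr aa
      have h2 : (((Equiv.prodCongr σ τ) e).1 ∈ I' ∧ ((Equiv.prodCongr σ τ) e).2 ∈ J') ↔
          (e.1 ∈ I ∧ e.2 ∈ J) := and_congr (hσ e.1) (hτ e.2)
      simp only [if_congr h2 rfl rfl]
    have h3 : (fun G : Finset (Fin N × Fin N) =>
        nu one1 (G.map (Equiv.prodCongr σ τ).toEmbedding)) = nu one1 := by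
      funext G
      exact nu_map σ τ G
    rw [h1, h3]
  · intro I J
    unfold NU
    obtain ⟨t1, -, -, t4⟩ := RES.tr (Fin N) (Fin N)
    rw [t4 (pr (aa c J I))]
    have h1 : (fun e : Fin N × Fin N => pr (aa c J I) (e.2, e.1)) = pr (aa c I J) := by
      funext e
      unfold pr aa
      have h2 : (e.2 ∈ J ∧ e.1 ∈ I) ↔ (e.1 ∈ I ∧ e.2 ∈ J) := and_comm
      simp only [if_congr h2 rfl rfl]
    have h3 : (fun G : Finset (Fin N × Fin N) => nu one1 (trG G)) = nu one1 := by
      funext G
      exact t1 one1 G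
    rw [h1, h3]
  · intro I J u
    unfold NU
    rw [ex_off (univ.filter (fun e : Fin N × Fin N => e.1 = u)) (pr (aa c I J))
      (pr (aa c (I.erase u) J))]
    · refine ex_zero (univ.filter (fun e : Fin N × Fin N => e.1 = u)) _ _ _ ?_ ?_
      · intro e he
        rw [mem_filter] at he
        refine pr_zero c _ _ e fun h => ?_
        exact (mem_erase.1 h.1).1 he.2
      · intro G hG
        congr 1
        unfold delR
        refine filter_true_of_mem fun e he h => ?_
        exact hG e he (mem_filter.2 ⟨mem_univ _, h⟩)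
    · intro e he S
      rw [mem_filter] at he
      congr 1
      unfold delR
      rw [filter_insert, if_neg (fun h => h he.2)]
    · intro e he
      rw [mem_filter] at he
      have h1 : e.1 ≠ u := fun h => he ⟨mem_univ _, h⟩
      unfold pr aa
      have h2 : (e.1 ∈ I.erase u ∧ e.2 ∈ J) ↔ (e.1 ∈ I ∧ e.2 ∈ J) := by
        rw [mem_erase]
        exact ⟨fun h => ⟨h.1.2, h.2⟩, fun h => ⟨⟨h1, h.1⟩, h.2⟩⟩
      simp only [if_congr h2 rfl rfl]
  · intro I J u v
    unfold NU
    rw [ex_off (univ.filter (fun e : Fin N × Fin N => e.1 = u ∨ e.2 = v)) (pr (aa c I J))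
      (pr (aa c (I.erase u) (J.erase v)))]
    · refine ex_zero (univ.filter (fun e : Fin N × Fin N => e.1 = u ∨ e.2 = v)) _ _ _ ?_ ?_
      · intro e he
        rw [mem_filter] at he
        refine pr_zero c _ _ e fun h => ?_
        rcases he.2 with h1 | h1
        · exact (mem_erase.1 h.1).1 h1
        · exact (mem_erase.1 h.2).1 h1
      · intro G hG
        congr 1
        unfold delC delR
        rw [filter_filter]
        refine filter_true_of_mem fun e he => ⟨fun h => ?_, fun h => ?_⟩
        · exact hG e he (mem_filter.2 ⟨mem_univ _, Or.inl h⟩)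
        · exact hG e he (mem_filter.2 ⟨mem_univ _, Or.inr h⟩)
    · intro e he S
      rw [mem_filter] at he
      congr 1
      unfold delC delR
      rw [filter_filter, filter_filter, filter_insert, if_neg]
      rintro ⟨h1, h2⟩
      rcases he.2 with h | h
      · exact h1 h
      · exact h2 h
    · intro e he
      rw [mem_filter] at he
      have h1 : e.1 ≠ u := fun h => he ⟨mem_univ _, Or.inl h⟩
      have h1' : e.2 ≠ v := fun h => he ⟨mem_univ _, Or.inr h⟩
      unfold pr aa
      have h2 : (e.1 ∈ I.erase u ∧ e.2 ∈ J.erase v) ↔ (e.1 ∈ I ∧ e.2 ∈ J) := by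
        rw [mem_erase, mem_erase]
        exact ⟨fun h => ⟨h.1.2, h.2.2⟩, fun h => ⟨⟨h1, h.1⟩, ⟨h1', h.2⟩⟩⟩
      simp only [if_congr h2 rfl rfl]
  · intro I
    unfold NU
    rw [ex_zero univ (pr (aa c I ∅)) (nu one1) (fun _ => 0)]
    · exact ex_const _ _
    · intro e _
      exact pr_zero c _ _ e fun h => notMem_empty _ h.2
    · intro G hG
      have h1 : G = ∅ := eq_empty_of_forall_notMem fun e he => hG e he (mem_univ _)
      rw [h1, nu_empty]

end Pool.Agent.H70.CG.INV
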