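import Pool.Agent.H70.CG.Stm4
import Pool.Agent.H70.CG.All2

/-!
# The recursion for the increments of the expected matching number of the uniform graph
-/

set_option autoImplicit false

namespace Pool.Agent.H70.CG.REC

open Finset Pool.Agent.H70.CG

section gen

variable {U V : Type} [DecidableEq U] [DecidableEq V]

theorem mu_le_one (G : Finset (U × V)) (u : U) : mu (one1 : U → V → ℝ) G u ≤ 1 := by
  obtain ⟨M, h1, h2, h3⟩ := exists_nu (one1 : U → V → ℝ) G
  unfold mu
  rw [← h3]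
  by_cases h : ∃ v, (u, v) ∈ M
  · obtain ⟨v, hv⟩ := h
    have e1 := INS.wsum_le (one1 : U → V → ℝ) h1 h2 hv
    have e2 : nu (one1 : U → V → ℝ) (delR (delC G v) u) ≤ nu one1 (delR G u) := by
      apply nu_mono
      intro e he
      rw [INS.mem_delR, INS.mem_delC] at he
      rw [INS.mem_delR]
      exact ⟨he.1.1, he.2⟩
    have e3 : (one1 : U → V → ℝ) u v = 1 := rfl
    linarith
  · push Not at h
    have e1 := INS.nu_le_of_row (one1 : U → V → ℝ) h1 h2 h
    linarith

theorem pi_le_one (G : Finset (U × V)) (v : V) : pi' (one1 : U → V → ℝ) G v ≤ 1 := by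
  obtain ⟨M, h1, h2, h3⟩ := exists_nu (one1 : U → V → ℝ) G
  unfold pi'
  rw [← h3]
  by_cases h : ∃ u, (u, v) ∈ M
  · obtain ⟨u, hu⟩ := h
    have e1 := INS.wsum_le (one1 : U → V → ℝ) h1 h2 hu
    have e2 : nu (one1 : U → V → ℝ) (delR (delC G v) u) ≤ nu one1 (delC G v) :=
      nu_mono _ (INS.delR_sub _ _)
    have e3 : (one1 : U → V → ℝ) u v = 1 := rfl
    linarith
  · push Not at h
    have e1 := INS.nu_le_of_col (one1 : U → V → ℝ) h1 h2 h
    linarith

theorem nu_int (G : Finset (U × V)) : IsI (nu (one1 : U → V → ℝ) G) :=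
  LAW.int U V one1 (fun _ _ => ⟨1, by simp [one1]⟩) G

theorem zero_or_one {x : ℝ} (h : IsI x) (h0 : 0 ≤ x) (h1 : x ≤ 1) : x = 0 ∨ x = 1 := by
  obtain ⟨n, rfl⟩ := h
  have a0 : 0 ≤ n := by exact_mod_cast h0
  have a1 : n ≤ 1 := by exact_mod_cast h1
  have : n = 0 ∨ n = 1 := by omega
  rcases this with rfl | rfl
  · left; simp
  · right; simp

theorem mu_cases (G : Finset (U × V)) (u : U) :
    mu (one1 : U → V → ℝ) G u = 0 ∨ mu (one1 : U → V → ℝ) G u = 1 :=
  zero_or_one (EDGE.isI_sub (nu_int _) (nu_int _)) (mu_nonneg _ _ _) (mu_le_one _ _)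

theorem pi_cases (G : Finset (U × V)) (v : V) :
    pi' (one1 : U → V → ℝ) G v = 0 ∨ pi' (one1 : U → V → ℝ) G v = 1 :=
  zero_or_one (EDGE.isI_sub (nu_int _) (nu_int _)) (pi_nonneg _ _ _) (pi_le_one _ _)

/-- Jensen. -/
theorem jensen {E : Type} [Fintype E] [DecidableEq E] {q : E → ℝ} (h0 : ∀ e, 0 ≤ q e)
    (h1 : ∀ e, q e ≤ 1) (X : Finset E → ℝ) :
    Real.exp (-(ex q X)) ≤ ex q (fun S => Real.exp (-(X S))) := by
  have key : ∀ S, Real.exp (-(ex q X)) * (1 + ex q X) - Real.exp (-(ex q X)) * X S ≤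
      Real.exp (-(X S)) := by
    intro S
    have e1 : Real.exp (-(X S)) = Real.exp (-(ex q X)) * Real.exp (ex q X - X S) := by
      rw [← Real.exp_add]
      congr 1
      ring
    have e2 := Real.add_one_le_exp (ex q X - X S)
    have e3 := Real.exp_pos (-(ex q X))
    rw [e1]
    nlinarith
  have h := ex_mono_f h0 h1 key
  rw [ex_sub, ex_const, ex_mul] at h
  linarith

end gen

section row

variable {N : ℕ} {c : ℝ}

theorem aa_nonneg (hc : 0 ≤ c) (I J : Finset (Fin N)) (u v : Fin N) : 0 ≤ aa c I J u v := by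
  unfold aa
  split_ifs
  · exact hc
  · exact le_rfl

theorem pr_nonneg (hc : 0 ≤ c) (I J : Finset (Fin N)) (e : Fin N × Fin N) :
    0 ≤ pr (aa c I J) e := SIDE.q_nonneg (aa_nonneg hc I J e.1 e.2)

theorem pr_le_one (I J : Finset (Fin N)) (e : Fin N × Fin N) :
    pr (aa c I J) e ≤ 1 := SIDE.q_le_one _

theorem row_eq (hInv : S_INV) (I J : Finset (Fin N)) (u : Fin N) :
    NU c I J - NU c (I.erase u) J = ex (pr (aa c I J)) (fun G => mu one1 G u) := by
  rw [← (hInv N c).2.2.1 I J u]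
  unfold NU mu
  rw [ex_sub]

theorem row_bd (hInv : S_INV) (hc : 0 ≤ c) (I J : Finset (Fin N)) (u : Fin N) :
    0 ≤ NU c I J - NU c (I.erase u) J ∧ NU c I J - NU c (I.erase u) J ≤ 1 := by
  rw [row_eq hInv]
  constructor
  · have := ex_mono_f (pr_nonneg hc I J) (pr_le_one I J) (f := fun _ => 0)
      (g := fun G => mu one1 G u) (fun G => mu_nonneg _ _ _)
    rwa [ex_const] at this
  · have := ex_mono_f (pr_nonneg hc I J) (pr_le_one I J)
      (f := fun G => mu one1 G u) (g := fun _ => 1) (fun G => mu_le_one _ _)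
    rwa [ex_const] at this

theorem XX_eq (I J : Finset (Fin N)) {u : Fin N} (hu : u ∈ I) (G : Finset (Fin N × Fin N)) :
    XX (aa c I J) one1 G u 0 = c * ∑ v ∈ J, (1 - pi' one1 (delR G u) v) := by
  unfold XX
  rw [mul_sum, ← Finset.sum_subset (Finset.subset_univ J)]
  · refine sum_congr rfl fun v hv => ?_
    have e1 : aa c I J u v = c := by
      unfold aa
      rw [if_pos ⟨hu, hv⟩]
    have e2 : (one1 : Fin N → Fin N → ℝ) u v = 1 := rfl
    rw [e1, e2]
    congr 1
    unfold ind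
    rcases pi_cases (delR G u) v with h | h
    · rw [h, if_pos (by norm_num)]
      ring
    · rw [h, if_neg (by norm_num)]
      ring
  · intro v _ hv
    have e1 : aa c I J u v = 0 := by
      unfold aa
      rw [if_neg (fun h => hv h.2)]
    rw [e1, zero_mul]

theorem row_ineq (hInv : S_INV) (hc : 0 ≤ c) (I J : Finset (Fin N)) {u : Fin N} (hu : u ∈ I) :
    NU c I J - NU c (I.erase u) J ≤
      1 - Real.exp (-(c * ∑ v ∈ J, (1 - (NU c (I.erase u) J -
        NU c (I.erase u) (J.erase v))))) := by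
  rw [row_eq hInv]
  have e1 : (fun G : Finset (Fin N × Fin N) => mu one1 G u) =
      fun G => 1 - (fun _ : Finset (Fin N × Fin N) => (1 : ℝ)) (delR G u) *
        (if mu one1 G u ≤ 0 then 1 else 0) := by
    funext G
    rcases mu_cases G u with h | h
    · rw [h, if_pos le_rfl]
      norm_num
    · rw [h, if_neg (by norm_num)]
      norm_num
  have e2 := (law_all (Fin N) (Fin N) (aa c I J) one1 u 0 le_rfl).1
    (fun _ : Finset (Fin N × Fin N) => (1 : ℝ))
  rw [e1, ex_sub, ex_const, e2]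
  have e3 : ex (pr (aa c I J)) (fun G => XX (aa c I J) one1 G u 0) =
      c * ∑ v ∈ J, (1 - (NU c (I.erase u) J - NU c (I.erase u) (J.erase v))) := by
    have e4 : (fun G : Finset (Fin N × Fin N) => XX (aa c I J) one1 G u 0) =
        fun G => c * ∑ v ∈ J, (1 - pi' one1 (delR G u) v) := by
      funext G
      exact XX_eq I J hu G
    rw [e4, ex_mul, ex_sum]
    congr 1
    refine sum_congr rfl fun v _ => ?_
    rw [ex_sub, ex_const]
    unfold pi'
    rw [ex_sub, (hInv N c).2.2.1 I J u, (hInv N c).2.2.2.1 I J u v]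
  have e5 := jensen (pr_nonneg hc I J) (pr_le_one I J) (fun G => XX (aa c I J) one1 G u 0)
  rw [e3] at e5
  have e6 : (fun G : Finset (Fin N × Fin N) =>
      (fun _ : Finset (Fin N × Fin N) => (1 : ℝ)) (delR G u) *
        Real.exp (-(XX (aa c I J) one1 G u 0))) =
      fun G => Real.exp (-(XX (aa c I J) one1 G u 0)) := by
    funext G
    rw [one_mul]
  rw [e6]
  linarith

/-- Initial segments. -/
def seg (N i : ℕ) : Finset (Fin N) := univ.filter (fun x => x.val < i)

theorem mem_seg {i : ℕ} {x : Fin N} : x ∈ seg N i ↔ x.val < i := by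
  simp [seg]

theorem card_seg {i : ℕ} (hi : i ≤ N) : (seg N i).card = i := by
  unfold seg
  have h := Fin.card_filter_val_lt (n := N) (m := i)
  rw [min_eq_right hi] at h
  exact h

theorem seg_erase {i : ℕ} (hi : i + 1 ≤ N) : (seg N (i + 1)).erase ⟨i, hi⟩ = seg N i := by
  ext x
  rw [mem_erase, mem_seg, mem_seg]
  constructor
  · rintro ⟨h1, h2⟩
    have : x.val ≠ i := fun h => h1 (Fin.ext h)
    omega
  · intro h
    refine ⟨fun h' => ?_, by omega⟩
    rw [h'] at h
    simp at h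

/-- The expected matching numbers of the complete graphs `i × j`. -/
noncomputable def gg (N : ℕ) (c : ℝ) (i j : ℕ) : ℝ := NU c (seg N i) (seg N j)

theorem gg_bd (hInv : S_INV) (hc : 0 ≤ c) {i : ℕ} (hi : i + 1 ≤ N) (j : ℕ) :
    0 ≤ gg N c (i + 1) j - gg N c i j ∧ gg N c (i + 1) j - gg N c i j ≤ 1 := by
  have := row_bd hInv hc (seg N (i + 1)) (seg N j) ⟨i, hi⟩
  rwa [seg_erase hi] at this

theorem gg_ineq (hInv : S_INV) (hc : 0 ≤ c) {i j : ℕ} (hi : i + 1 ≤ N) (hj : j + 1 ≤ N) :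
    gg N c (i + 1) (j + 1) - gg N c i (j + 1) ≤
      1 - Real.exp (-(c * (((j + 1 : ℕ) : ℝ)) * (1 - (gg N c i (j + 1) - gg N c i j)))) := by
  have h := row_ineq hInv hc (seg N (i + 1)) (seg N (j + 1)) (u := ⟨i, hi⟩)
    (mem_seg.2 (Nat.lt_succ_self i))
  rw [seg_erase hi] at h
  have e1 : ∀ v ∈ seg N (j + 1), (1 - (NU c (seg N i) (seg N (j + 1)) -
      NU c (seg N i) ((seg N (j + 1)).erase v))) = 1 - (gg N c i (j + 1) - gg N c i j) := by
    intro v hv
    have e2 : NU c (seg N i) ((seg N (j + 1)).erase v) = NU c (seg N i) (seg N j) := by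
      refine (hInv N c).1 _ _ _ _ rfl ?_
      rw [card_erase_of_mem hv, card_seg hj, card_seg (by omega)]
      rfl
    rw [e2]
    rfl
  rw [sum_congr rfl e1, sum_const, card_seg hj, nsmul_eq_mul, ← mul_assoc] at h
  exact h

theorem gg_symm (hInv : S_INV) (i j : ℕ) : gg N c i j = gg N c j i := (hInv N c).2.1 _ _

theorem gg_zero (hInv : S_INV) (i : ℕ) : gg N c i 0 = 0 := by
  have e : seg N 0 = ∅ := by
    ext x
    simp [mem_seg]
  unfold gg
  rw [e]
  exact (hInv N c).2.2.2.2 _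

end row

theorem rec (hInv : S_INV) : S_REC := by
  intro N c hc
  let s : ℕ → ℝ := fun k => gg N c ((k + 1) / 2) (k / 2)
  have hs0 : s 0 = 0 := gg_zero hInv 0
  have hs1 : ∀ i, s (2 * i) = gg N c i i := by
    intro i
    change gg N c ((2 * i + 1) / 2) (2 * i / 2) = _
    rw [show (2 * i + 1) / 2 = i by omega, show 2 * i / 2 = i by omega]
  have hs2 : ∀ i, s (2 * i + 1) = gg N c (i + 1) i := by
    intro i
    change gg N c ((2 * i + 1 + 1) / 2) ((2 * i + 1) / 2) = _
    rw [show (2 * i + 1 + 1) / 2 = i + 1 by omega, show (2 * i + 1) / 2 = i by omega]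
  have hs3 : ∀ i, s (2 * i + 2) = gg N c (i + 1) (i + 1) := by
    intro i
    have := hs1 (i + 1)
    rwa [show 2 * (i + 1) = 2 * i + 2 by ring] at this
  have hbd : ∀ k, k < 2 * N → 0 ≤ s (k + 1) - s k ∧ s (k + 1) - s k ≤ 1 := by
    intro k hk
    obtain ⟨i, rfl | rfl⟩ : ∃ i, k = 2 * i ∨ k = 2 * i + 1 := ⟨k / 2, by omega⟩
    · rw [hs1, hs2]
      exact gg_bd hInv hc (by omega) i
    · have e : s (2 * i + 1 + 1) = gg N c (i + 1) (i + 1) := hs3 i
      rw [e, hs2, gg_symm hInv (i + 1) i]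
      exact gg_bd hInv hc (by omega) (i + 1)
  refine ⟨fun k => if k < 2 * N then s (k + 1) - s k else 0, ?_, ?_, ?_, ?_⟩
  · intro k
    by_cases hk : k < 2 * N
    · simp only [if_pos hk]
      exact hbd k hk
    · simp only [if_neg hk]
      norm_num
  · by_cases h : 0 < 2 * N
    · simp only [if_pos h]
      have e : s (0 + 1) = gg N c 1 0 := hs2 0
      rw [e, hs0, gg_zero hInv]
      norm_num
    · simp only [if_neg h]
  · intro k hk1 hk
    have hk' : k - 1 < 2 * N := by omega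
    simp only [if_pos hk, if_pos hk']
    obtain ⟨i, rfl | rfl⟩ : ∃ i, k = 2 * i + 1 ∨ k = 2 * i + 2 := ⟨(k - 1) / 2, by omega⟩
    · have e1 : s (2 * i + 1 + 1) = gg N c (i + 1) (i + 1) := hs3 i
      have e2 : s (2 * i + 1 - 1 + 1) = gg N c (i + 1) i := by
        rw [show 2 * i + 1 - 1 + 1 = 2 * i + 1 by omega, hs2]
      have e3 : s (2 * i + 1 - 1) = gg N c i i := by
        rw [show 2 * i + 1 - 1 = 2 * i by omega, hs1]
      rw [e1, e2, e3, hs2, show (2 * i + 1 + 1) / 2 = i + 1 by omega, gg_symm hInv (i + 1) i]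
      exact gg_ineq hInv hc (by omega) (by omega)
    · have e1 : s (2 * i + 2 + 1) = gg N c (i + 2) (i + 1) := by
        have := hs2 (i + 1)
        rwa [show 2 * (i + 1) + 1 = 2 * i + 2 + 1 by ring] at this
      have e2 : s (2 * i + 2 - 1 + 1) = gg N c (i + 1) (i + 1) := by
        rw [show 2 * i + 2 - 1 + 1 = 2 * i + 2 by omega, hs3]
      have e3 : s (2 * i + 2 - 1) = gg N c (i + 1) i := by
        rw [show 2 * i + 2 - 1 = 2 * i + 1 by omega, hs2]
      rw [e1, e2, e3, hs3, show (2 * i + 2 + 1) / 2 = i + 1 by omega]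
      exact gg_ineq hInv hc (i := i + 1) (j := i) (by omega) (by omega)
  · have e1 : ∑ k ∈ range (2 * N), (if k < 2 * N then s (k + 1) - s k else 0) =
        ∑ k ∈ range (2 * N), (s (k + 1) - s k) := by
      refine sum_congr rfl fun k hk => ?_
      rw [if_pos (mem_range.1 hk)]
    rw [e1, Finset.sum_range_sub, hs1, hs0, sub_zero]
    have e2 : seg N N = univ := by
      ext x
      simp [mem_seg]
    unfold gg NU
    rw [e2]
    congr 1
    funext e
    unfold pr aa
    rw [if_pos ⟨mem_univ _, mem_univ _⟩]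

end Pool.Agent.H70.CG.REC
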