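import Pool.Agent.H70.CG.Stm4
import Pool.Agent.H70.CG.Base
import Pool.Agent.H70.CG.RES

/-!
# Quadratic gain for Bernoulli edges against Poissonised edges
-/

set_option autoImplicit false

namespace Pool.Agent.H70.CG.STR

open Finset Pool.Agent.H70.CG

section gen
variable {E : Type} [Fintype E] [DecidableEq E]

/-- Probability that no element of `N` is present. -/
theorem ex_avoid (q : E → ℝ) (N : Finset E) :
    ex q (fun S => if Disjoint S N then (1 : ℝ) else 0) = ∏ e ∈ N, (1 - q e) := by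
  have h := prod_add (fun e : E => if e ∈ N then 0 else q e) (fun e => 1 - q e) univ
  rw [powerset_univ] at h
  have h1 : ∏ e : E, ((if e ∈ N then 0 else q e) + (1 - q e)) = ∏ e ∈ N, (1 - q e) := by
    rw [← prod_subset (subset_univ N)]
    · refine prod_congr rfl fun e he => ?_
      rw [if_pos he]; ring
    · intro e _ he
      rw [if_neg he]; ring
  rw [← h1, h]
  unfold ex
  refine sum_congr rfl fun S _ => ?_
  unfold wt
  rw [compl_eq_univ_sdiff]
  beta_reduce
  by_cases hd : Disjoint S N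
  · rw [if_pos hd, mul_one]
    congr 1
    refine prod_congr rfl fun e he => ?_
    rw [if_neg (disjoint_left.1 hd he)]
  · rw [if_neg hd, mul_zero]
    rw [not_disjoint_iff] at hd
    obtain ⟨e, he1, he2⟩ := hd
    rw [prod_eq_zero he1 (by rw [if_pos he2]), zero_mul]

/-- Change of one coordinate. -/
theorem ex_diff (q q' : E → ℝ) (f : Finset E → ℝ) (e0 : E) (hne : ∀ e, e ≠ e0 → q' e = q e) :
    ex q' f - ex q f =
      (q' e0 - q e0) * ex q (fun S => f (insert e0 S) - f (S.erase e0)) := by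
  rw [RES.ex_affine q' e0, RES.ex_affine q e0,
    RES.ex_affine q e0 (fun S => f (insert e0 S) - f (S.erase e0)), ← sum_sub_distrib, mul_sum]
  refine sum_congr rfl fun S hS => ?_
  simp only [mem_filter, mem_univ, true_and] at hS
  have hW : RES.W0 q' e0 S = RES.W0 q e0 S := by
    unfold RES.W0
    refine prod_congr rfl fun e he => ?_
    rw [hne e (mem_erase.1 he).1]
  have h1 : insert e0 (insert e0 S) = insert e0 S := insert_idem _ _
  rw [hW, h1, erase_insert hS, erase_eq_of_notMem hS]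
  ring

end gen

section mat
variable {U V : Type} [DecidableEq U] [DecidableEq V]

theorem nu_gain (w : U → V → ℝ) (S N : Finset (U × V)) (e0 : U × V)
    (hN : ∀ e, e ≠ e0 → (e.1 = e0.1 ∨ e.2 = e0.2) → e ∈ N) (hd : Disjoint S N) :
    w e0.1 e0.2 ≤ nu w (insert e0 S) - nu w (S.erase e0) := by
  obtain ⟨M, h1, h2, h3⟩ := exists_nu w (S.erase e0)
  have hm : e0 ∉ M := fun h => by
    have := h1 h
    simp at this
  have hfree : ∀ e ∈ M, ¬ (e.1 = e0.1 ∨ e.2 = e0.2) := by
    intro e he hc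
    have hne : e ≠ e0 := fun h => hm (h ▸ he)
    exact disjoint_left.1 hd (mem_of_mem_erase (h1 he)) (hN e hne hc)
  have hI : IsMat (insert e0 M) := by
    intro e he e' he' hee
    rw [mem_insert] at he he'
    rcases he with rfl | he
    · rcases he' with rfl | he'
      · rfl
      · exact absurd (hee.imp Eq.symm Eq.symm) (hfree e' he')
    · rcases he' with rfl | he'
      · exact absurd hee (hfree e he)
      · exact h2 e he e' he' hee
  have hsub : insert e0 M ⊆ insert e0 S :=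
    insert_subset_insert _ (h1.trans (erase_subset _ _))
  have h4 := nu_ge w hI hsub
  have h5 : wsum w (insert e0 M) = w e0.1 e0.2 + wsum w M := by
    unfold wsum
    rw [sum_insert hm]
  rw [h5, h3] at h4
  linarith

end mat

/-! ## Numerical facts -/

theorem one_sub_le (x : ℝ) (h0 : 0 ≤ x) (h1 : x ≤ 1) :
    1 - Real.exp (-(x + x ^ 2 / 2)) ≤ x := by
  rcases h1.lt_or_eq with h | h
  · have hs := Real.hasSum_pow_div_log_of_abs_lt_one (x := x) (by rw [abs_of_nonneg h0]; exact h)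
    have h2 := sum_le_hasSum (range 2) (fun n _ => by positivity) hs
    simp only [sum_range_succ, sum_range_zero, zero_add, pow_one, Nat.cast_zero, Nat.cast_one,
      div_one] at h2
    have h3 : x + x ^ 2 / 2 ≤ -Real.log (1 - x) := by
      have h4 : x + x ^ (1 + 1) / (1 + 1) = x + x ^ 2 / 2 := by norm_num
      linarith
    have h5 : Real.log (1 - x) ≤ -(x + x ^ 2 / 2) := by linarith
    have h6 : 1 - x ≤ Real.exp (-(x + x ^ 2 / 2)) := by
      rw [← Real.exp_log (show 0 < 1 - x by linarith)]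
      exact Real.exp_le_exp.2 h5
    linarith
  · have := Real.exp_pos (-(x + x ^ 2 / 2))
    linarith

theorem exp3 : Real.exp 3 ≤ 41 / 2 := by
  have h := Real.exp_one_lt_d9
  have h2 : Real.exp 3 = Real.exp 1 ^ 3 := by
    rw [← Real.exp_nat_mul]; norm_num
  rw [h2]
  have h0 : 0 ≤ Real.exp 1 := (Real.exp_pos 1).le
  calc Real.exp 1 ^ 3 ≤ (2.7182818286 : ℝ) ^ 3 := pow_le_pow_left₀ h0 h.le 3
    _ ≤ 41 / 2 := by norm_num

theorem exp_neg_le (y : ℝ) (hy : 0 ≤ y) : Real.exp (-y) ≤ 1 - y + y ^ 2 / 2 := by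
  have h1 : 1 + y + y ^ 2 / 2 ≤ Real.exp y := Real.quadratic_le_exp_of_nonneg hy
  rw [Real.exp_neg]
  have hpos : 0 < 1 + y + y ^ 2 / 2 := by positivity
  have h2 : (Real.exp y)⁻¹ ≤ (1 + y + y ^ 2 / 2)⁻¹ := inv_anti₀ hpos h1
  refine h2.trans ?_
  rw [inv_le_iff_one_le_mul₀ hpos]
  nlinarith [sq_nonneg (y ^ 2)]

theorem numer (x : ℝ) (h0 : 0 ≤ x) (h1 : x ≤ 1) :
    x ^ 2 / 41 ≤ (Real.exp (-x) - Real.exp (-(x + x ^ 2 / 2))) *
      Real.exp (-(2 * (1 - x) + (1 - x) ^ 2)) := by
  have h2 : Real.exp (-(x + x ^ 2 / 2)) = Real.exp (-x) * Real.exp (-(x ^ 2 / 2)) := by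
    rw [← Real.exp_add]; congr 1; ring
  have h3 : Real.exp (-x) * Real.exp (-(2 * (1 - x) + (1 - x) ^ 2)) =
      Real.exp (-3) * Real.exp (3 * x - x ^ 2) := by
    rw [← Real.exp_add, ← Real.exp_add]; congr 1; ring
  have h4 : (Real.exp (-x) - Real.exp (-(x + x ^ 2 / 2))) *
      Real.exp (-(2 * (1 - x) + (1 - x) ^ 2)) =
      Real.exp (-3) * (Real.exp (3 * x - x ^ 2) * (1 - Real.exp (-(x ^ 2 / 2)))) := by
    rw [h2]
    calc (Real.exp (-x) - Real.exp (-x) * Real.exp (-(x ^ 2 / 2))) *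
        Real.exp (-(2 * (1 - x) + (1 - x) ^ 2))
        = (Real.exp (-x) * Real.exp (-(2 * (1 - x) + (1 - x) ^ 2))) *
          (1 - Real.exp (-(x ^ 2 / 2))) := by ring
      _ = _ := by rw [h3]; ring
  rw [h4]
  have h5 : x ^ 2 / 2 * (1 - x ^ 2 / 4) ≤ 1 - Real.exp (-(x ^ 2 / 2)) := by
    have := exp_neg_le (x ^ 2 / 2) (by positivity)
    nlinarith
  have h6 : 1 + (3 * x - x ^ 2) ≤ Real.exp (3 * x - x ^ 2) := by
    have := Real.add_one_le_exp (3 * x - x ^ 2)
    linarith
  have h7 : 2 / 41 ≤ Real.exp (-3) := by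
    rw [Real.exp_neg]
    have := inv_anti₀ (Real.exp_pos 3) exp3
    have h8 : ((41 : ℝ) / 2)⁻¹ = 2 / 41 := by norm_num
    linarith
  have hx2 : x ^ 2 ≤ 1 := by nlinarith
  have h8 : 0 ≤ x ^ 2 / 2 * (1 - x ^ 2 / 4) := by
    have : 0 ≤ x ^ 2 := sq_nonneg x
    refine mul_nonneg (by linarith) (by linarith)
  have h9 : (1 + (3 * x - x ^ 2)) * (x ^ 2 / 2 * (1 - x ^ 2 / 4)) ≤
      Real.exp (3 * x - x ^ 2) * (1 - Real.exp (-(x ^ 2 / 2))) :=
    mul_le_mul h6 h5 h8 (Real.exp_pos _).le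
  have h10 : x ^ 2 / 2 ≤ (1 + (3 * x - x ^ 2)) * (x ^ 2 / 2 * (1 - x ^ 2 / 4)) := by
    have e1 : (1 + (3 * x - x ^ 2)) * (x ^ 2 / 2 * (1 - x ^ 2 / 4)) - x ^ 2 / 2 =
        x ^ 2 / 2 * (x * (3 - 5 / 4 * x - 3 / 4 * x ^ 2 + x ^ 3 / 4)) := by ring
    have e2 : 0 ≤ x ^ 2 / 2 * (x * (3 - 5 / 4 * x - 3 / 4 * x ^ 2 + x ^ 3 / 4)) := by
      have : 0 ≤ x ^ 3 := by positivity
      refine mul_nonneg (by positivity) (mul_nonneg h0 (by nlinarith))
    linarith
  have h11 : x ^ 2 / 2 ≤ Real.exp (3 * x - x ^ 2) * (1 - Real.exp (-(x ^ 2 / 2))) :=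
    h10.trans h9
  have h12 : 2 / 41 * (x ^ 2 / 2) ≤
      Real.exp (-3) * (Real.exp (3 * x - x ^ 2) * (1 - Real.exp (-(x ^ 2 / 2)))) :=
    mul_le_mul h7 h11 (by positivity) (Real.exp_pos _).le
  linarith

theorem sum_others {V : Type} [Fintype V] [DecidableEq V] (b : V → ℝ) (hb : ∀ v, 0 ≤ b v)
    (hs : ∑ v, b v ≤ 1) (v0 : V) :
    ∑ v ∈ univ.erase v0, (b v + b v ^ 2 / 2) ≤ (1 - b v0) + (1 - b v0) ^ 2 / 2 := by
  have h1 : ∑ v ∈ univ.erase v0, b v ≤ 1 - b v0 := by
    have := add_sum_erase univ b (mem_univ v0)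
    linarith
  have h2 : ∀ v ∈ univ.erase v0, b v ≤ 1 - b v0 := fun v hv =>
    (single_le_sum (f := b) (fun i _ => hb i) hv).trans h1
  have h3 : ∑ v ∈ univ.erase v0, b v ^ 2 ≤ (1 - b v0) ^ 2 := by
    have h4 : ∑ v ∈ univ.erase v0, b v ^ 2 ≤ ∑ v ∈ univ.erase v0, (1 - b v0) * b v := by
      refine sum_le_sum fun v hv => ?_
      have := mul_le_mul_of_nonneg_right (h2 v hv) (hb v)
      nlinarith
    rw [← mul_sum] at h4
    have h5 : 0 ≤ 1 - b v0 := (sum_nonneg fun v _ => hb v).trans h1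
    have h6 := mul_le_mul_of_nonneg_left h1 h5
    nlinarith
  rw [sum_add_distrib, ← sum_div]
  linarith

theorem str : S_STR := by
  intro U V _ _ _ _ a w ha hr hc hw
  have ha1 : ∀ u v, a u v ≤ 1 := fun u v =>
    (single_le_sum (f := fun v => a u v) (fun i _ => ha u i) (mem_univ v)).trans (hr u)
  set qb : U × V → ℝ := fun e => 1 - Real.exp (-(a e.1 e.2 + a e.1 e.2 ^ 2 / 2)) with hqb
  have hqa0 : ∀ e, 0 ≤ pr a e := by
    intro e
    have : Real.exp (-(a e.1 e.2)) ≤ 1 := Real.exp_le_one_iff.2 (by linarith [ha e.1 e.2])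
    unfold pr
    linarith
  have hqab : ∀ e, pr a e ≤ qb e := by
    intro e
    have : Real.exp (-(a e.1 e.2 + a e.1 e.2 ^ 2 / 2)) ≤ Real.exp (-(a e.1 e.2)) :=
      Real.exp_le_exp.2 (by linarith [sq_nonneg (a e.1 e.2)])
    simp only [pr, hqb]
    linarith
  have hqb1 : ∀ e, qb e ≤ 1 := by
    intro e
    have := Real.exp_pos (-(a e.1 e.2 + a e.1 e.2 ^ 2 / 2))
    simp only [hqb]
    linarith
  have hqba : ∀ e : U × V, qb e ≤ a e.1 e.2 := fun e => one_sub_le _ (ha _ _) (ha1 _ _)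
  have hmono : ∀ S S' : Finset (U × V), S ⊆ S' → nu w S ≤ nu w S' := fun S S' h => nu_mono w h
  have h1 : ex qb (nu w) ≤ ex (fun e : U × V => a e.1 e.2) (nu w) :=
    RES.mono (U × V) qb (fun e => a e.1 e.2) (nu w) (fun e => (hqa0 e).trans (hqab e)) hqba
      (fun e => ha1 _ _) hmono
  have key : ∀ D : Finset (U × V), ex (pr a) (nu w) +
      (∑ e ∈ D, w e.1 e.2 * a e.1 e.2 ^ 2) / 41 ≤
      ex (fun e => if e ∈ D then qb e else pr a e) (nu w) := by
    intro D
    induction D using Finset.induction_on with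
    | empty => simp
    | insert e0 D he0 ih =>
      set q : U × V → ℝ := fun e => if e ∈ D then qb e else pr a e with hq
      set q' : U × V → ℝ := fun e => if e ∈ insert e0 D then qb e else pr a e with hq'
      have hne : ∀ e, e ≠ e0 → q' e = q e := by
        intro e he
        have hiff : e ∈ insert e0 D ↔ e ∈ D := by
          rw [mem_insert]
          exact ⟨fun h' => h'.resolve_left he, Or.inr⟩
        exact if_congr hiff rfl rfl
      have hd := ex_diff q q' (nu w) e0 hne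
      have hq0 : ∀ e, 0 ≤ q e := by
        intro e
        simp only [hq]
        split_ifs
        · exact (hqa0 e).trans (hqab e)
        · exact hqa0 e
      have hqle : ∀ e, q e ≤ qb e := by
        intro e
        simp only [hq]
        split_ifs
        · exact le_rfl
        · exact hqab e
      have hq1 : ∀ e, q e ≤ 1 := fun e => (hqle e).trans (hqb1 e)
      set N : Finset (U × V) := (({e0.1} : Finset U) ×ˢ (univ.erase e0.2)) ∪
        ((univ.erase e0.1) ×ˢ ({e0.2} : Finset V)) with hNdef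
      have hN : ∀ e, e ≠ e0 → (e.1 = e0.1 ∨ e.2 = e0.2) → e ∈ N := by
        intro e he h
        rw [hNdef, mem_union, mem_product, mem_product, mem_singleton, mem_singleton, mem_erase,
          mem_erase]
        rcases h with h | h
        · exact Or.inl ⟨h, fun h' => he (Prod.ext h h'), mem_univ _⟩
        · exact Or.inr ⟨⟨fun h' => he (Prod.ext h' h), mem_univ _⟩, h⟩
      have hgain : w e0.1 e0.2 * ∏ e ∈ N, (1 - q e) ≤
          ex q (fun S => nu w (insert e0 S) - nu w (S.erase e0)) := by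
        rw [← ex_avoid, ← ex_mul]
        refine ex_mono_f hq0 hq1 fun S => ?_
        by_cases hdis : Disjoint S N
        · rw [if_pos hdis, mul_one]
          exact nu_gain w S N e0 hN hdis
        · rw [if_neg hdis, mul_zero]
          have := hmono (S.erase e0) (insert e0 S)
            ((erase_subset _ _).trans (subset_insert _ _))
          linarith
      have hprod : Real.exp (-(2 * (1 - a e0.1 e0.2) + (1 - a e0.1 e0.2) ^ 2)) ≤
          ∏ e ∈ N, (1 - q e) := by
        have hp1 : ∏ e ∈ N, Real.exp (-(a e.1 e.2 + a e.1 e.2 ^ 2 / 2)) ≤ ∏ e ∈ N, (1 - q e) := by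
          refine prod_le_prod (fun e _ => (Real.exp_pos _).le) fun e _ => ?_
          have := hqle e
          simp only [hqb] at this
          linarith
        refine le_trans ?_ hp1
        rw [← Real.exp_sum, Real.exp_le_exp, sum_neg_distrib, neg_le_neg_iff, hNdef, sum_union]
        · rw [sum_product, sum_product, sum_singleton]
          simp only [sum_singleton]
          have r1 := sum_others (fun v => a e0.1 v) (fun v => ha _ _) (hr e0.1) e0.2
          have r2 := sum_others (fun u => a u e0.2) (fun u => ha _ _) (hc e0.2) e0.1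
          linarith
        · rw [disjoint_left]
          intro e h1 h2
          rw [mem_product, mem_singleton] at h1
          rw [mem_product, mem_erase] at h2
          exact h2.1.1 h1.1
      have hq'e : q' e0 = qb e0 := if_pos (mem_insert_self _ _)
      have hqe : q e0 = pr a e0 := if_neg he0
      have hdq : q' e0 - q e0 = Real.exp (-(a e0.1 e0.2)) -
          Real.exp (-(a e0.1 e0.2 + a e0.1 e0.2 ^ 2 / 2)) := by
        rw [hq'e, hqe]
        simp only [hqb, pr]
        ring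
      have hdq0 : 0 ≤ q' e0 - q e0 := by
        rw [hq'e, hqe]
        linarith [hqab e0]
      have hnum := numer (a e0.1 e0.2) (ha _ _) (ha1 _ _)
      rw [← hdq] at hnum
      have hA : w e0.1 e0.2 * a e0.1 e0.2 ^ 2 / 41 ≤ (q' e0 - q e0) *
          ex q (fun S => nu w (insert e0 S) - nu w (S.erase e0)) := by
        have s1 : (q' e0 - q e0) * (w e0.1 e0.2 * ∏ e ∈ N, (1 - q e)) ≤ (q' e0 - q e0) *
            ex q (fun S => nu w (insert e0 S) - nu w (S.erase e0)) :=
          mul_le_mul_of_nonneg_left hgain hdq0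
        have s2 : (q' e0 - q e0) * Real.exp (-(2 * (1 - a e0.1 e0.2) + (1 - a e0.1 e0.2) ^ 2)) ≤
            (q' e0 - q e0) * ∏ e ∈ N, (1 - q e) := mul_le_mul_of_nonneg_left hprod hdq0
        have s3 := mul_le_mul_of_nonneg_left (hnum.trans s2) (hw e0.1 e0.2)
        calc w e0.1 e0.2 * a e0.1 e0.2 ^ 2 / 41 = w e0.1 e0.2 * (a e0.1 e0.2 ^ 2 / 41) := by ring
          _ ≤ w e0.1 e0.2 * ((q' e0 - q e0) * ∏ e ∈ N, (1 - q e)) := s3
          _ = (q' e0 - q e0) * (w e0.1 e0.2 * ∏ e ∈ N, (1 - q e)) := by ring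
          _ ≤ _ := s1
      rw [sum_insert he0]
      have : (w e0.1 e0.2 * a e0.1 e0.2 ^ 2 + ∑ e ∈ D, w e.1 e.2 * a e.1 e.2 ^ 2) / 41 =
        w e0.1 e0.2 * a e0.1 e0.2 ^ 2 / 41 + (∑ e ∈ D, w e.1 e.2 * a e.1 e.2 ^ 2) / 41 := by ring
      rw [this]
      linarith
  have h := key univ
  have h2 : (fun e => if e ∈ (univ : Finset (U × V)) then qb e else pr a e) = qb := by
    funext e
    rw [if_pos (mem_univ e)]
  rw [h2] at h
  have h3 : ∑ e : U × V, w e.1 e.2 * a e.1 e.2 ^ 2 = ∑ u, ∑ v, w u v * a u v ^ 2 :=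
    Fintype.sum_prod_type (fun e : U × V => w e.1 e.2 * a e.1 e.2 ^ 2)
  rw [h3] at h
  exact h.trans h1

end Pool.Agent.H70.CG.STR
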