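import Pool.Agent.H70.CG.Stm4
import Pool.Agent.H70.CG.NUMA

/-!
# The sum of the increments (by helper30)
-/

namespace Pool.Agent.H70.CG.SUM

open Finset

/-- the inverse function of `w exp w` -/
theorem lam_ex (x : ℝ) (hx : 0 ≤ x) : ∃ w : ℝ, 0 ≤ w ∧ w * Real.exp w = x := by
  have hc : ContinuousOn (fun w : ℝ => w * Real.exp w) (Set.Icc 0 x) :=
    (continuous_id.mul Real.continuous_exp).continuousOn
  have h1 : x ∈ Set.Icc ((fun w : ℝ => w * Real.exp w) 0) ((fun w : ℝ => w * Real.exp w) x) := by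
    constructor
    · show (0 : ℝ) * Real.exp 0 ≤ x
      rw [zero_mul]
      exact hx
    · show x ≤ x * Real.exp x
      have h2 : 1 ≤ Real.exp x := Real.one_le_exp hx
      nlinarith
  obtain ⟨w, hw, he⟩ := intermediate_value_Icc hx hc h1
  exact ⟨w, hw.1, he⟩

theorem lam_mono (a b : ℝ) (hb : 0 ≤ b) (h : a * Real.exp a ≤ b * Real.exp b) : a ≤ b := by
  by_contra hc
  push Not at hc
  have h1 : Real.exp b < Real.exp a := Real.exp_lt_exp.2 hc
  have h2 : 0 < Real.exp b := Real.exp_pos b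
  nlinarith

/-- one step of the recursion -/
theorem step (X w z zp : ℝ) (hw : 0 ≤ w) (hX : w * Real.exp w = X)
    (hz : z ≤ 1 - Real.exp (-(X * (1 - zp)))) :
    z ≤ (1 - Real.exp (-w)) + w / (1 + w) * (z - zp) := by
  obtain ⟨Y, hY⟩ : ∃ Y : ℝ, Y = X * (1 - zp) := ⟨_, rfl⟩
  rw [← hY] at hz
  have h1 : 1 - (Y - w) ≤ Real.exp (-(Y - w)) := by
    have := Real.add_one_le_exp (-(Y - w))
    linarith
  have h2 : Real.exp (-w) * Real.exp (-(Y - w)) = Real.exp (-Y) := by
    rw [← Real.exp_add]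
    congr 1
    ring
  have h3 : 0 < Real.exp (-w) := Real.exp_pos _
  have h4 : Real.exp (-w) * (1 - (Y - w)) ≤ Real.exp (-Y) := by
    rw [← h2]
    exact mul_le_mul_of_nonneg_left h1 h3.le
  have h5 : Real.exp (-w) * Y = w * (1 - zp) := by
    have h6 : Real.exp (-w) * Real.exp w = 1 := by
      rw [← Real.exp_add, neg_add_cancel, Real.exp_zero]
    rw [hY, ← hX]
    linear_combination (w * (1 - zp)) * h6
  have h7 : z + w * zp ≤ (1 + w) * (1 - Real.exp (-w)) := by
    nlinarith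
  have h8 : 0 < 1 + w := by linarith
  have h9 : z * (1 + w) ≤ ((1 - Real.exp (-w)) + w / (1 + w) * (z - zp)) * (1 + w) := by
    have e : ((1 - Real.exp (-w)) + w / (1 + w) * (z - zp)) * (1 + w) =
        (1 + w) * (1 - Real.exp (-w)) + w * (z - zp) := by
      field_simp
    rw [e]
    linarith
  exact le_of_mul_le_mul_right h9 h8

/-- the potential -/
noncomputable def Ph (x : ℝ) : ℝ := x * Real.exp x - x - x ^ 2 / 2

/-- the trapezoid inequality -/
theorem trap (c w v : ℝ) (hc : 0 < c) (hw : 0 ≤ w) (hwv : w ≤ v)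
    (h : v * Real.exp v - w * Real.exp w = c) :
    (1 - Real.exp (-w)) + (1 - Real.exp (-v)) ≤ 2 / c * (Ph v - Ph w) := by
  have hP : Ph v - Ph w = c - (v - w) * (1 + (v + w) / 2) := by
    unfold Ph
    rw [← h]
    ring
  have e1 : 2 / c * (Ph v - Ph w) = 2 - (v - w) * (2 + v + w) / c := by
    rw [hP]
    field_simp
    ring
  rw [e1]
  obtain ⟨D, hD⟩ : ∃ D : ℝ, D = Real.exp (v - w) := ⟨_, rfl⟩
  obtain ⟨D', hD'⟩ : ∃ D' : ℝ, D' = Real.exp (-(v - w)) := ⟨_, rfl⟩
  have e2 : Real.exp (-w) * Real.exp v = D := by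
    rw [hD, ← Real.exp_add]
    congr 1
    ring
  have e3 : Real.exp (-v) * Real.exp w = D' := by
    rw [hD', ← Real.exp_add]
    congr 1
    ring
  have e4 : Real.exp (-w) * Real.exp w = 1 := by
    rw [← Real.exp_add, neg_add_cancel, Real.exp_zero]
  have e5 : Real.exp (-v) * Real.exp v = 1 := by
    rw [← Real.exp_add, neg_add_cancel, Real.exp_zero]
  have e6 : (Real.exp (-w) + Real.exp (-v)) * c = v * D - w * D' + v - w := by
    rw [← h]
    linear_combination v * e2 - w * e3 - w * e4 + v * e5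
  have hs : v - w ≤ Real.sinh (v - w) := Real.self_le_sinh_iff.2 (by linarith)
  rw [Real.sinh_eq, ← hD, ← hD'] at hs
  have h1 : -(v - w) + 1 ≤ D' := by
    rw [hD']
    exact Real.add_one_le_exp _
  have h2 : w * (D' - 1 + (v - w)) ≤ v * (D - 1 - (v - w)) := by
    have h3 : D' - 1 + (v - w) ≤ D - 1 - (v - w) := by linarith
    have h4 : 0 ≤ D' - 1 + (v - w) := by linarith
    calc w * (D' - 1 + (v - w)) ≤ v * (D' - 1 + (v - w)) := mul_le_mul_of_nonneg_right hwv h4
      _ ≤ v * (D - 1 - (v - w)) := mul_le_mul_of_nonneg_left h3 (by linarith)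
  have h5 : (v - w) * (2 + v + w) / c ≤ Real.exp (-w) + Real.exp (-v) := by
    rw [div_le_iff₀ hc, e6]
    nlinarith
  linarith

/-- the sum of the increments and the potential -/
theorem main (c : ℝ) (hc : 0 < c) (N : ℕ) (w : ℕ → ℝ) (hw0 : ∀ i, 0 ≤ w i)
    (hw : ∀ i : ℕ, w i * Real.exp (w i) = c * i) (z : ℕ → ℝ) (hz : ∀ k, 0 ≤ z k ∧ z k ≤ 1)
    (hz0 : z 0 = 0)
    (hrec : ∀ k, 1 ≤ k → k < 2 * N →
      z k ≤ 1 - Real.exp (-(c * (((k + 1) / 2 : ℕ) : ℝ) * (1 - z (k - 1))))) :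
    ∀ i : ℕ, i ≤ N → ∑ k ∈ range (2 * i), z k ≤
      2 / c * Ph (w i) + w i / (1 + w i) * z (2 * i - 1) := by
  have hmono : ∀ i, w i ≤ w (i + 1) := by
    intro i
    apply lam_mono _ _ (hw0 _)
    rw [hw, hw]
    apply mul_le_mul_of_nonneg_left _ hc.le
    push_cast
    linarith
  have hth : ∀ i, w i / (1 + w i) ≤ w (i + 1) / (1 + w (i + 1)) := by
    intro i
    have h1 := hw0 i
    have h2 := hw0 (i + 1)
    rw [div_le_div_iff₀ (by linarith) (by linarith)]
    nlinarith [hmono i]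
  have hw00 : w 0 = 0 := by
    have h := hw 0
    rw [Nat.cast_zero, mul_zero] at h
    rcases mul_eq_zero.1 h with h1 | h1
    · exact h1
    · exact absurd h1 (Real.exp_pos _).ne'
  intro i
  induction i with
  | zero =>
    intro _
    rw [mul_zero, range_zero, sum_empty, hw00]
    unfold Ph
    norm_num
  | succ i ih =>
    intro hi
    have ih' := ih (by omega)
    have hT := trap c (w i) (w (i + 1)) hc (hw0 i) (hmono i) (by
      rw [hw, hw]
      push_cast
      ring)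
    have e1 : 2 * (i + 1) = 2 * i + 1 + 1 := by ring
    have e2 : 2 * i + 1 + 1 - 1 = 2 * i + 1 := by omega
    rw [e1, sum_range_succ, sum_range_succ, e2]
    have hodd : z (2 * i + 1) ≤ (1 - Real.exp (-(w (i + 1)))) +
        w (i + 1) / (1 + w (i + 1)) * (z (2 * i + 1) - z (2 * i)) := by
      apply step (c * ((i + 1 : ℕ) : ℝ)) (w (i + 1)) _ _ (hw0 _) (hw _)
      have h := hrec (2 * i + 1) (by omega) (by omega)
      have e3 : (2 * i + 1 + 1) / 2 = i + 1 := by omega
      have e4 : 2 * i + 1 - 1 = 2 * i := by omega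
      rw [e3, e4] at h
      exact h
    have heven : z (2 * i) ≤ (1 - Real.exp (-(w i))) +
        w i / (1 + w i) * (z (2 * i) - z (2 * i - 1)) := by
      rcases Nat.eq_zero_or_pos i with h0 | hpos
      · subst h0
        rw [mul_zero, hw00, hz0]
        norm_num
      · apply step (c * ((i : ℕ) : ℝ)) (w i) _ _ (hw0 _) (hw _)
        have h := hrec (2 * i) (by omega) (by omega)
        have e3 : (2 * i + 1) / 2 = i := by omega
        rw [e3] at h
        exact h
    have h5 : w i / (1 + w i) * z (2 * i) ≤ w (i + 1) / (1 + w (i + 1)) * z (2 * i) :=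
      mul_le_mul_of_nonneg_right (hth i) (hz _).1
    have h6 : 2 / c * (Ph (w (i + 1)) - Ph (w i)) = 2 / c * Ph (w (i + 1)) - 2 / c * Ph (w i) := by
      ring
    rw [h6] at hT
    nlinarith

/-- the trapezoid inequality for the exponential function -/
theorem tanh_le (t : ℝ) (ht : 0 ≤ t) :
    2 * (1 - Real.exp (-t)) ≤ t * (1 + Real.exp (-t)) := by
  have hd : ∀ x : ℝ, HasDerivAt (fun x => x * (1 + Real.exp (-x)) - 2 * (1 - Real.exp (-x)))
      (1 - Real.exp (-x) * (1 + x)) x := by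
    intro x
    have h1 : HasDerivAt (fun x : ℝ => Real.exp (-x)) (Real.exp (-x) * (-1)) x :=
      (Real.hasDerivAt_exp (-x)).comp x (hasDerivAt_neg x)
    have h2 := ((hasDerivAt_id x).mul (h1.const_add 1)).sub ((h1.const_sub 1).const_mul 2)
    refine h2.congr_deriv ?_
    simp only [id]
    ring
  have hmono : MonotoneOn (fun x => x * (1 + Real.exp (-x)) - 2 * (1 - Real.exp (-x)))
      (Set.Ici (0 : ℝ)) := by
    apply monotoneOn_of_deriv_nonneg (convex_Ici 0)
    · exact fun x _ => (hd x).continuousAt.continuousWithinAt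
    · exact fun x _ => (hd x).differentiableAt.differentiableWithinAt
    · intro x _
      rw [(hd x).deriv]
      have h3 := Real.add_one_le_exp x
      have h4 : Real.exp (-x) * Real.exp x = 1 := by
        rw [← Real.exp_add, neg_add_cancel, Real.exp_zero]
      have h5 : Real.exp (-x) * (x + 1) ≤ Real.exp (-x) * Real.exp x :=
        mul_le_mul_of_nonneg_left h3 (Real.exp_pos _).le
      linarith
  have h := hmono (Set.mem_Ici.2 le_rfl) (Set.mem_Ici.2 ht) ht
  simp only [neg_zero, Real.exp_zero] at h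
  linarith

/-- comparison with the fixed point -/
theorem psi (Om w : ℝ) (h0 : 0 ≤ Om) (hO : Om * Real.exp Om = 1) (hw : Om ≤ w) :
    (2 + Om) * Om - (2 + w) * Real.exp (-w) ≤ (w - Om) * (1 + Om) * Om := by
  obtain ⟨t, ht⟩ : ∃ t : ℝ, t = w - Om := ⟨_, rfl⟩
  have ht0 : 0 ≤ t := by linarith
  have hwt : w = Om + t := by linarith
  have hexp : Real.exp (-Om) = Om := by
    rw [Real.exp_neg]
    have := Real.exp_pos Om
    field_simp
    linarith
  have e1 : Real.exp (-w) = Om * Real.exp (-t) := by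
    rw [hwt, neg_add, Real.exp_add, hexp]
  have h1 := tanh_le t ht0
  have h2 := Real.add_one_le_exp (-t)
  rw [e1, hwt]
  have h3 : (2 + Om) - (2 + (Om + t)) * Real.exp (-t) ≤ t * (1 + Om) := by
    nlinarith
  have h4 := mul_le_mul_of_nonneg_left h3 h0
  nlinarith

theorem conv (Om w X : ℝ) (h0 : 0 ≤ Om) (hO : Om * Real.exp Om = 1) (hw : Om ≤ w)
    (hX : w * Real.exp w = X) : (w - Om) * (1 + Om) ≤ Om * (X - 1) := by
  obtain ⟨t, ht⟩ : ∃ t : ℝ, t = w - Om := ⟨_, rfl⟩
  have ht0 : 0 ≤ t := by linarith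
  have hwt : w = Om + t := by linarith
  have h1 := Real.add_one_le_exp t
  have e1 : Real.exp w = Real.exp Om * Real.exp t := by
    rw [hwt, Real.exp_add]
  have e2 : Om * X = w * Real.exp t := by
    rw [← hX, e1]
    linear_combination (w * Real.exp t) * hO
  have h2 : w * (t + 1) ≤ w * Real.exp t := mul_le_mul_of_nonneg_left h1 (by linarith)
  have h3 : 0 ≤ t * t := mul_self_nonneg t
  rw [← e2] at h2
  rw [← ht]
  rw [hwt] at h2
  nlinarith

/-- the upper bound for `c` -/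
theorem c_up (x c : ℝ) (hx0 : 0 < x) (hx1 : x ≤ 1 / 2) (hc : Real.exp (-c) = 1 - x) :
    c ≤ x + 5 / 6 * x ^ 2 := by
  obtain ⟨y, hy⟩ : ∃ y : ℝ, y = x + 5 / 6 * x ^ 2 := ⟨_, rfl⟩
  have hy0 : 0 ≤ y := by rw [hy]; positivity
  have h1 : 1 + y + y ^ 2 / 2 + y ^ 3 / 6 ≤ Real.exp y := by
    have h := Real.sum_le_exp_of_nonneg hy0 4
    refine le_trans (le_of_eq ?_) h
    simp only [Finset.sum_range_succ, Finset.sum_range_zero, Nat.factorial]
    norm_num
  have h2 : 1 ≤ (1 + y + y ^ 2 / 2 + y ^ 3 / 6) * (1 - x) := by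
    have ey2 : y ^ 2 = x ^ 2 + 5 / 3 * x ^ 3 + 25 / 36 * x ^ 4 := by rw [hy]; ring
    have ey3 : x ^ 3 + 5 / 2 * x ^ 4 + 25 / 12 * x ^ 5 ≤ y ^ 3 := by
      have : y ^ 3 = x ^ 3 + 5 / 2 * x ^ 4 + 25 / 12 * x ^ 5 + 125 / 216 * x ^ 6 := by
        rw [hy]; ring
      rw [this]
      have : 0 ≤ 125 / 216 * x ^ 6 := by positivity
      linarith
    have h3 : 1 + y + y ^ 2 / 2 + (x ^ 3 + 5 / 2 * x ^ 4 + 25 / 12 * x ^ 5) / 6 ≤
        1 + y + y ^ 2 / 2 + y ^ 3 / 6 := by linarith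
    have h4 : 0 ≤ 1 - x := by linarith
    refine le_trans ?_ (mul_le_mul_of_nonneg_right h3 h4)
    rw [ey2, hy]
    have h5 : 0 ≤ x ^ 2 * (1 / 3 - x / 3 - 17 / 72 * x ^ 2 - 30 / 72 * x ^ 3 - 25 / 72 * x ^ 4) := by
      have g2 : x ^ 2 ≤ 1 / 4 := by nlinarith
      have g3 : x ^ 3 ≤ 1 / 8 := by
        have : x ^ 3 = x ^ 2 * x := by ring
        rw [this]
        nlinarith [sq_nonneg x]
      have g4 : x ^ 4 ≤ 1 / 16 := by
        have : x ^ 4 = x ^ 2 * x ^ 2 := by ring
        rw [this]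
        nlinarith [sq_nonneg x]
      apply mul_nonneg (sq_nonneg x)
      linarith
    nlinarith
  have h6 : 1 ≤ Real.exp y * Real.exp (-c) := by
    rw [hc]
    exact le_trans h2 (mul_le_mul_of_nonneg_right h1 (by linarith))
  rw [← Real.exp_add] at h6
  have h7 : 0 ≤ y + -c := by
    by_contra hcon
    push Not at hcon
    have h8 := Real.exp_lt_exp.2 hcon
    rw [Real.exp_zero] at h8
    linarith
  rw [← hy]
  linarith

theorem exp_three_half : Real.exp (3 / 2) ≤ 9 / 2 := by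
  have h1 : Real.exp (3 / 2) ^ 2 = Real.exp 1 ^ 3 := by
    rw [← Real.exp_nat_mul, ← Real.exp_nat_mul]
    norm_num
  have h2 := Real.exp_one_lt_d9
  have h3 : Real.exp 1 ^ 3 ≤ (2.7182818286 : ℝ) ^ 3 :=
    pow_le_pow_left₀ (Real.exp_pos 1).le h2.le 3
  have h4 : Real.exp (3 / 2) ^ 2 ≤ (9 / 2) ^ 2 := by
    rw [h1]
    refine h3.trans ?_
    norm_num
  exact le_of_sq_le_sq h4 (by norm_num)

theorem sum : S_SUM := by
  intro Om hOm N c hN hc z hz hz0 hrec
  obtain ⟨hb1, hb2⟩ := NUMA.om_bounds Om hOm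
  have hN0 : (0 : ℝ) < N := by
    have : 0 < N := by omega
    exact_mod_cast this
  have hN2 : (2 : ℝ) ≤ N := by exact_mod_cast hN
  obtain ⟨x, hx⟩ : ∃ x : ℝ, x = 1 / (N : ℝ) := ⟨_, rfl⟩
  have hx0 : 0 < x := by rw [hx]; positivity
  have hxN : x * N = 1 := by
    rw [hx]
    field_simp
  have hx1 : x ≤ 1 / 2 := by
    rw [hx]
    exact one_div_le_one_div_of_le (by norm_num) hN2
  rw [← hx] at hc
  have hcx : x ≤ c := by
    have := Real.add_one_le_exp (-c)
    rw [hc] at this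
    linarith
  have hc0 : 0 < c := by linarith
  have hcu := c_up x c hx0 hx1 hc
  choose w hw0 hw using fun i : ℕ => lam_ex (c * i) (mul_nonneg hc0.le (Nat.cast_nonneg i))
  have hmain := main c hc0 N w hw0 hw z hz hz0 hrec N le_rfl
  obtain ⟨W, hW⟩ : ∃ W : ℝ, W = w N := ⟨_, rfl⟩
  have hWX : W * Real.exp W = c * N := by rw [hW]; exact hw N
  have hW0 : 0 ≤ W := by rw [hW]; exact hw0 N
  rw [← hW] at hmain
  have hX1 : 1 ≤ c * N := by nlinarith
  have hXu : (c * N - 1) * N ≤ 5 / 6 := by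
    have h1 : c * N * N ≤ (x + 5 / 6 * x ^ 2) * N * N := by
      apply mul_le_mul_of_nonneg_right _ hN0.le
      exact mul_le_mul_of_nonneg_right hcu hN0.le
    have h2 : (x + 5 / 6 * x ^ 2) * N * N = N + 5 / 6 := by
      linear_combination (N + 5 / 6 * (x * N + 1)) * hxN
    linarith
  have hX2 : c * N - 1 ≤ 5 / 12 := by
    have : 0 ≤ c * N - 1 := by linarith
    nlinarith
  have hOW : Om ≤ W := by
    apply lam_mono _ _ hW0
    rw [hOm, hWX]
    exact hX1
  have hO0 : 0 ≤ Om := by linarith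
  have hpsi := psi Om W hO0 hOm hOW
  have hconv := conv Om W (c * N) hO0 hOm hOW hWX
  -- the potential
  have hPh : 2 / c * Ph W = N * (2 - (2 + W) * Real.exp (-W)) := by
    have h4 : Real.exp (-W) * Real.exp W = 1 := by
      rw [← Real.exp_add, neg_add_cancel, Real.exp_zero]
    have h5 : Ph W = c * N * (1 - Real.exp (-W) - W / 2 * Real.exp (-W)) := by
      unfold Ph
      rw [← hWX]
      linear_combination (W + W ^ 2 / 2) * h4
    rw [h5]
    field_simp
    ring
  have hpart1 : N * (2 - (2 + W) * Real.exp (-W)) ≤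
      (2 - 2 * Om - Om ^ 2) * N + Om ^ 2 * (5 / 6) := by
    have h1 : (W - Om) * (1 + Om) * Om ≤ Om * (c * N - 1) * Om :=
      mul_le_mul_of_nonneg_right hconv hO0
    have h2 : (2 + Om) * Om - (2 + W) * Real.exp (-W) ≤ Om ^ 2 * (c * N - 1) := by
      nlinarith
    have h3 := mul_le_mul_of_nonneg_left h2 hN0.le
    have h4 : Om ^ 2 * ((c * N - 1) * N) ≤ Om ^ 2 * (5 / 6) :=
      mul_le_mul_of_nonneg_left hXu (sq_nonneg _)
    nlinarith
  have hWu : W ≤ 18 / 25 := by
    have h1 : (W - Om) * (1 + Om) ≤ Om * (5 / 12) := by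
      refine hconv.trans (mul_le_mul_of_nonneg_left hX2 hO0)
    nlinarith
  have hth : W / (1 + W) ≤ 18 / 43 := by
    rw [div_le_div_iff₀ (by linarith) (by norm_num)]
    linarith
  have hzK : z (2 * N - 1) ≤ 7 / 9 := by
    have h := hrec (2 * N - 1) (by omega) (by omega)
    have e1 : (2 * N - 1 + 1) / 2 = N := by omega
    rw [e1] at h
    have h1 : c * N * (1 - z (2 * N - 1 - 1)) ≤ 3 / 2 := by
      have h2 := (hz (2 * N - 1 - 1)).1
      have h3 : 0 ≤ c * N := by linarith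
      nlinarith
    have h4 : Real.exp (-(3 / 2)) ≤ Real.exp (-(c * N * (1 - z (2 * N - 1 - 1)))) := by
      apply Real.exp_le_exp.2
      linarith
    have h5 : (2 : ℝ) / 9 ≤ Real.exp (-(3 / 2)) := by
      rw [Real.exp_neg, le_inv_comm₀ (by norm_num) (Real.exp_pos _)]
      refine exp_three_half.trans (le_of_eq ?_)
      norm_num
    linarith
  have hpart2 : W / (1 + W) * z (2 * N - 1) ≤ 18 / 43 * (7 / 9) := by
    apply mul_le_mul hth hzK (hz _).1 (by norm_num)
  rw [hPh] at hmain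
  have hO2 : Om ^ 2 ≤ (568 / 1000) ^ 2 := pow_le_pow_left₀ hO0 hb2.le 2
  have : Om ^ 2 * (5 / 6) + 18 / 43 * (7 / 9) ≤ 3 / 5 := by
    norm_num at hO2 ⊢
    linarith
  linarith

end Pool.Agent.H70.CG.SUM
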