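import Pool.Agent.H70.CG.All2
import Pool.Agent.H70.CG.STR
import Pool.Agent.H70.CG.GREAL
import Pool.Agent.H70.CG.INV
import Pool.Agent.H70.CG.REC
import Pool.Agent.H70.CG.SUM

/-!
# The upper bound for the uniform matrix, assembled
-/

namespace Pool.Agent.H70.CG.FIN

open Finset

theorem nu_one_le {N : ℕ} (G : Finset (Fin N × Fin N)) : nu one1 G ≤ N := by
  refine nu_le _ fun M _ hM => ?_
  unfold wsum one1
  rw [Finset.sum_const, nsmul_eq_mul, mul_one]
  have h : M.card ≤ (univ : Finset (Fin N)).card := by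
    refine Finset.card_le_card_of_injOn Prod.fst (fun e _ => Finset.mem_univ _) ?_
    intro e he e' he' h
    exact hM e he e' he' (Or.inl h)
  rw [Finset.card_univ, Fintype.card_fin] at h
  exact_mod_cast h

theorem upp : S_UPP := by
  intro Om hOm N hN
  obtain ⟨b1, b2⟩ := NUMA.om_bounds Om hOm
  rcases Nat.lt_or_ge N 2 with h1 | h2
  · have hN1 : N = 1 := by omega
    subst hN1
    have h3 : ex (fun _ : Fin 1 × Fin 1 => 1 / ((1 : ℕ) : ℝ)) (nu one1) ≤ 1 := by
      refine (ex_mono_f (g := fun _ => (1 : ℝ)) (fun e => by norm_num) (fun e => by norm_num)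
        fun S => ?_).trans_eq (ex_const _ 1)
      have := nu_one_le S
      simpa using this
    refine h3.trans ?_
    push_cast
    nlinarith
  · have hN0 : (0 : ℝ) < N := by exact_mod_cast (by omega : 0 < N)
    have hN2 : (2 : ℝ) ≤ N := by exact_mod_cast h2
    have hpos : 0 < 1 - 1 / (N : ℝ) := by
      have : 1 / (N : ℝ) ≤ 1 / 2 := one_div_le_one_div_of_le (by norm_num) hN2
      linarith
    set c : ℝ := -Real.log (1 - 1 / (N : ℝ)) with hc
    have hexp : Real.exp (-c) = 1 - 1 / (N : ℝ) := by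
      rw [hc, neg_neg, Real.exp_log hpos]
    have hc0 : 0 ≤ c := by
      rw [hc, neg_nonneg]
      refine Real.log_nonpos hpos.le ?_
      have : 0 ≤ 1 / (N : ℝ) := by positivity
      linarith
    obtain ⟨z, z1, z2, z3, z4⟩ := REC.rec INV.inv N c hc0
    have h5 := SUM.sum Om hOm N c h2 hexp z z1 z2 z3
    rw [← z4] at h5
    have h6 : (fun _ : Fin N × Fin N => 1 - Real.exp (-c)) = fun _ => 1 / (N : ℝ) := by
      funext _; rw [hexp]; ring
    rw [h6] at h5
    exact h5

end Pool.Agent.H70.CG.FIN
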