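import Pool.Agent.H70.CG.SIDE2

namespace Pool.Agent.H70.CG.GINT

open Finset Pool.Agent.H70.CG

section
variable {U V : Type} [Fintype U] [Fintype V] [DecidableEq U] [DecidableEq V]

theorem tr_mu (hT : S_TR) (w : U → V → ℝ) (G : Finset (U × V)) (v : V) :
    mu (fun v u => w u v) (trG G) v = pi' w G v := by
  obtain ⟨t1, t2, _, _⟩ := hT U V
  unfold mu pi'; rw [t2, t1, t1]

theorem tr_pi (hT : S_TR) (w : U → V → ℝ) (G : Finset (U × V)) (u : U) :
    pi' (fun v u => w u v) (trG G) u = mu w G u := by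
  obtain ⟨t1, _, t3, _⟩ := hT U V
  unfold mu pi'; rw [t3, t1, t1]

theorem tr_XX (hT : S_TR) (a w : U → V → ℝ) (G : Finset (U × V)) (v : V) (t : ℝ) :
    XX (fun v u => a u v) (fun v u => w u v) (trG G) v t = YY a w G v t := by
  unfold XX YY
  refine Finset.sum_congr rfl fun u _ => ?_
  rw [(hT U V).2.1, tr_pi hT]

theorem tr_YY (hT : S_TR) (a w : U → V → ℝ) (G : Finset (U × V)) (u : U) (t : ℝ) :
    YY (fun v u => a u v) (fun v u => w u v) (trG G) u t = XX a w G u t := by
  unfold XX YY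
  refine Finset.sum_congr rfl fun v _ => ?_
  rw [(hT U V).2.2.1, tr_mu hT]

theorem tr_hK (hT : S_TR) (a w : U → V → ℝ) (G : Finset (U × V)) (u : U) (v : V) (t : ℝ) :
    hK (fun v u => a u v) (fun v u => w u v) (trG G) v u t = kK a w G u v t := by
  unfold hK kK
  refine Finset.sum_congr rfl fun u' _ => ?_
  rw [(hT U V).2.2.1, (hT U V).2.1, tr_pi hT, ← delR_delC]

theorem tr_kK (hT : S_TR) (a w : U → V → ℝ) (G : Finset (U × V)) (u : U) (v : V) (t : ℝ) :
    kK (fun v u => a u v) (fun v u => w u v) (trG G) v u t = hK a w G u v t := by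
  unfold hK kK
  refine Finset.sum_congr rfl fun v' _ => ?_
  rw [(hT U V).2.2.1, (hT U V).2.1, tr_mu hT, ← delR_delC]

theorem tr_XG (hT : S_TR) (w : U → V → ℝ) (G : Finset (U × V)) :
    XG (fun v u => w u v) (trG G) = XG w G := by
  unfold XG
  simp only [tr_mu hT, tr_pi hT, (hT U V).1]; ring

theorem tr_ex (hT : S_TR) (a : U → V → ℝ) (f : Finset (V × U) → ℝ) :
    ex (pr (fun v u => a u v)) f = ex (pr a) (fun G => f (trG G)) := by
  rw [(hT U V).2.2.2]; rfl

/-- laws of the values of rows and columns -/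
theorem law_row (hL : S_LAW) (a w : U → V → ℝ) (u : U) {y : ℝ} (hy : 0 ≤ y) :
    ex (pr a) (fun G => if mu w G u ≤ y then (1 : ℝ) else 0) =
      ex (pr a) (fun G => Real.exp (-(XX a w G u y))) := by
  have := (hL U V a w u y hy).1 (fun _ => 1)
  simpa using this

theorem law_row' (hL : S_LAW) (a w : U → V → ℝ) (u : U) (v : V) {y : ℝ} (hy : 0 ≤ y) :
    ex (pr a) (fun G => if mu w (delC G v) u ≤ y then (1 : ℝ) else 0) =
      ex (pr a) (fun G => Real.exp (-(hK a w G u v y))) := by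
  have := (hL U V a w u y hy).2 (fun _ => 1) v
  simpa using this

theorem law_col (hT : S_TR) (hL : S_LAW) (a w : U → V → ℝ) (v : V) {y : ℝ} (hy : 0 ≤ y) :
    ex (pr a) (fun G => if pi' w G v ≤ y then (1 : ℝ) else 0) =
      ex (pr a) (fun G => Real.exp (-(YY a w G v y))) := by
  have := law_row hL (fun v u => a u v) (fun v u => w u v) v hy
  rw [tr_ex (U := U) (V := V) hT a, tr_ex (U := U) (V := V) hT a] at this
  simpa only [tr_mu hT, tr_XX hT] using this

theorem law_col' (hT : S_TR) (hL : S_LAW) (a w : U → V → ℝ) (u : U) (v : V) {y : ℝ} (hy : 0 ≤ y) :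
    ex (pr a) (fun G => if pi' w (delR G u) v ≤ y then (1 : ℝ) else 0) =
      ex (pr a) (fun G => Real.exp (-(kK a w G u v y))) := by
  have := law_row' hL (fun v u => a u v) (fun v u => w u v) v u hy
  rw [tr_ex (U := U) (V := V) hT a, tr_ex (U := U) (V := V) hT a] at this
  simpa only [(hT U V).2.2.1, tr_mu hT, tr_hK hT] using this

/-- row version of the inequality of an edge -/
theorem edge_row (hT : S_TR) (hE : S_EDGE) {Om : ℝ} (hO : Om * Real.exp Om = 1)
    (a w : U → V → ℝ) (ha : ∀ u v, 0 ≤ a u v) (hrow : ∀ u, ∑ v, a u v ≤ 1)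
    (hwi : ∀ u v, IsI (w u v)) (u : U) (v : V) (t s : ℕ) (hw : w u v = (t : ℝ) + s + 1) :
    ex (pr a) (fun G => cc Om (XX a w G u t) +
      ps Om (XX a w G u t) * (ind t (w u v - pi' w (delR G u) v) - XX a w G u t) +
      (Om - 1 / 2) * Real.exp (-(XX a w G u t))) ≤
    ex (pr a) (fun G => max (cc Om (hK a w G u v t)) 0 +
      ps Om (hK a w G u v t) * (Real.exp (-(kK a w G u v s)) - hK a w G u v t) +
      (Om - 1 / 2) * Real.exp (-(hK a w G u v t))) := by
  have := hE Om hO V U (fun v u => a u v) (fun v u => w u v) (fun v u => ha u v) hrow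
    (fun v u => hwi u v) v u s t (by rw [hw]; ring)
  rw [tr_ex (U := U) (V := V) hT a, tr_ex (U := U) (V := V) hT a] at this
  simpa only [tr_YY hT, tr_kK hT, tr_hK hT, (hT U V).2.2.1, tr_mu hT] using this

theorem ind_nonneg (t x : ℝ) : 0 ≤ ind t x := by unfold ind; split_ifs <;> norm_num

theorem ind_le_one (t x : ℝ) : ind t x ≤ 1 := by unfold ind; split_ifs <;> norm_num

theorem ind_mono {t x y : ℝ} (h : x ≤ y) : ind t x ≤ ind t y := by
  unfold ind
  by_cases h1 : t < x
  · rw [if_pos h1, if_pos (h1.trans_le h)]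
  · rw [if_neg h1]; split_ifs <;> norm_num

theorem ind_mul {t x y : ℝ} (h : x ≤ y) : ind t y * ind t x = ind t x := by
  unfold ind
  by_cases h1 : t < x
  · rw [if_pos h1, if_pos (h1.trans_le h)]; norm_num
  · rw [if_neg h1, mul_zero]

theorem hK_mem (a w : U → V → ℝ) (ha : ∀ u v, 0 ≤ a u v) (hrow : ∀ u, ∑ v, a u v ≤ 1)
    (G : Finset (U × V)) (u : U) (v : V) (t : ℝ) : 0 ≤ hK a w G u v t ∧ hK a w G u v t ≤ 1 := by
  constructor
  · exact Finset.sum_nonneg fun v' _ => mul_nonneg (ha _ _) (ind_nonneg _ _)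
  · refine le_trans (Finset.sum_le_sum fun v' _ => ?_) ((Finset.sum_le_sum_of_subset_of_nonneg
      (Finset.erase_subset v univ) fun v' _ _ => ha u v').trans (hrow u))
    exact mul_le_of_le_one_right (ha _ _) (ind_le_one _ _)

theorem kK_mem (a w : U → V → ℝ) (ha : ∀ u v, 0 ≤ a u v) (hcol : ∀ v, ∑ u, a u v ≤ 1)
    (G : Finset (U × V)) (u : U) (v : V) (t : ℝ) : 0 ≤ kK a w G u v t ∧ kK a w G u v t ≤ 1 := by
  constructor
  · exact Finset.sum_nonneg fun v' _ => mul_nonneg (ha _ _) (ind_nonneg _ _)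
  · refine le_trans (Finset.sum_le_sum fun u' _ => ?_) ((Finset.sum_le_sum_of_subset_of_nonneg
      (Finset.erase_subset u univ) fun u' _ _ => ha u' v).trans (hcol v))
    exact mul_le_of_le_one_right (ha _ _) (ind_le_one _ _)

/-- pointwise inequality for a row and a level -/
theorem row_point (hN0 : S_N0) {Om : ℝ} (hO : Om * Real.exp Om = 1) (a w : U → V → ℝ)
    (ha : ∀ u v, 0 ≤ a u v) (hrow : ∀ u, ∑ v, a u v ≤ 1) (G : Finset (U × V)) (u : U) (t : ℝ) :
    -(∑ v, a u v * (ind t (w u v) * (cc Om (XX a w G u t) +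
      ps Om (XX a w G u t) * (ind t (w u v - pi' w (delR G u) v) - XX a w G u t)))) ≤
    F0 Om (XX a w G u t) + Om * (∑ v, a u v * ind t (w u v)) * Real.exp (-(XX a w G u t)) -
      (2 - 2 * Om - Om ^ 2) * ∑ v, a u v * ind t (w u v) := by
  have hX : ∑ v, a u v * ind t (w u v - pi' w (delR G u) v) = XX a w G u t := rfl
  have h0 : 0 ≤ XX a w G u t := Finset.sum_nonneg fun v' _ => mul_nonneg (ha _ _) (ind_nonneg _ _)
  have hr1 : ∑ v, a u v * ind t (w u v) ≤ 1 := (Finset.sum_le_sum fun v _ =>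
    mul_le_of_le_one_right (ha _ _) (ind_le_one _ _)).trans (hrow u)
  have h1 : XX a w G u t ≤ 1 := (Finset.sum_le_sum fun v _ =>
    mul_le_of_le_one_right (ha _ _) (ind_le_one _ _)).trans (hrow u)
  have hn := hN0 Om hO _ h0 h1
  have e : ∑ v, a u v * (ind t (w u v) * (cc Om (XX a w G u t) +
      ps Om (XX a w G u t) * (ind t (w u v - pi' w (delR G u) v) - XX a w G u t))) =
      (∑ v, a u v * ind t (w u v)) * (cc Om (XX a w G u t) - ps Om (XX a w G u t) * XX a w G u t) +
      ps Om (XX a w G u t) * XX a w G u t := by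
    have e1 : ∀ v, a u v * (ind t (w u v) * (cc Om (XX a w G u t) +
      ps Om (XX a w G u t) * (ind t (w u v - pi' w (delR G u) v) - XX a w G u t))) =
      (a u v * ind t (w u v)) * (cc Om (XX a w G u t) - ps Om (XX a w G u t) * XX a w G u t) +
      ps Om (XX a w G u t) * (a u v * ind t (w u v - pi' w (delR G u) v)) := by
      intro v
      have := ind_mul (t := t) (x := w u v - pi' w (delR G u) v) (y := w u v)
        (by linarith [pi_nonneg w (delR G u) v])
      linear_combination a u v * ps Om (XX a w G u t) * this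
    rw [Finset.sum_congr rfl fun v _ => e1 v, Finset.sum_add_distrib, ← Finset.sum_mul,
      ← Finset.mul_sum, hX]
  rw [e]
  unfold cc
  nlinarith [mul_nonneg (sub_nonneg.2 hr1) hn]

theorem max_sum {n : ℕ} {p : ℝ} (hp : IsI p) (h0 : 0 ≤ p) :
    max ((n : ℝ) - p) 0 = ∑ s ∈ range n, (if p ≤ (s : ℝ) then (1 : ℝ) else 0) := by
  obtain ⟨m, rfl⟩ := hp
  have hm : 0 ≤ m := by exact_mod_cast h0
  obtain ⟨k, rfl⟩ := Int.eq_ofNat_of_zero_le hm
  rw [Finset.sum_ite, Finset.sum_const_zero, add_zero, Finset.sum_const, nsmul_eq_mul, mul_one]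
  have h2 : (range n).filter (fun s : ℕ => (((k : ℤ) : ℝ)) ≤ (s : ℝ)) = Finset.Ico k n := by
    ext s
    simp only [Finset.mem_filter, Finset.mem_range, Finset.mem_Ico, Int.cast_natCast, Nat.cast_le]
    omega
  rw [h2, Nat.card_Ico]
  rcases le_total k n with h | h
  · rw [max_eq_left, Nat.cast_sub h]
    · simp
    · simp only [Int.cast_natCast, sub_nonneg, Nat.cast_le]; exact h
  · rw [max_eq_right, Nat.sub_eq_zero_of_le h]
    · simp
    · simp only [Int.cast_natCast, sub_nonpos, Nat.cast_le]; exact h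

end

end Pool.Agent.H70.CG.GINT
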