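import Pool.Agent.H70.CG.Stm2
import Pool.Agent.H70.CG.Base

/-!
# From the correlation gap to contention resolution on bipartite graphs (by helper23)
-/

namespace Pool.Agent.H70.CG.GRAPH

open Finset

/-- Expectations under an injection of the ground sets. -/
theorem ex_map {E F : Type} [Fintype E] [DecidableEq E] [Fintype F] [DecidableEq F]
    (phi : E ↪ F) (q : E → ℝ) (q' : F → ℝ) (h1 : ∀ e, q' (phi e) = q e)
    (h2 : ∀ p, p ∉ Set.range phi → q' p = 0) (f : Finset F → ℝ) :
    ex q' f = ex q (fun S => f (S.map phi)) := by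
  unfold ex
  symm
  refine Fintype.sum_of_injective (fun S : Finset E => S.map phi) (Finset.map_injective phi) _ _
    ?_ ?_
  · intro S' hS'
    obtain ⟨p, hp, hp2⟩ : ∃ p ∈ S', p ∉ Set.range phi := by
      by_contra hc
      push Not at hc
      apply hS'
      refine ⟨univ.filter (fun e => phi e ∈ S'), ?_⟩
      ext p
      simp only [Finset.mem_map, Finset.mem_filter, Finset.mem_univ, true_and]
      constructor
      · rintro ⟨e, he, rfl⟩; exact he
      · intro hp
        obtain ⟨e, rfl⟩ := hc p hp
        exact ⟨e, hp, rfl⟩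
    unfold wt
    rw [Finset.prod_eq_zero hp (h2 p hp2)]
    ring
  · intro S
    have h3 : wt q' (S.map phi) = wt q S := by
      unfold wt
      rw [Finset.prod_map]
      congr 1
      · exact Finset.prod_congr rfl fun e _ => h1 e
      · have h4 : ∏ e ∈ Sᶜ, (1 - q e) = ∏ p ∈ (Sᶜ).map phi, (1 - q' p) := by
          rw [Finset.prod_map]
          exact Finset.prod_congr rfl fun e _ => by rw [h1 e]
        rw [h4]
        symm
        refine Finset.prod_subset ?_ ?_
        · intro p hp
          rw [Finset.mem_map] at hp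
          obtain ⟨e, he, rfl⟩ := hp
          rw [Finset.mem_compl] at he ⊢
          rw [Finset.mem_map' phi]
          exact he
        · intro p hp hp2
          rw [h2 p, sub_zero]
          rintro ⟨e, rfl⟩
          rw [Finset.mem_compl, Finset.mem_map' phi] at hp
          apply hp2
          rw [Finset.mem_map' phi, Finset.mem_compl]
          exact hp
    rw [h3]

/-- The probability that `e` is in the random set. -/
theorem sum_mem {E : Type} [Fintype E] [DecidableEq E] (q : E → ℝ) (e : E) :
    ∑ S : Finset E, (if e ∈ S then wt q S else 0) = q e := by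
  have h := Finset.prod_add q (fun i => if i = e then 0 else 1 - q i) (univ : Finset E)
  rw [Finset.powerset_univ] at h
  have h2 : ∏ i ∈ (univ : Finset E), (q i + (if i = e then 0 else 1 - q i)) = q e := by
    rw [Finset.prod_eq_single e]
    · simp
    · intro b _ hb
      rw [if_neg hb]; ring
    · intro h; exact absurd (Finset.mem_univ e) h
  rw [h2] at h
  rw [h]
  refine Finset.sum_congr rfl fun S _ => ?_
  unfold wt
  by_cases he : e ∈ S
  · rw [if_pos he, Finset.compl_eq_univ_sdiff]
    congr 1
    refine Finset.prod_congr rfl fun i hi => ?_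
    rw [if_neg]
    rintro rfl
    rw [Finset.mem_sdiff] at hi
    exact hi.2 he
  · rw [if_neg he]
    rw [Finset.prod_eq_zero (i := e) (s := univ \ S)
      (f := fun i => if i = e then (0 : ℝ) else 1 - q i)
      (Finset.mem_sdiff.2 ⟨Finset.mem_univ e, he⟩) (by simp)]
    ring

theorem graph (c : ℝ) (hc : 0 ≤ c) (hG : S_GAP c) (hC : S_CRS) : S_BIP c := by
  classical
  intro V _ _ G _ hcol x hx
  obtain ⟨col⟩ := hcol
  -- the polytope
  have hx1 : (∀ e, 0 ≤ x e) ∧ ∀ v : V, ∑ e : G.edgeSet, (if v ∈ e.1 then x e else 0) ≤ 1 := by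
    have hconv : Convex ℝ {y : G.edgeSet → ℝ | (∀ e, 0 ≤ y e) ∧
        ∀ v : V, ∑ e : G.edgeSet, (if v ∈ e.1 then y e else 0) ≤ 1} := by
      intro y hy z hz s t hs ht hst
      refine ⟨fun e => ?_, fun v => ?_⟩
      · have := mul_nonneg hs (hy.1 e)
        have := mul_nonneg ht (hz.1 e)
        simp only [Pi.add_apply, Pi.smul_apply, smul_eq_mul]
        linarith
      · have e1 : ∑ e : G.edgeSet, (if v ∈ e.1 then (s • y + t • z) e else 0) =
            s * ∑ e : G.edgeSet, (if v ∈ e.1 then y e else 0) +
            t * ∑ e : G.edgeSet, (if v ∈ e.1 then z e else 0) := by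
          rw [Finset.mul_sum, Finset.mul_sum, ← Finset.sum_add_distrib]
          refine Finset.sum_congr rfl fun e _ => ?_
          split_ifs
          · simp only [Pi.add_apply, Pi.smul_apply, smul_eq_mul]
          · ring
        rw [e1]
        have h1 := mul_le_mul_of_nonneg_left (hy.2 v) hs
        have h2 := mul_le_mul_of_nonneg_left (hz.2 v) ht
        linarith
    refine convexHull_min ?_ hconv hx
    rintro y ⟨M, hM, rfl⟩
    refine ⟨fun e => by dsimp only; split_ifs <;> norm_num, fun v => ?_⟩
    by_cases hv : ∃ e ∈ M, v ∈ e.1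
    · obtain ⟨e0, he0, hv0⟩ := hv
      rw [Finset.sum_eq_single e0]
      · simp [he0, hv0]
      · intro e _ hne
        by_cases h1 : v ∈ e.1
        · have h2 : e ∉ M := fun h2 => hne (hM e h2 e0 he0 v h1 hv0)
          simp [h2]
        · rw [if_neg h1]
      · intro h; exact absurd (Finset.mem_univ e0) h
    · push Not at hv
      rw [Finset.sum_eq_zero]
      · norm_num
      · intro e _
        by_cases h2 : e ∈ M
        · rw [if_neg (hv e h2)]
        · simp [h2]
  obtain ⟨hx0, hxv⟩ := hx1
  -- the bipartition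
  have hphi : ∀ e : G.edgeSet, ∃ p : V × V, s(p.1, p.2) = e.1 ∧ col p.1 = 0 := by
    rintro ⟨e, he⟩
    induction e using Sym2.ind with
    | _ a b =>
      rw [SimpleGraph.mem_edgeSet] at he
      have hne := col.valid he
      by_cases h : col a = 0
      · exact ⟨(a, b), rfl, h⟩
      · refine ⟨(b, a), Sym2.eq_swap, ?_⟩
        change col b = 0
        omega
  choose ph hph1 hph2 using hphi
  have hadj : ∀ e : G.edgeSet, G.Adj (ph e).1 (ph e).2 := by
    intro e
    rw [← SimpleGraph.mem_edgeSet, hph1 e]
    exact e.2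
  have hinj : Function.Injective ph := by
    intro e e' h
    apply Subtype.ext
    rw [← hph1 e, ← hph1 e', h]
  let phi : G.edgeSet ↪ V × V := ⟨ph, hinj⟩
  have hcol2 : ∀ e : G.edgeSet, col (ph e).2 ≠ 0 := by
    intro e h
    exact col.valid (hadj e) (by rw [hph2 e, h])
  -- extension of functions
  let ext : (G.edgeSet → ℝ) → V → V → ℝ := fun y u v =>
    if h : G.Adj u v ∧ col u = 0 then y ⟨s(u, v), h.1⟩ else 0
  have hext1 : ∀ y e, ext y (ph e).1 (ph e).2 = y e := by
    intro y e
    have h : G.Adj (ph e).1 (ph e).2 ∧ col (ph e).1 = 0 := ⟨hadj e, hph2 e⟩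
    show (if h : G.Adj (ph e).1 (ph e).2 ∧ col (ph e).1 = 0 then
      y ⟨s((ph e).1, (ph e).2), h.1⟩ else 0) = y e
    rw [dif_pos h]
    congr 1
    exact Subtype.ext (hph1 e)
  have hext2 : ∀ y (p : V × V), p ∉ Set.range phi → ext y p.1 p.2 = 0 := by
    rintro y ⟨u, v⟩ hp
    show (if h : G.Adj u v ∧ col u = 0 then y ⟨s(u, v), h.1⟩ else 0) = 0
    rw [dif_neg]
    rintro ⟨h1, h2⟩
    apply hp
    refine ⟨⟨s(u, v), h1⟩, ?_⟩
    change ph _ = _
    have h3 := hph1 ⟨s(u, v), h1⟩
    have h4 := hph2 ⟨s(u, v), h1⟩
    rw [Sym2.eq_iff] at h3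
    rcases h3 with h3 | h3
    · exact Prod.ext h3.1 h3.2
    · exfalso
      rw [h3.1] at h4
      exact col.valid h1 (by rw [h2, h4])
  have hext0 : ∀ y : G.edgeSet → ℝ, (∀ e, 0 ≤ y e) → ∀ u v, 0 ≤ ext y u v := by
    intro y hy u v
    show 0 ≤ (if h : G.Adj u v ∧ col u = 0 then y ⟨s(u, v), h.1⟩ else 0)
    split_ifs
    · exact hy _
    · exact le_rfl
  have hsum : ∀ f : V × V → ℝ, (∀ p, p ∉ Set.range phi → f p = 0) →
      ∑ p, f p = ∑ e, f (ph e) := by
    intro f hf
    exact (Fintype.sum_of_injective phi phi.injective (fun e => f (ph e)) f hf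
      (fun e => rfl)).symm
  have hrow : ∀ u, ∑ v, ext x u v ≤ 1 := by
    intro u
    have e1 : ∑ v, ext x u v = ∑ p : V × V, (if p.1 = u then ext x p.1 p.2 else 0) := by
      symm
      rw [Fintype.sum_prod_type, Finset.sum_eq_single u]
      · exact Finset.sum_congr rfl fun v _ => by rw [if_pos rfl]
      · intro u' _ hne
        exact Finset.sum_eq_zero fun v _ => by rw [if_neg hne]
      · intro h; exact absurd (Finset.mem_univ u) h
    rw [e1, hsum _ (by
      intro p hp
      rw [hext2 x p hp]; simp)]
    refine le_trans (Finset.sum_le_sum fun e _ => ?_) (hxv u)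
    rw [hext1]
    split_ifs with h1 h2 h2
    · exact le_rfl
    · exfalso; apply h2
      rw [← hph1 e, ← h1]
      exact Sym2.mem_mk_left _ _
    · exact hx0 e
    · exact le_rfl
  have hcolm : ∀ v, ∑ u, ext x u v ≤ 1 := by
    intro v
    have e1 : ∑ u, ext x u v = ∑ p : V × V, (if p.2 = v then ext x p.1 p.2 else 0) := by
      symm
      rw [Fintype.sum_prod_type_right, Finset.sum_eq_single v]
      · exact Finset.sum_congr rfl fun u _ => by rw [if_pos rfl]
      · intro u' _ hne
        exact Finset.sum_eq_zero fun u _ => by rw [if_neg hne]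
      · intro h; exact absurd (Finset.mem_univ v) h
    rw [e1, hsum _ (by
      intro p hp
      rw [hext2 x p hp]; simp)]
    refine le_trans (Finset.sum_le_sum fun e _ => ?_) (hxv v)
    rw [hext1]
    split_ifs with h1 h2 h2
    · exact le_rfl
    · exfalso; apply h2
      rw [← hph1 e, ← h1]
      exact Sym2.mem_mk_right _ _
    · exact hx0 e
    · exact le_rfl
  have hx1 : ∀ e, x e ≤ 1 := by
    intro e
    have h := hxv (ph e).1
    refine le_trans ?_ h
    have h1 : x e = (if (ph e).1 ∈ e.1 then x e else 0) := by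
      rw [if_pos]
      have h2 : (ph e).1 ∈ s((ph e).1, (ph e).2) := Sym2.mem_mk_left _ _
      rw [hph1 e] at h2
      exact h2
    rw [h1]
    exact Finset.single_le_sum (f := fun e' : G.edgeSet => if (ph e).1 ∈ e'.1 then x e' else 0)
      (fun e' _ => by split_ifs; exacts [hx0 e', le_rfl]) (Finset.mem_univ e)
  -- the scheme
  obtain ⟨sch, hs1, hs2, hs3, hs4⟩ := hC G.edgeSet (IsMatching G) c x
    (by intro e he; simp at he) hx0 hx1 (by
      intro w hw
      have hgap := hG V V (ext x) (ext w) (hext0 x hx0) hrow hcolm (hext0 w hw)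
      rw [← Fintype.sum_prod_type' (f := fun u v => ext x u v * ext w u v),
        hsum (fun p => ext x p.1 p.2 * ext w p.1 p.2) (by
          intro p hp
          rw [hext2 x p hp]; ring)] at hgap
      simp only [hext1] at hgap
      rw [ex_map phi x (fun e : V × V => ext x e.1 e.2) (fun e => hext1 x e) (hext2 x)] at hgap
      have hM : ∀ S : Finset G.edgeSet, ∃ M : Finset (V × V), M ⊆ S.map phi ∧ IsMat M ∧
          wsum (ext w) M = nu (ext w) (S.map phi) := fun S => exists_nu _ _
      choose M hM1 hM2 hM3 using hM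
      refine ⟨fun S => univ.filter (fun e => ph e ∈ M S), fun S => ⟨?_, ?_⟩, ?_⟩
      · intro e he
        rw [Finset.mem_filter] at he
        have := hM1 S he.2
        exact (Finset.mem_map' phi).1 this
      · intro e he e' he' v hv hv'
        rw [Finset.mem_filter] at he he'
        rw [← hph1 e, Sym2.mem_iff] at hv
        rw [← hph1 e', Sym2.mem_iff] at hv'
        apply hinj
        apply hM2 S _ he.2 _ he'.2
        rcases hv with hv | hv <;> rcases hv' with hv' | hv'
        · left; rw [← hv, ← hv']
        · exfalso; exact hcol2 e' (by rw [← hv', hv]; exact hph2 e)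
        · exfalso; exact hcol2 e (by rw [← hv, hv']; exact hph2 e')
        · right; rw [← hv, ← hv']
      · refine le_trans hgap (le_of_eq ?_)
        congr 1
        funext S
        rw [← hM3 S]
        unfold wsum
        have hMS : M S = (univ.filter (fun e => ph e ∈ M S)).map phi := by
          ext p
          simp only [Finset.mem_map, Finset.mem_filter, Finset.mem_univ, true_and]
          constructor
          · intro hp
            have := hM1 S hp
            rw [Finset.mem_map] at this
            obtain ⟨e, _, rfl⟩ := this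
            exact ⟨e, hp, rfl⟩
          · rintro ⟨e, he, rfl⟩; exact he
        conv_lhs => rw [hMS]
        rw [Finset.sum_map]
        exact Finset.sum_congr rfl fun e _ => hext1 w e)
  refine ⟨sch, ⟨hs1, hs2, hs3⟩, ?_⟩
  intro e he
  unfold condSel
  have hden : ∑ S : Finset G.edgeSet, (if e ∈ S then probR G x S else 0) = x e := sum_mem x e
  rw [hden, le_div_iff₀ he]
  refine le_trans (hs4 e) (le_of_eq ?_)
  unfold ex
  refine Finset.sum_congr rfl fun S _ => ?_
  by_cases h : e ∈ S
  · rw [if_pos h]; rfl
  · rw [if_neg h]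
    have h0 : ∑ M : Finset G.edgeSet, (if e ∈ M then sch S M else 0) = 0 := by
      refine Finset.sum_eq_zero fun M' _ => ?_
      split_ifs with h1
      · by_contra h2
        exact h ((hs3 S M' h2).1 h1)
      · rfl
    show wt x S * ∑ M : Finset G.edgeSet, (if e ∈ M then sch S M else 0) = 0
    rw [h0, mul_zero]

end Pool.Agent.H70.CG.GRAPH
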