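import Pool.Agent.H70.CG.SIDE

namespace Pool.Agent.H70.CG.POIS

open Finset Pool.Agent.H70.CG

theorem mu_delC_le (hSM : S_SM) (hI : S_INS) (hI2 : S_INS2) {U V : Type} [Fintype V]
    [DecidableEq U] [DecidableEq V] (w : U → V → ℝ) (G : Finset (U × V)) (u : U) (v : V) :
    mu w (delC G v) u ≤ mu w G u := by
  rw [hI2 U V w G u v, hI U V w G u]
  unfold pmax
  rw [Finset.fold_max_le]
  refine ⟨(Finset.le_fold_max _).2 (Or.inl le_rfl), fun v' hv' => ?_⟩
  refine (Finset.le_fold_max _).2 (Or.inr ⟨v', Finset.mem_of_mem_erase hv', ?_⟩)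
  have := hSM U V w (delR G u) v v' (Finset.ne_of_mem_erase hv').symm
  linarith

theorem pois (hSM : S_SM) (hI : S_INS) (hI2 : S_INS2) (hS : S_SIDE) (hT : S_TR) : S_POIS := by
  intro c k hF hk U V _ _ _ _ a w ha hrow hcol hw
  have hq0 : ∀ e, 0 ≤ pr a e := fun e => SIDE.q_nonneg (ha _ _)
  have hq1 : ∀ e, pr a e ≤ 1 := fun e => SIDE.q_le_one _
  have R := hS c k hF U V a w ha hrow hw
  have C := hS c k hF V U (fun v u => a u v) (fun v u => w u v) (fun v u => ha u v) hcol
    (fun v u => hw u v)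
  obtain ⟨t1, t2, t3, t4⟩ := hT U V
  have hpr : (fun e : U × V => pr (fun v u => a u v) (e.2, e.1)) = pr a := rfl
  have t5 : ∀ f : Finset (V × U) → ℝ, ex (pr (fun v u => a u v)) f =
      ex (pr a) (fun G => f (trG G)) := by
    intro f; rw [t4, hpr]
  have t6 : ∀ G v, mu (fun v u => w u v) (trG G) v = pi' w G v := by
    intro G v; unfold mu pi'; rw [t2, t1, t1]
  have t7 : ∀ G u, pi' (fun v u => w u v) (trG G) u = mu w G u := by
    intro G u; unfold mu pi'; rw [t3, t1, t1]
  have t8 : ∀ G, XG (fun v u => w u v) (trG G) = XG w G := by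
    intro G; unfold XG; simp only [t6, t7, t1]; ring
  simp only [t5, t2, t6, t7, t8] at C
  have hswap : ∀ F : U → V → ℝ, ∑ v, ∑ u, F u v = ∑ u, ∑ v, F u v := fun F => Finset.sum_comm
  rw [hswap (fun u v => a u v * w u v),
    hswap (fun u v => a u v * ex (pr a) (fun G => max (w u v - mu w (delC G v) u) 0)),
    hswap (fun u v => a u v * ex (pr a) (fun G => max (w u v - pi' w G v) 0)),
    hswap (fun u v => a u v * (ex (pr a) (fun G => max (w u v - mu w (delC G v) u) 0) -
      ex (pr a) (fun G => max (w u v - mu w G u) 0)))] at C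
  set P := ∑ u, ∑ v, a u v * ex (pr a) (fun G => max (w u v - pi' w (delR G u) v) 0) with hP
  set P' := ∑ u, ∑ v, a u v * ex (pr a) (fun G => max (w u v - mu w (delC G v) u) 0) with hP'
  set Q := ∑ u, ∑ v, a u v * ex (pr a) (fun G => max (w u v - pi' w G v) 0) with hQ
  set Q' := ∑ u, ∑ v, a u v * ex (pr a) (fun G => max (w u v - mu w G u) 0) with hQ'
  have s1 : ∑ u, ∑ v, a u v * (ex (pr a) (fun G => max (w u v - pi' w (delR G u) v) 0) -
      ex (pr a) (fun G => max (w u v - pi' w G v) 0)) = P - Q := by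
    rw [hP, hQ, ← Finset.sum_sub_distrib]
    refine Finset.sum_congr rfl fun u _ => ?_
    rw [← Finset.sum_sub_distrib]
    exact Finset.sum_congr rfl fun v _ => by ring
  have s2 : ∑ u, ∑ v, a u v * (ex (pr a) (fun G => max (w u v - mu w (delC G v) u) 0) -
      ex (pr a) (fun G => max (w u v - mu w G u) 0)) = P' - Q' := by
    rw [hP', hQ', ← Finset.sum_sub_distrib]
    refine Finset.sum_congr rfl fun u _ => ?_
    rw [← Finset.sum_sub_distrib]
    exact Finset.sum_congr rfl fun v _ => by ring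
  have m1 : Q ≤ P := by
    refine Finset.sum_le_sum fun u _ => Finset.sum_le_sum fun v _ =>
      mul_le_mul_of_nonneg_left (ex_mono_f hq0 hq1 fun G => ?_) (ha u v)
    refine max_le_max ?_ le_rfl
    have := pi_eq w G u v
    have := mu_delC_le hSM hI hI2 w G u v
    linarith
  have m2 : Q' ≤ P' := by
    refine Finset.sum_le_sum fun u _ => Finset.sum_le_sum fun v _ =>
      mul_le_mul_of_nonneg_left (ex_mono_f hq0 hq1 fun G => ?_) (ha u v)
    refine max_le_max ?_ le_rfl
    have := mu_delC_le hSM hI hI2 w G u v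
    linarith
  rw [s1] at R
  rw [s2] at C
  have hnu : ex (pr a) (nu w) = ex (pr a) (fun G => ∑ u, mu w G u) +
      ex (pr a) (fun G => ∑ v, pi' w G v) - ex (pr a) (XG w) := by
    rw [← ex_add, ← ex_sub]
    congr 1
    funext G
    unfold XG; ring
  rw [hnu]
  nlinarith [mul_nonneg (sub_nonneg.2 hk) (sub_nonneg.2 m1),
    mul_nonneg (sub_nonneg.2 hk) (sub_nonneg.2 m2)]

theorem gap {c k : ℝ} (hF : FF c k) (hk : 1 / 2 ≤ k) (hP : S_POIS) (hM : S_MONO) : S_GAP c := by
  intro U V _ _ _ _ a w ha hrow hcol hw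
  refine (hP c k hF hk U V a w ha hrow hcol hw).trans ?_
  refine hM (U × V) (pr a) (fun e => a e.1 e.2) (nu w) (fun e => SIDE.q_nonneg (ha _ _))
    (fun e => ?_) (fun e => ?_) (fun S S' h => nu_mono w h)
  · unfold pr
    have := Real.add_one_le_exp (-(a e.1 e.2))
    linarith
  · exact (Finset.single_le_sum (f := fun v => a e.1 v) (fun v _ => ha e.1 v)
      (Finset.mem_univ e.2)).trans (hrow e.1)

end Pool.Agent.H70.CG.POIS
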