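import Pool.Agent.H70.CG.Stm

/-!
# The exact correlation gap of bipartite matchings: definitions and statements

`Om` is the solution of `Om * exp Om = 1`; the constant is `2 - 2 * Om - Om ^ 2`.
-/

namespace Pool.Agent.H70.CG

open Finset

/-- indicator of `t < x` -/
noncomputable def ind (t x : ℝ) : ℝ := if t < x then 1 else 0

/-- `x` is an integer -/
def IsI (x : ℝ) : Prop := ∃ n : ℤ, x = (n : ℝ)

/-- available rate of the row `u` at the level `t` (a function of `delR G u`) -/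
noncomputable def XX {U V : Type} [Fintype V] [DecidableEq U] [DecidableEq V] (a w : U → V → ℝ)
    (G : Finset (U × V)) (u : U) (t : ℝ) : ℝ :=
  ∑ v, a u v * ind t (w u v - pi' w (delR G u) v)

/-- available rate of the column `v` at the level `s` (a function of `delC G v`) -/
noncomputable def YY {U V : Type} [Fintype U] [DecidableEq U] [DecidableEq V] (a w : U → V → ℝ)
    (G : Finset (U × V)) (v : V) (s : ℝ) : ℝ :=
  ∑ u, a u v * ind s (w u v - mu w (delC G v) u)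

/-- available rate of the row `u` without the column `v` (a function of `delR (delC G v) u`) -/
noncomputable def hK {U V : Type} [Fintype V] [DecidableEq U] [DecidableEq V] (a w : U → V → ℝ)
    (G : Finset (U × V)) (u : U) (v : V) (t : ℝ) : ℝ :=
  ∑ v' ∈ univ.erase v, a u v' * ind t (w u v' - pi' w (delR (delC G v) u) v')

/-- available rate of the column `v` without the row `u` (a function of `delR (delC G v) u`) -/
noncomputable def kK {U V : Type} [Fintype U] [DecidableEq U] [DecidableEq V] (a w : U → V → ℝ)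
    (G : Finset (U × V)) (u : U) (v : V) (s : ℝ) : ℝ :=
  ∑ u' ∈ univ.erase u, a u' v * ind s (w u' v - mu w (delR (delC G v) u) u')

/-- the auxiliary function `F0` -/
noncomputable def F0 (Om x : ℝ) : ℝ := 2 * (1 - Real.exp (-x)) - x * Real.exp (-x) - Om * x

/-- the cost function -/
noncomputable def cc (Om x : ℝ) : ℝ := (2 - 2 * Om - Om ^ 2) - F0 Om x - Om * Real.exp (-x)

/-- the test function -/
noncomputable def ps (Om x : ℝ) : ℝ :=
  if x ≤ Om then 42 / 1000 * (x - Om) else 7 / 100 * (x - Om)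

/-! ## Numerical statements -/

def S_N0 : Prop := ∀ Om : ℝ, Om * Real.exp Om = 1 → ∀ x : ℝ, 0 ≤ x → x ≤ 1 →
  0 ≤ F0 Om x + ps Om x * x

def S_N1 : Prop := ∀ Om : ℝ, Om * Real.exp Om = 1 → ∀ h x A : ℝ, 0 ≤ h → h ≤ x → x ≤ 1 →
  0 ≤ A → A ≤ 1 →
  cc Om x + ps Om x * (A - x) + (Om - 1 / 2) * Real.exp (-x) ≤
    max (cc Om h) 0 + ps Om h * (A - h) + (Om - 1 / 2) * Real.exp (-h)

def S_N2 : Prop := ∀ Om : ℝ, Om * Real.exp Om = 1 → ∀ h k : ℝ, 0 ≤ h → h ≤ 1 → 0 ≤ k → k ≤ 1 →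
  max (cc Om h) 0 + ps Om h * (Real.exp (-k) - h) +
    (max (cc Om k) 0 + ps Om k * (Real.exp (-h) - k)) ≤ 0

def S_OM : Prop := ∃ Om : ℝ, (Om * Real.exp Om = 1 ∧ 567 / 1000 < Om ∧ Om < 568 / 1000) ∧
  ∀ Om' : ℝ, Om' * Real.exp Om' = 1 → Om' = Om

/-! ## Structural statements -/

/-- The values are integers for integer weights. -/
def S_INT : Prop := ∀ (U V : Type) (w : U → V → ℝ), (∀ u v, IsI (w u v)) →
  ∀ G : Finset (U × V), IsI (nu w G)

/-- Discrete layer cake identity for one row. -/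
def S_ROWI : Prop := ∀ (k : ℝ) (V : Type) [Fintype V] [DecidableEq V] (T w : V → ℝ) (a : V → ℝ)
  (B : ℕ), (∀ v, 0 ≤ w v) → (∀ v, T v ≤ w v) → (∀ v, w v ≤ B) → (∀ v, IsI (T v)) →
  (∀ v, IsI (w v)) →
  ex (fun v => 1 - Real.exp (-(a v))) (fun S =>
    2 * pmax T S - ∑ v, a v * max (T v - pmax T S) 0 - k * ∑ v, a v * max (T v) 0 +
      k * ∑ v, a v * max (w v - pmax T S) 0) =
  ∑ t ∈ range B, (2 * (1 - Real.exp (-(∑ v, a v * ind t (T v)))) -
    (∑ v, a v * ind t (T v)) * Real.exp (-(∑ v, a v * ind t (T v))) -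
    k * (∑ v, a v * ind t (T v)) +
    k * (∑ v, a v * ind t (w v)) * Real.exp (-(∑ v, a v * ind t (T v))))

/-- Rows are substitutes. -/
def S_SUB : Prop := ∀ (U V : Type) [Fintype U] [Fintype V] [DecidableEq U] [DecidableEq V]
  (w : U → V → ℝ) (H : Finset (U × V)),
  (∀ u u', u' ≠ u → mu w H u' ≤ mu w (delR H u) u') ∧
  (∀ v v', v' ≠ v → pi' w H v' ≤ pi' w (delC H v) v')

/-- The law of the value of a row. -/
def S_LAW : Prop := ∀ (U V : Type) [Fintype U] [Fintype V] [DecidableEq U] [DecidableEq V]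
  (a w : U → V → ℝ) (u : U) (y : ℝ), 0 ≤ y → 
  (∀ F : Finset (U × V) → ℝ,
    ex (pr a) (fun G => F (delR G u) * (if mu w G u ≤ y then 1 else 0)) =
    ex (pr a) (fun G => F (delR G u) * Real.exp (-(XX a w G u y)))) ∧
  (∀ (F : Finset (U × V) → ℝ) (v : V),
    ex (pr a) (fun G => F (delR (delC G v) u) * (if mu w (delC G v) u ≤ y then 1 else 0)) =
    ex (pr a) (fun G => F (delR (delC G v) u) * Real.exp (-(hK a w G u v y))))

/-- The inequality of an edge, column side. -/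
def S_EDGE : Prop := ∀ Om : ℝ, Om * Real.exp Om = 1 → ∀ (U V : Type) [Fintype U] [Fintype V]
  [DecidableEq U] [DecidableEq V] (a w : U → V → ℝ), (∀ u v, 0 ≤ a u v) →
  (∀ v, ∑ u, a u v ≤ 1) → (∀ u v, IsI (w u v)) →
  ∀ (u : U) (v : V) (t s : ℕ), w u v = (t : ℝ) + s + 1 →
  ex (pr a) (fun G => cc Om (YY a w G v s) +
      ps Om (YY a w G v s) * (ind s (w u v - mu w (delC G v) u) - YY a w G v s) +
      (Om - 1 / 2) * Real.exp (-(YY a w G v s))) ≤
  ex (pr a) (fun G => max (cc Om (kK a w G u v s)) 0 +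
      ps Om (kK a w G u v s) * (Real.exp (-(hK a w G u v t)) - kK a w G u v s) +
      (Om - 1 / 2) * Real.exp (-(kK a w G u v s)))

/-- The inequality for the rows, exact form, integer weights bounded by `B`. -/
def S_SIDE2 : Prop := ∀ (k c : ℝ) (U V : Type) [Fintype U] [Fintype V] [DecidableEq U]
  [DecidableEq V] (a w : U → V → ℝ) (B : ℕ), (∀ u v, 0 ≤ a u v) →
  (∀ u v, 0 ≤ w u v) → (∀ u v, IsI (w u v)) → (∀ u v, w u v ≤ B) →
  c * ∑ u, ∑ v, a u v * w u v +
    ∑ u, ∑ t ∈ range B, ex (pr a) (fun G => F0 k (XX a w G u t) +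
      k * (∑ v, a u v * ind t (w u v)) * Real.exp (-(XX a w G u t)) -
      c * ∑ v, a u v * ind t (w u v)) +
    k * ∑ u, ∑ v, a u v * ex (pr a) (fun G => max (w u v - pi' w (delR G u) v) 0) -
    k * ∑ u, ∑ v, a u v * ex (pr a) (fun G => max (w u v - mu w G u) 0) -
    (∑ u, ∑ v, a u v * (ex (pr a) (fun G => max (w u v - pi' w (delR G u) v) 0) -
      ex (pr a) (fun G => max (w u v - pi' w G v) 0))) / 2
  ≤ 2 * ex (pr a) (fun G => ∑ u, mu w G u) - ex (pr a) (XG w)

/-- The exact correlation gap, integer weights, Poissonised graph. -/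
def S_GINT : Prop := ∀ Om : ℝ, Om * Real.exp Om = 1 → ∀ (U V : Type) [Fintype U] [Fintype V]
  [DecidableEq U] [DecidableEq V] (a w : U → V → ℝ), (∀ u v, 0 ≤ a u v) →
  (∀ u, ∑ v, a u v ≤ 1) → (∀ v, ∑ u, a u v ≤ 1) → (∀ u v, 0 ≤ w u v) → (∀ u v, IsI (w u v)) →
  (2 - 2 * Om - Om ^ 2) * ∑ u, ∑ v, a u v * w u v ≤ ex (pr a) (nu w)

/-- The exact correlation gap. -/
def S_GAMMA : Prop := ∀ Om : ℝ, Om * Real.exp Om = 1 → S_GAP (2 - 2 * Om - Om ^ 2)

end Pool.Agent.H70.CG
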