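import Pool.Agent.H70.CG.SIDE
import Pool.Agent.H70.CG.Stm3

namespace Pool.Agent.H70.CG.SIDE2

open Finset Pool.Agent.H70.CG

theorem ind_sum {x : ℝ} {B : ℕ} (h : IsI x) (h0 : 0 ≤ x) (hB : x ≤ B) :
    ∑ t ∈ range B, ind (t : ℝ) x = x := by
  obtain ⟨n, rfl⟩ := h
  have hn : 0 ≤ n := by exact_mod_cast h0
  obtain ⟨m, rfl⟩ := Int.eq_ofNat_of_zero_le hn
  have hm : m ≤ B := by exact_mod_cast hB
  have h1 : ∀ t ∈ range B, ind (t : ℝ) ((m : ℤ) : ℝ) = if t < m then 1 else 0 := by
    intro t _
    unfold ind
    congr 1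
    simp
  rw [Finset.sum_congr rfl h1, Finset.sum_ite, Finset.sum_const_zero, add_zero,
    Finset.sum_const, nsmul_eq_mul, mul_one]
  have h2 : (range B).filter (fun t => t < m) = range m := by
    ext t
    simp only [Finset.mem_filter, Finset.mem_range]
    omega
  rw [h2, Finset.card_range]
  simp

theorem side2 (hSM : S_SM) (hGS : S_GS) (hI : S_INS) (hI2 : S_INS2) (hD : S_DEC) (hB : S_ROWB)
    (hR : S_ROWI) (hInt : S_INT) (hRes : S_RES) : S_SIDE2 := by
  intro k c U V _ _ _ _ a w B ha hw hwi hwB
  choose xi hxi hxi2 using hD U V w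
  have hq0 : ∀ e, 0 ≤ pr a e := fun e => SIDE.q_nonneg (ha _ _)
  have hq1 : ∀ e, pr a e ≤ 1 := fun e => SIDE.q_le_one _
  have hcw : ∀ u, c * ∑ v, a u v * w u v =
      ∑ t ∈ range B, c * ∑ v, a u v * ind (t : ℝ) (w u v) := by
    intro u
    rw [← Finset.mul_sum, Finset.sum_comm]
    congr 1
    refine Finset.sum_congr rfl fun v _ => ?_
    rw [← Finset.mul_sum, ind_sum (hwi u v) (hw u v) (hwB u v)]
  -- the inequality for one row
  have key : ∀ u, ex (pr a) (fun G =>
      ∑ t ∈ range B, (F0 k (XX a w G u t) +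
        k * (∑ v, a u v * ind t (w u v)) * Real.exp (-(XX a w G u t)))
        + k * ∑ v, a u v * max (w u v - pi' w (delR G u) v) 0
        - k * ∑ v, a u v * max (w u v - mu w G u) 0
        - (∑ v, a u v * (max (w u v - pi' w (delR G u) v) 0 - max (w u v - pi' w G v) 0)) / 2
        - (2 * mu w G u - xi G u)) ≤ 0 := by
    intro u
    rw [hRes U V (pr a) u]
    refine (ex_mono_f hq0 hq1 (g := fun _ => (0 : ℝ)) fun G => ?_).trans_eq (ex_const (pr a) 0)
    set H := delR G u with hH
    set T : V → ℝ := fun v => w u v - pi' w H v with hT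
    set s : V → V → ℝ := fun v v' => sg w H v v' with hs
    have e1 : ∀ S, delR (insR G u S) u = H := fun S => delR_insR G u S
    have e2 : ∀ S, mu w (insR G u S) u = pmax T S := by
      intro S
      rw [hI U V w (insR G u S) u, e1, nbr_insR]
    have e3 : ∀ S v, mu w (delC (insR G u S) v) u = pmax (fun v' => T v' - s v v') (S.erase v) := by
      intro S v
      rw [hI2 U V w (insR G u S) u v, e1, nbr_insR]
    have e4 : ∀ S v, w u v - pi' w (insR G u S) v =
        T v - (pmax T S - pmax (fun v' => T v' - s v v') (S.erase v)) := by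
      intro S v
      rw [pi_eq w (insR G u S) u v, e1, e2, e3]
      simp only [hT]; ring
    have e5 : ∀ S (t : ℝ), XX a w (insR G u S) u t = ∑ v, a u v * ind t (T v) := by
      intro S t
      unfold XX
      rw [e1]
    have hb := hB V T s (a u) (fun S => xi (insR G u S) u) (ha u)
      (fun i j => sg_comm w H i j) (fun i j hij => hSM U V w H i j hij)
      (fun i j l h1 h2 h3 => hGS U V w H i j l h1 h2 h3)
      (by
        intro S
        rcases hxi2 (insR G u S) u with h | ⟨v, hv, h1, h2⟩
        · exact Or.inl h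
        · right
          refine ⟨v, (mem_insR G u S v).1 hv, ?_, ?_⟩
          · rw [← e2, h1, e1]
          · rw [h2, e2, e3])
    have hTi : ∀ v, IsI (T v) := by
      intro v
      obtain ⟨n1, h1⟩ := hwi u v
      obtain ⟨n2, h2⟩ := hInt U V w hwi H
      obtain ⟨n3, h3⟩ := hInt U V w hwi (delC H v)
      refine ⟨n1 - (n2 - n3), ?_⟩
      simp only [hT]
      unfold pi'
      rw [h1, h2, h3]
      push_cast
      ring
    have hr := hR k V T (w u) (a u) B (hw u) (fun v => by
      simp only [hT]; linarith [pi_nonneg w H v]) (hwB u) hTi (hwi u)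
    have hqu : (fun v => pr a (u, v)) = fun v => 1 - Real.exp (-(a u v)) := rfl
    rw [hqu]
    -- pointwise identity
    have hpt : (fun S : Finset V =>
        ∑ t ∈ range B, (F0 k (XX a w (insR G u S) u t) +
          k * (∑ v, a u v * ind t (w u v)) * Real.exp (-(XX a w (insR G u S) u t))) +
        k * ∑ v, a u v * max (w u v - pi' w (delR (insR G u S) u) v) 0
        - k * ∑ v, a u v * max (w u v - mu w (insR G u S) u) 0
        - (∑ v, a u v * (max (w u v - pi' w (delR (insR G u S) u) v) 0 -
            max (w u v - pi' w (insR G u S) v) 0)) / 2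
        - (2 * mu w (insR G u S) u - xi (insR G u S) u)) =
      fun S : Finset V => (∑ t ∈ range B, (F0 k (∑ v, a u v * ind t (T v)) +
          k * (∑ v, a u v * ind t (w u v)) * Real.exp (-(∑ v, a u v * ind t (T v)))) -
        (2 * pmax T S - ∑ v, a u v * max (T v - pmax T S) 0 - k * ∑ v, a u v * max (T v) 0 +
          k * ∑ v, a u v * max (w u v - pmax T S) 0)) + (xi (insR G u S) u -
        ∑ v, a u v * (max (T v - pmax T S) 0 + (max (T v) 0 -
          max (T v - (pmax T S - pmax (fun v' => T v' - s v v') (S.erase v))) 0) / 2)) := by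
      funext S
      rw [e1, e2]
      simp only [e4, e5]
      have h1 : ∑ v, a u v * (max (T v - pmax T S) 0 + (max (T v) 0 -
          max (T v - (pmax T S - pmax (fun v' => T v' - s v v') (S.erase v))) 0) / 2) =
          ∑ v, a u v * max (T v - pmax T S) 0 + (∑ v, a u v * (max (T v) 0 -
          max (T v - (pmax T S - pmax (fun v' => T v' - s v v') (S.erase v))) 0)) / 2 := by
        rw [Finset.sum_div, ← Finset.sum_add_distrib]
        exact Finset.sum_congr rfl fun v _ => by ring
      rw [h1]
      ring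
    rw [hpt, ex_add, ex_sub, ex_sub, ex_const, hr]
    have h2 : ∑ t ∈ range B, (F0 k (∑ v, a u v * ind (t : ℝ) (T v)) +
          k * (∑ v, a u v * ind (t : ℝ) (w u v)) *
            Real.exp (-(∑ v, a u v * ind (t : ℝ) (T v)))) =
        ∑ t ∈ range B, (2 * (1 - Real.exp (-(∑ v, a u v * ind t (T v)))) -
          (∑ v, a u v * ind t (T v)) * Real.exp (-(∑ v, a u v * ind t (T v))) -
          k * (∑ v, a u v * ind t (T v)) +
          k * (∑ v, a u v * ind t (w u v)) * Real.exp (-(∑ v, a u v * ind t (T v)))) :=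
      Finset.sum_congr rfl fun t _ => by unfold F0; ring
    rw [h2]
    linarith
  -- sum over the rows
  have hsum := Finset.sum_nonpos (s := (univ : Finset U)) fun u _ => key u
  have hx : ex (pr a) (XG w) = ∑ u, ex (pr a) (fun G => xi G u) := by
    rw [← ex_sum]
    congr 1
    funext G
    exact hxi G
  have hexp : ∀ u, ex (pr a) (fun G =>
      ∑ t ∈ range B, (F0 k (XX a w G u t) +
        k * (∑ v, a u v * ind t (w u v)) * Real.exp (-(XX a w G u t)))
        + k * ∑ v, a u v * max (w u v - pi' w (delR G u) v) 0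
        - k * ∑ v, a u v * max (w u v - mu w G u) 0
        - (∑ v, a u v * (max (w u v - pi' w (delR G u) v) 0 - max (w u v - pi' w G v) 0)) / 2
        - (2 * mu w G u - xi G u)) =
      (c * ∑ v, a u v * w u v + ∑ t ∈ range B, ex (pr a) (fun G => F0 k (XX a w G u t) +
        k * (∑ v, a u v * ind t (w u v)) * Real.exp (-(XX a w G u t)) -
        c * ∑ v, a u v * ind t (w u v)))
        + k * ∑ v, a u v * ex (pr a) (fun G => max (w u v - pi' w (delR G u) v) 0)
        - k * ∑ v, a u v * ex (pr a) (fun G => max (w u v - mu w G u) 0)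
        - (∑ v, a u v * (ex (pr a) (fun G => max (w u v - pi' w (delR G u) v) 0) -
            ex (pr a) (fun G => max (w u v - pi' w G v) 0))) / 2
        - (2 * ex (pr a) (fun G => mu w G u) - ex (pr a) (fun G => xi G u)) := by
    intro u
    have g1 : ∀ F : V → Finset (U × V) → ℝ, ex (pr a) (fun G => ∑ v, a u v * F v G) =
        ∑ v, a u v * ex (pr a) (fun G => F v G) := by
      intro F
      rw [ex_sum]
      exact Finset.sum_congr rfl fun v _ => ex_mul _ _ _
    have g2 : (fun S : Finset (U × V) => (∑ v, a u v * (max (w u v - pi' w (delR S u) v) 0 -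
          max (w u v - pi' w S v) 0)) / 2) = fun S => (1 / 2 : ℝ) * (∑ v, a u v *
          (max (w u v - pi' w (delR S u) v) 0 - max (w u v - pi' w S v) 0)) := by
      funext S; ring
    have g4 : ∑ t ∈ range B, ex (pr a) (fun G => F0 k (XX a w G u t) +
        k * (∑ v, a u v * ind t (w u v)) * Real.exp (-(XX a w G u t)) -
        c * ∑ v, a u v * ind t (w u v)) = ∑ t ∈ range B, ex (pr a) (fun G => F0 k (XX a w G u t) +
        k * (∑ v, a u v * ind t (w u v)) * Real.exp (-(XX a w G u t))) -
        c * ∑ v, a u v * w u v := by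
      rw [hcw u, ← Finset.sum_sub_distrib]
      refine Finset.sum_congr rfl fun t _ => ?_
      rw [ex_sub, ex_const]
    rw [ex_sub, ex_sub, ex_sub, ex_add, ex_mul, ex_mul, ex_sub, ex_mul, g2, ex_mul,
      g1, g1, g1, g4, ex_sum]
    have g3 : ∑ v, a u v * ex (pr a) (fun G => max (w u v - pi' w (delR G u) v) 0 -
          max (w u v - pi' w G v) 0) = ∑ v, a u v * (ex (pr a) (fun G =>
          max (w u v - pi' w (delR G u) v) 0) - ex (pr a) (fun G => max (w u v - pi' w G v) 0)) :=
      Finset.sum_congr rfl fun v _ => by rw [ex_sub]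
    rw [g3]
    ring
  rw [Finset.sum_congr rfl fun u _ => hexp u] at hsum
  rw [ex_sum, hx]
  simp only [Finset.sum_sub_distrib, Finset.sum_add_distrib, ← Finset.mul_sum,
    ← Finset.sum_div] at hsum ⊢
  linarith

end Pool.Agent.H70.CG.SIDE2
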