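import Mathlib

/-!
# Correlation gap of bipartite matchings: definitions and statements
-/

namespace Pool.Agent.H70.CG

open Finset

/-- Weight of the set `S` under the product measure with probabilities `q`. -/
noncomputable def wt {E : Type} [Fintype E] [DecidableEq E] (q : E → ℝ) (S : Finset E) : ℝ :=
  (∏ e ∈ S, q e) * ∏ e ∈ Sᶜ, (1 - q e)

/-- Expectation of `f` over a random subset of `E` containing every `e` independently with
probability `q e`. -/
noncomputable def ex {E : Type} [Fintype E] [DecidableEq E] (q : E → ℝ) (f : Finset E → ℝ) : ℝ :=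
  ∑ S : Finset E, wt q S * f S

/-- `M` is a matching. -/
def IsMat {U V : Type} (M : Finset (U × V)) : Prop :=
  ∀ e ∈ M, ∀ e' ∈ M, (e.1 = e'.1 ∨ e.2 = e'.2) → e = e'

/-- Total weight. -/
def wsum {U V : Type} (w : U → V → ℝ) (M : Finset (U × V)) : ℝ := ∑ e ∈ M, w e.1 e.2

open Classical in
/-- Maximum weight of a matching contained in `G`. -/
noncomputable def nu {U V : Type} (w : U → V → ℝ) (G : Finset (U × V)) : ℝ :=
  (G.powerset.filter (fun M => IsMat M)).sup' ⟨∅, by simp [IsMat]⟩ (wsum w)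

theorem nu_ge {U V : Type} (w : U → V → ℝ) {G M : Finset (U × V)} (hM : IsMat M) (h : M ⊆ G) :
    wsum w M ≤ nu w G := by
  classical
  unfold nu
  exact Finset.le_sup' (f := wsum w) (by simp [h, hM])

theorem exists_nu {U V : Type} (w : U → V → ℝ) (G : Finset (U × V)) :
    ∃ M, M ⊆ G ∧ IsMat M ∧ wsum w M = nu w G := by
  classical
  unfold nu
  obtain ⟨M, hM, h⟩ := Finset.exists_mem_eq_sup' (s := G.powerset.filter (fun M => IsMat M))
    ⟨∅, by simp [IsMat]⟩ (wsum w)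
  rw [Finset.mem_filter, Finset.mem_powerset] at hM
  exact ⟨M, hM.1, hM.2, h.symm⟩

theorem nu_le {U V : Type} (w : U → V → ℝ) {G : Finset (U × V)} {c : ℝ}
    (h : ∀ M, M ⊆ G → IsMat M → wsum w M ≤ c) : nu w G ≤ c := by
  obtain ⟨M, h1, h2, h3⟩ := exists_nu w G
  rw [← h3]; exact h M h1 h2

theorem nu_mono {U V : Type} (w : U → V → ℝ) {G G' : Finset (U × V)} (h : G ⊆ G') :
    nu w G ≤ nu w G' := nu_le w fun _ h1 h2 => nu_ge w h2 (h1.trans h)

theorem nu_nonneg {U V : Type} (w : U → V → ℝ) (G : Finset (U × V)) : 0 ≤ nu w G := by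
  have := nu_ge w (G := G) (M := ∅) (by simp [IsMat]) (by simp)
  simpa [wsum] using this

/-- Delete the row `u`. -/
def delR {U V : Type} [DecidableEq U] (G : Finset (U × V)) (u : U) : Finset (U × V) :=
  G.filter (fun e => e.1 ≠ u)

/-- Delete the column `v`. -/
def delC {U V : Type} [DecidableEq V] (G : Finset (U × V)) (v : V) : Finset (U × V) :=
  G.filter (fun e => e.2 ≠ v)

/-- Marginal value of the row `u`. -/
noncomputable def mu {U V : Type} [DecidableEq U] (w : U → V → ℝ) (G : Finset (U × V)) (u : U) : ℝ :=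
  nu w G - nu w (delR G u)

/-- Marginal value of the column `v`. -/
noncomputable def pi' {U V : Type} [DecidableEq V] (w : U → V → ℝ) (G : Finset (U × V)) (v : V) : ℝ :=
  nu w G - nu w (delC G v)

/-- Excess of the marginal values. -/
noncomputable def XG {U V : Type} [Fintype U] [Fintype V] [DecidableEq U] [DecidableEq V]
    (w : U → V → ℝ) (G : Finset (U × V)) : ℝ :=
  ∑ u, mu w G u + ∑ v, pi' w G v - nu w G

/-- Substitution coefficient of two columns. -/
noncomputable def sg {U V : Type} [DecidableEq V] (w : U → V → ℝ) (H : Finset (U × V)) (i j : V) : ℝ :=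
  nu w (delC H i) + nu w (delC H j) - nu w H - nu w (delC (delC H i) j)

/-- `max (0, max_{v ∈ S} T v)`. -/
noncomputable def pmax {V : Type} (T : V → ℝ) (S : Finset V) : ℝ := S.fold max 0 T

/-- Neighbours of `u`. -/
def nbr {U V : Type} [Fintype V] [DecidableEq U] [DecidableEq V] (G : Finset (U × V)) (u : U) :
    Finset V := univ.filter (fun v => (u, v) ∈ G)

/-- Replace the row `u` of `G` by `S`. -/
def insR {U V : Type} [DecidableEq U] [DecidableEq V] (G : Finset (U × V)) (u : U) (S : Finset V) :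
    Finset (U × V) := delR G u ∪ S.image (fun v => (u, v))

/-- The Poissonised edge probabilities. -/
noncomputable def pr {U V : Type} (a : U → V → ℝ) : U × V → ℝ := fun e => 1 - Real.exp (-(a e.1 e.2))

/-! ## Statements of the parts -/

/-- Exchange property of the column sets of matchings. -/
def S_EXCH : Prop := ∀ (U V : Type) [DecidableEq U] [DecidableEq V] (A B : Finset (U × V)),
  IsMat A → IsMat B → ∀ i ∈ B.image Prod.snd, i ∉ A.image Prod.snd →
  ∃ A' B' : Finset (U × V), IsMat A' ∧ IsMat B' ∧ A' ⊆ A ∪ B ∧ B' ⊆ A ∪ B ∧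
    (∀ w : U → V → ℝ, wsum w A' + wsum w B' = wsum w A + wsum w B) ∧
    ((A'.image Prod.snd = insert i (A.image Prod.snd) ∧
        B'.image Prod.snd = (B.image Prod.snd).erase i) ∨
     ∃ j ∈ A.image Prod.snd, j ∉ B.image Prod.snd ∧
        A'.image Prod.snd = insert i ((A.image Prod.snd).erase j) ∧
        B'.image Prod.snd = insert j ((B.image Prod.snd).erase i))

/-- `σ ≥ 0`. -/
def S_SM : Prop := ∀ (U V : Type) [DecidableEq U] [DecidableEq V] (w : U → V → ℝ)
  (H : Finset (U × V)) (i j : V), i ≠ j → 0 ≤ sg w H i j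

/-- `σ_ij ≥ min (σ_ik, σ_jk)`. -/
def S_GS : Prop := ∀ (U V : Type) [DecidableEq U] [DecidableEq V] (w : U → V → ℝ)
  (H : Finset (U × V)) (i j k : V), i ≠ j → i ≠ k → j ≠ k →
  min (sg w H i k) (sg w H j k) ≤ sg w H i j

/-- Insertion of a row. -/
def S_INS : Prop := ∀ (U V : Type) [Fintype V] [DecidableEq U] [DecidableEq V] (w : U → V → ℝ)
  (G : Finset (U × V)) (u : U),
  mu w G u = pmax (fun v => w u v - pi' w (delR G u) v) (nbr G u)

/-- Insertion of a row after the deletion of a column. -/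
def S_INS2 : Prop := ∀ (U V : Type) [Fintype V] [DecidableEq U] [DecidableEq V] (w : U → V → ℝ)
  (G : Finset (U × V)) (u : U) (v : V),
  mu w (delC G v) u =
    pmax (fun v' => w u v' - pi' w (delR G u) v' - sg w (delR G u) v v') ((nbr G u).erase v)

/-- Decomposition of the excess over the rows. -/
def S_DEC : Prop := ∀ (U V : Type) [Fintype U] [Fintype V] [DecidableEq U] [DecidableEq V]
  (w : U → V → ℝ) (G : Finset (U × V)),
  ∃ xi : U → ℝ, XG w G = ∑ u, xi u ∧ ∀ u, xi u = 0 ∨ ∃ v, (u, v) ∈ G ∧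
    mu w G u = w u v - pi' w (delR G u) v ∧ xi u = mu w G u - mu w (delC G v) u

/-- The abstract inequality for the excess of a row. -/
def S_ROWB : Prop := ∀ (V : Type) [Fintype V] [DecidableEq V] (T : V → ℝ) (s : V → V → ℝ)
  (a : V → ℝ) (xi : Finset V → ℝ),
  (∀ v, 0 ≤ a v) → (∀ i j, s i j = s j i) → (∀ i j, i ≠ j → 0 ≤ s i j) →
  (∀ i j k, i ≠ j → i ≠ k → j ≠ k → min (s i k) (s j k) ≤ s i j) →
  (∀ S, xi S = 0 ∨ ∃ v ∈ S, pmax T S = T v ∧
    xi S = pmax T S - pmax (fun v' => T v' - s v v') (S.erase v)) →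
  ex (fun v => 1 - Real.exp (-(a v))) xi ≤
    ex (fun v => 1 - Real.exp (-(a v))) (fun S => ∑ v, a v * (max (T v - pmax T S) 0 +
      (max (T v) 0 -
        max (T v - (pmax T S - pmax (fun v' => T v' - s v v') (S.erase v))) 0) / 2))

/-- The elementary inequality with parameters `c`, `k`. -/
def FF (c k : ℝ) : Prop := ∀ L r : ℝ, 0 ≤ L → L ≤ r → r ≤ 1 →
  c * r ≤ 2 * (1 - Real.exp (-L)) - L * Real.exp (-L) - k * L + k * r * Real.exp (-L)

/-- The abstract inequality for the value of a row. -/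
def S_ROWR : Prop := ∀ (c k : ℝ), FF c k → ∀ (V : Type) [Fintype V] [DecidableEq V]
  (T w : V → ℝ) (a : V → ℝ),
  (∀ v, 0 ≤ a v) → ∑ v, a v ≤ 1 → (∀ v, 0 ≤ w v) → (∀ v, T v ≤ w v) →
  c * ∑ v, a v * w v ≤ ex (fun v => 1 - Real.exp (-(a v))) (fun S =>
    2 * pmax T S - ∑ v, a v * max (T v - pmax T S) 0 - k * ∑ v, a v * max (T v) 0 +
      k * ∑ v, a v * max (w v - pmax T S) 0)

/-- The numerical inequality. -/
def S_NUM : Prop := FF (5425 / 10000) (559795 / 1000000)

/-- Resampling a row. -/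
def S_RES : Prop := ∀ (U V : Type) [Fintype U] [Fintype V] [DecidableEq U] [DecidableEq V]
  (q : U × V → ℝ) (u : U) (f : Finset (U × V) → ℝ),
  ex q f = ex q (fun G => ex (fun v => q (u, v)) (fun S => f (insR G u S)))

/-- Monotonicity in the probabilities. -/
def S_MONO : Prop := ∀ (E : Type) [Fintype E] [DecidableEq E] (q q' : E → ℝ) (f : Finset E → ℝ),
  (∀ e, 0 ≤ q e) → (∀ e, q e ≤ q' e) → (∀ e, q' e ≤ 1) →
  (∀ S S' : Finset E, S ⊆ S' → f S ≤ f S') → ex q f ≤ ex q' f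

/-- Transposition. -/
def trG {U V : Type} (G : Finset (U × V)) : Finset (V × U) := G.map (Equiv.prodComm U V).toEmbedding

def S_TR : Prop := ∀ (U V : Type) [Fintype U] [Fintype V] [DecidableEq U] [DecidableEq V],
  (∀ (w : U → V → ℝ) (G : Finset (U × V)), nu (fun v u => w u v) (trG G) = nu w G) ∧
  (∀ (G : Finset (U × V)) (v : V), delR (trG G) v = trG (delC G v)) ∧
  (∀ (G : Finset (U × V)) (u : U), delC (trG G) u = trG (delR G u)) ∧
  (∀ (q : V × U → ℝ) (f : Finset (V × U) → ℝ),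
    ex q f = ex (fun e : U × V => q (e.2, e.1)) (fun G => f (trG G)))

/-- The inequality for the rows. -/
def S_SIDE : Prop := ∀ (c k : ℝ), FF c k → ∀ (U V : Type) [Fintype U] [Fintype V] [DecidableEq U]
  [DecidableEq V] (a w : U → V → ℝ), (∀ u v, 0 ≤ a u v) → (∀ u, ∑ v, a u v ≤ 1) →
  (∀ u v, 0 ≤ w u v) →
  c * ∑ u, ∑ v, a u v * w u v +
    k * ∑ u, ∑ v, a u v * ex (pr a) (fun G => max (w u v - pi' w (delR G u) v) 0) -
    k * ∑ u, ∑ v, a u v * ex (pr a) (fun G => max (w u v - mu w G u) 0) -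
    (∑ u, ∑ v, a u v * (ex (pr a) (fun G => max (w u v - pi' w (delR G u) v) 0) -
      ex (pr a) (fun G => max (w u v - pi' w G v) 0))) / 2
  ≤ 2 * ex (pr a) (fun G => ∑ u, mu w G u) - ex (pr a) (XG w)

/-- The correlation gap for the Poissonised graph. -/
def S_POIS : Prop := ∀ (c k : ℝ), FF c k → 1 / 2 ≤ k → ∀ (U V : Type) [Fintype U] [Fintype V]
  [DecidableEq U] [DecidableEq V] (a w : U → V → ℝ), (∀ u v, 0 ≤ a u v) →
  (∀ u, ∑ v, a u v ≤ 1) → (∀ v, ∑ u, a u v ≤ 1) → (∀ u v, 0 ≤ w u v) →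
  c * ∑ u, ∑ v, a u v * w u v ≤ ex (pr a) (nu w)

/-- The correlation gap. -/
def S_GAP (c : ℝ) : Prop := ∀ (U V : Type) [Fintype U] [Fintype V]
  [DecidableEq U] [DecidableEq V] (a w : U → V → ℝ), (∀ u v, 0 ≤ a u v) →
  (∀ u, ∑ v, a u v ≤ 1) → (∀ v, ∑ u, a u v ≤ 1) → (∀ u v, 0 ≤ w u v) →
  c * ∑ u, ∑ v, a u v * w u v ≤ ex (fun e : U × V => a e.1 e.2) (nu w)

/-- From the correlation gap to contention resolution (minimax). -/
def S_CRS : Prop := ∀ (E : Type) [Fintype E] [DecidableEq E] (Mat : Finset E → Prop) (c : ℝ)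
  (q : E → ℝ), Mat ∅ → (∀ e, 0 ≤ q e) → (∀ e, q e ≤ 1) →
  (∀ w : E → ℝ, (∀ e, 0 ≤ w e) → ∃ g : Finset E → Finset E, (∀ S, g S ⊆ S ∧ Mat (g S)) ∧
    c * ∑ e, q e * w e ≤ ex q (fun S => ∑ e ∈ g S, w e)) →
  ∃ ph : Finset E → Finset E → ℝ, (∀ S M, 0 ≤ ph S M) ∧ (∀ S, ∑ M : Finset E, ph S M = 1) ∧
    (∀ S M, ph S M ≠ 0 → M ⊆ S ∧ Mat M) ∧
    ∀ e, c * q e ≤ ex q (fun S => ∑ M : Finset E, if e ∈ M then ph S M else 0)

end Pool.Agent.H70.CG
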