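import Pool.Agent.H70.CG.Stm
import Mathlib

/-!
# Contention resolution for matchings of bipartite graphs: statement
-/

namespace Pool.Agent.H70.CG

open Finset

section
variable {V : Type} [Fintype V] [DecidableEq V] (G : SimpleGraph V) [DecidableRel G.Adj]

/-- `M` is a matching of `G`: no two different edges of `M` have a common vertex. -/
def IsMatching (M : Finset G.edgeSet) : Prop :=
  ∀ e ∈ M, ∀ e' ∈ M, ∀ v : V, v ∈ e.1 → v ∈ e'.1 → e = e'

/-- The matching polytope: the convex hull of the indicator vectors of the matchings. -/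
def MatPoly : Set (G.edgeSet → ℝ) :=
  convexHull ℝ {x | ∃ M : Finset G.edgeSet, IsMatching G M ∧ x = fun e => if e ∈ M then 1 else 0}

/-- Probability that the random set `R(x)` is `S`. -/
noncomputable def probR (x : G.edgeSet → ℝ) (S : Finset G.edgeSet) : ℝ :=
  (∏ e ∈ S, x e) * ∏ e ∈ Sᶜ, (1 - x e)

/-- `ph S` is, for every `S`, a probability distribution on the matchings contained in `S`. -/
structure IsScheme (ph : Finset G.edgeSet → Finset G.edgeSet → ℝ) : Prop where
  nonneg : ∀ S M, 0 ≤ ph S M
  total : ∀ S, ∑ M : Finset G.edgeSet, ph S M = 1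
  supp : ∀ S M, ph S M ≠ 0 → M ⊆ S ∧ IsMatching G M

/-- The conditional probability that `e` is selected, given that `e` is in `R(x)`. -/
noncomputable def condSel (x : G.edgeSet → ℝ) (ph : Finset G.edgeSet → Finset G.edgeSet → ℝ)
    (e : G.edgeSet) : ℝ :=
  (∑ S : Finset G.edgeSet, if e ∈ S then
      probR G x S * ∑ M : Finset G.edgeSet, (if e ∈ M then ph S M else 0) else 0) /
    (∑ S : Finset G.edgeSet, if e ∈ S then probR G x S else 0)

end

/-- On every bipartite graph there is a `c`-balanced contention resolution scheme. -/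
def S_BIP (c : ℝ) : Prop := ∀ (V : Type) [Fintype V] [DecidableEq V] (G : SimpleGraph V)
  [DecidableRel G.Adj], G.Colorable 2 → ∀ x ∈ MatPoly G,
  ∃ ph : Finset G.edgeSet → Finset G.edgeSet → ℝ, IsScheme G ph ∧
    ∀ e, 0 < x e → c ≤ condSel G x ph e

end Pool.Agent.H70.CG
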